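import Pool.Agent.Lib_helper26.RE.Lower

/-!
# MP_df1a54_co, dense range: bad vertices and safe additions

`Ad H F`: adjacency in `H + F`.  For a vertex `w` with at most `c - 1` neighbours in `H + F` there
are at most `c - 1` vertices `x` for which adding `w x` can create a complete pair on more than
`c + 1` vertices.
-/

open Finset

set_option linter.unusedSectionVars false

namespace Pool.Agent.RE26.Dr

variable {V : Type} [Fintype V] [DecidableEq V]

/-- adjacency in `H + F` -/
def Ad (H : SimpleGraph V) (F : Finset (Sym2 V)) (a b : V) : Prop := H.Adj a b ∨ s(a, b) ∈ F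

theorem Ad.symm {H : SimpleGraph V} {F : Finset (Sym2 V)} {a b : V} (h : Ad H F a b) :
    Ad H F b a := by
  rcases h with h | h
  · exact Or.inl h.symm
  · right
    rwa [Sym2.eq_swap]

theorem Ad.mono {H : SimpleGraph V} {F F1 : Finset (Sym2 V)} (hs : F1 ⊆ F) {a b : V}
    (h : Ad H F1 a b) : Ad H F a b := by
  rcases h with h | h
  · exact Or.inl h
  · exact Or.inr (hs h)

theorem Ad.ne {H : SimpleGraph V} {c : ℕ} {F : Finset (Sym2 V)} (hF : Good H c F) {a b : V}
    (h : Ad H F a b) : a ≠ b := by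
  rcases h with h | h
  · exact h.ne
  · intro hab
    exact (hF.1 _ h).1 (Sym2.mk_isDiag_iff.2 hab)

open Classical in
/-- neighbours in `H + F` -/
noncomputable def nbr (H : SimpleGraph V) (F : Finset (Sym2 V)) (w : V) : Finset V :=
  univ.filter (fun z => Ad H F w z)

theorem mem_nbr (H : SimpleGraph V) (F : Finset (Sym2 V)) (w z : V) :
    z ∈ nbr H F w ↔ Ad H F w z := by
  classical
  unfold nbr
  simp

/-- `x` is a bad partner of `w` -/
def BadP (H : SimpleGraph V) (F : Finset (Sym2 V)) (c : ℕ) (w x : V) : Prop :=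
  ∃ P B : Finset V, P.Nonempty ∧ Disjoint P B ∧ c + 1 ≤ P.card + B.card ∧
    (∀ p ∈ P, ∀ b ∈ B, Ad H F p b) ∧ w ∈ B ∧ ∀ b ∈ B, b ≠ w → Ad H F x b

open Classical in
/-- the bad partners of `w` -/
noncomputable def bad (H : SimpleGraph V) (F : Finset (Sym2 V)) (c : ℕ) (w : V) : Finset V :=
  univ.filter (fun x => x ≠ w ∧ ¬ Ad H F w x ∧ BadP H F c w x)

theorem mem_bad (H : SimpleGraph V) (F : Finset (Sym2 V)) (c : ℕ) (w x : V) :
    x ∈ bad H F c w ↔ x ≠ w ∧ ¬ Ad H F w x ∧ BadP H F c w x := by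
  classical
  unfold bad
  simp

/-- adding `w x` to a subset of `F` is safe when `x` is not a bad partner of `w` -/
theorem add_good {H : SimpleGraph V} {c : ℕ} {F F1 : Finset (Sym2 V)} (hF : Good H c F)
    (hsub : F1 ⊆ F) {w x : V} (hwx : x ≠ w) (hna : ¬ Ad H F w x) (hbad : ¬ BadP H F c w x)
    (hdx : (nbr H F1 x).card + 1 ≤ c) : Good H c (insert s(w, x) F1) := by
  classical
  have core : ∀ A B : Finset V, Disjoint A B →
      (∀ a ∈ A, ∀ b ∈ B, H.Adj a b ∨ s(a, b) ∈ insert s(w, x) F1) → x ∈ A → w ∈ B →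
      A.card + B.card ≤ c + 1 := by
    intro A B hdis hAB hxA hwB
    by_contra hlt
    push Not at hlt
    have hPc := Finset.card_erase_add_one hxA
    have hx1 : ∀ b ∈ B, b ≠ w → Ad H F1 x b := by
      intro b hb hbw
      rcases hAB x hxA b hb with h | h
      · exact Or.inl h
      · rcases Finset.mem_insert.1 h with h | h
        · exfalso
          rcases Sym2.eq_iff.1 h with ⟨h1, -⟩ | ⟨-, h2⟩
          · exact hwx h1
          · exact hbw h2
        · exact Or.inr h
    by_cases hP : (A.erase x).Nonempty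
    · refine hbad ⟨A.erase x, B, hP, ?_, by omega, ?_, hwB, fun b hb hbw =>
        (hx1 b hb hbw).mono hsub⟩
      · rw [Finset.disjoint_left] at hdis ⊢
        intro a ha
        exact hdis (Finset.mem_of_mem_erase ha)
      · intro p hp b hb
        obtain ⟨hpx, hpA⟩ := Finset.mem_erase.1 hp
        rcases hAB p hpA b hb with h | h
        · exact Or.inl h
        · rcases Finset.mem_insert.1 h with h | h
          · exfalso
            rcases Sym2.eq_iff.1 h with ⟨h1, -⟩ | ⟨h1, -⟩
            · rw [h1] at hpA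
              exact Finset.disjoint_left.1 hdis hpA hwB
            · exact hpx h1
          · exact Or.inr (hsub h)
    · rw [Finset.not_nonempty_iff_eq_empty] at hP
      rw [hP, Finset.card_empty] at hPc
      have h1 : B.erase w ⊆ nbr H F1 x := by
        intro b hb
        obtain ⟨hbw, hbB⟩ := Finset.mem_erase.1 hb
        exact (mem_nbr H F1 x b).2 (hx1 b hbB hbw)
      have h2 := Finset.card_le_card h1
      have h3 := Finset.card_erase_add_one hwB
      omega
  refine ⟨?_, ?_⟩
  · intro e he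
    rcases Finset.mem_insert.1 he with rfl | he
    · refine ⟨fun h => hwx (Sym2.mk_isDiag_iff.1 h).symm, ?_⟩
      rw [SimpleGraph.mem_edgeSet]
      exact fun h => hna (Or.inl h)
    · exact hF.1 e (hsub he)
  · intro A B hA hB hdis hAB
    by_cases h1 : x ∈ A ∧ w ∈ B
    · exact core A B hdis hAB h1.1 h1.2
    by_cases h2 : x ∈ B ∧ w ∈ A
    · have := core B A hdis.symm (fun b hb a ha => by
        rcases hAB a ha b hb with h | h
        · exact Or.inl h.symm
        · exact Or.inr (by rw [show s(b, a) = s(a, b) from Sym2.eq_swap]; exact h)) h2.1 h2.2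
      omega
    refine hF.2 A B hA hB hdis ?_
    intro a ha b hb
    rcases hAB a ha b hb with h | h
    · exact Or.inl h
    · rcases Finset.mem_insert.1 h with h | h
      · exfalso
        rcases Sym2.eq_iff.1 h with ⟨ha', hb'⟩ | ⟨ha', hb'⟩
        · exact h2 ⟨hb' ▸ hb, ha' ▸ ha⟩
        · exact h1 ⟨ha' ▸ ha, hb' ▸ hb⟩
      · exact Or.inr (hsub h)

/-- at most `c - 1` bad partners -/
theorem card_bad {H : SimpleGraph V} {c : ℕ} {F : Finset (Sym2 V)} (hF : Good H c F) (w : V)
    (hw : (nbr H F w).card + 1 ≤ c) : (bad H F c w).card ≤ (nbr H F w).card := by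
  classical
  have : Nonempty V := ⟨w⟩
  have hex : ∀ x ∈ bad H F c w, ∃ p : V, ∃ P B : Finset V, p ∈ P ∧ Disjoint P B ∧
      c + 1 ≤ P.card + B.card ∧ (∀ p ∈ P, ∀ b ∈ B, Ad H F p b) ∧ w ∈ B ∧
      ∀ b ∈ B, b ≠ w → Ad H F x b := by
    intro x hx
    obtain ⟨-, -, P, B, ⟨p, hp⟩, h1, h2, h3, h4, h5⟩ := (mem_bad H F c w x).1 hx
    exact ⟨p, P, B, hp, h1, h2, h3, h4, h5⟩
  choose! f P B hpP hdis hsz hcomp hwB hxB using hex
  have hPn : ∀ x ∈ bad H F c w, ∀ p ∈ P x, Ad H F w p := by
    intro x hx p hp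
    exact (hcomp x hx p hp w (hwB x hx)).symm
  refine Finset.card_le_card_of_injOn f ?_ ?_
  · intro x hx
    rw [Finset.mem_coe] at hx ⊢
    exact (mem_nbr H F w _).2 (hPn x hx _ (hpP x hx))
  · intro x1 hx1 x2 hx2 hff
    rw [Finset.mem_coe] at hx1 hx2
    by_contra hne
    obtain ⟨h1w, h1n, -⟩ := (mem_bad H F c w x1).1 hx1
    obtain ⟨h2w, h2n, -⟩ := (mem_bad H F c w x2).1 hx2
    have hp1 := hpP x1 hx1
    have hp2 := hpP x2 hx2
    rw [← hff] at hp2
    have hwI : w ∈ B x1 ∩ B x2 := Finset.mem_inter.2 ⟨hwB x1 hx1, hwB x2 hx2⟩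
    have e1 := Finset.card_union_add_card_inter (P x1) (P x2)
    have e2 := Finset.card_union_add_card_inter (B x1) (B x2)
    have e3 : (P x1 ∩ P x2).card + (B x1 ∪ B x2).card ≤ c + 1 := by
      refine hF.2 _ _ ⟨f x1, Finset.mem_inter.2 ⟨hp1, hp2⟩⟩
        ⟨w, Finset.mem_union_left _ (hwB x1 hx1)⟩ ?_ ?_
      · rw [Finset.disjoint_left]
        intro a ha hb
        obtain ⟨ha1, ha2⟩ := Finset.mem_inter.1 ha
        rcases Finset.mem_union.1 hb with hb | hb
        · exact Finset.disjoint_left.1 (hdis x1 hx1) ha1 hb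
        · exact Finset.disjoint_left.1 (hdis x2 hx2) ha2 hb
      · intro a ha b hb
        obtain ⟨ha1, ha2⟩ := Finset.mem_inter.1 ha
        rcases Finset.mem_union.1 hb with hb | hb
        · exact hcomp x1 hx1 a ha1 b hb
        · exact hcomp x2 hx2 a ha2 b hb
    have s1 := hsz x1 hx1
    have s2 := hsz x2 hx2
    have hPu : ∀ p ∈ P x1 ∪ P x2, Ad H F w p := by
      intro p hp
      rcases Finset.mem_union.1 hp with hp | hp
      · exact hPn x1 hx1 p hp
      · exact hPn x2 hx2 p hp
    have hE := Finset.card_erase_add_one hwI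
    by_cases hEn : ((B x1 ∩ B x2).erase w).Nonempty
    · have hx2P : x2 ∉ P x1 ∪ P x2 := fun h => h2n (hPu x2 h)
      have hx1P : x1 ∉ insert x2 (P x1 ∪ P x2) := by
        intro h
        rcases Finset.mem_insert.1 h with h | h
        · exact hne h
        · exact h1n (hPu x1 h)
      have hmem : ∀ b ∈ (B x1 ∩ B x2).erase w, b ≠ w ∧ b ∈ B x1 ∧ b ∈ B x2 := by
        intro b hb
        obtain ⟨h1, h2⟩ := Finset.mem_erase.1 hb
        obtain ⟨h3, h4⟩ := Finset.mem_inter.1 h2
        exact ⟨h1, h3, h4⟩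
      have hcompl : ∀ a ∈ insert x1 (insert x2 (P x1 ∪ P x2)), ∀ b ∈ (B x1 ∩ B x2).erase w,
          Ad H F a b := by
        intro a ha b hb
        obtain ⟨hbw, hb1, hb2⟩ := hmem b hb
        rcases Finset.mem_insert.1 ha with rfl | ha
        · exact hxB a hx1 b hb1 hbw
        rcases Finset.mem_insert.1 ha with rfl | ha
        · exact hxB a hx2 b hb2 hbw
        rcases Finset.mem_union.1 ha with ha | ha
        · exact hcomp x1 hx1 a ha b hb1
        · exact hcomp x2 hx2 a ha b hb2
      have e4 := hF.2 (insert x1 (insert x2 (P x1 ∪ P x2))) ((B x1 ∩ B x2).erase w)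
        ⟨x1, Finset.mem_insert_self _ _⟩ hEn (by
          rw [Finset.disjoint_left]
          intro a ha hb
          exact (hcompl a ha a hb).ne hF rfl) hcompl
      rw [Finset.card_insert_of_notMem hx1P, Finset.card_insert_of_notMem hx2P] at e4
      omega
    · rw [Finset.not_nonempty_iff_eq_empty] at hEn
      rw [hEn, Finset.card_empty] at hE
      have h1 : P x1 ∪ P x2 ⊆ nbr H F w := by
        intro p hp
        exact (mem_nbr H F w p).2 (hPu p hp)
      have h2 := Finset.card_le_card h1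
      omega

open Classical in
/-- the good partners of `w` -/
noncomputable def gd (H : SimpleGraph V) (F : Finset (Sym2 V)) (c : ℕ) (w : V) : Finset V :=
  univ.filter (fun x => x ≠ w ∧ ¬ Ad H F w x ∧ ¬ BadP H F c w x)

theorem mem_gd (H : SimpleGraph V) (F : Finset (Sym2 V)) (c : ℕ) (w x : V) :
    x ∈ gd H F c w ↔ x ≠ w ∧ ¬ Ad H F w x ∧ ¬ BadP H F c w x := by
  classical
  unfold gd
  simp

theorem card_gd {H : SimpleGraph V} {c : ℕ} {F : Finset (Sym2 V)} (hF : Good H c F) (w : V)
    (hw : (nbr H F w).card + 1 ≤ c) : Fintype.card V + 1 ≤ (gd H F c w).card + 2 * c := by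
  classical
  have h1 : (univ : Finset V) ⊆ gd H F c w ∪ insert w (nbr H F w ∪ bad H F c w) := by
    intro x _
    rw [Finset.mem_union, Finset.mem_insert, Finset.mem_union, mem_gd, mem_nbr, mem_bad]
    by_cases h1 : x = w
    · exact Or.inr (Or.inl h1)
    by_cases h2 : Ad H F w x
    · exact Or.inr (Or.inr (Or.inl h2))
    by_cases h3 : BadP H F c w x
    · exact Or.inr (Or.inr (Or.inr ⟨h1, h2, h3⟩))
    · exact Or.inl ⟨h1, h2, h3⟩
  have h2 := Finset.card_le_card h1
  have h3 := Finset.card_union_le (gd H F c w) (insert w (nbr H F w ∪ bad H F c w))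
  have h4 := Finset.card_insert_le w (nbr H F w ∪ bad H F c w)
  have h5 := Finset.card_union_le (nbr H F w) (bad H F c w)
  have h6 := card_bad hF w hw
  rw [Finset.card_univ] at h2
  omega

end Pool.Agent.RE26.Dr
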