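import Pool.Agent.DenseRg.Third

/-!
# MP_df1a54_co: alternating paths built backwards from the augmenting edge
-/

open Finset

set_option linter.unusedSectionVars false

namespace Pool.Agent.RE26.Dr

variable {V : Type} [Fintype V] [DecidableEq V]

theorem Bd3.symm {H : SimpleGraph V} {F : Finset (Sym2 V)} {c : ℕ} {u z : V}
    (h : Bd3 H F c u z) : Bd3 H F c z u := by
  obtain ⟨P, Q, d⟩ := h
  exact ⟨Q, P, d.symm⟩

/-- `F` without the chosen edge at `v`, if `v` is not free -/
noncomputable def fv (H : SimpleGraph V) (F : Finset (Sym2 V)) (c : ℕ) (y : V → V) (v : V) :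
    Finset (Sym2 V) :=
  if (nbr H F v).card + 1 ≤ c then F else F.erase s(v, y v)

theorem fv_sub (H : SimpleGraph V) (F : Finset (Sym2 V)) (c : ℕ) (y : V → V) (v : V) :
    fv H F c y v ⊆ F := by
  unfold fv
  split_ifs
  · exact Finset.Subset.refl _
  · exact Finset.erase_subset _ _

/-- `u z` is a safe pair -/
def Sf (H : SimpleGraph V) (F : Finset (Sym2 V)) (c : ℕ) (y : V → V) (u z : V) : Prop :=
  z ≠ u ∧ ¬ Ad H F u z ∧ ¬ Bd3 H ((fv H F c y z).filter (fun e => u ∉ e)) c u z

open Classical in
/-- the safe parents of `z` in `D` -/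
noncomputable def par (H : SimpleGraph V) (F : Finset (Sym2 V)) (c : ℕ) (y : V → V)
    (D : Finset V) (z : V) : Finset V := D.filter (fun u => Sf H F c y u z)

theorem mem_par {H : SimpleGraph V} {F : Finset (Sym2 V)} {c : ℕ} {y : V → V} {D : Finset V}
    {z u : V} : u ∈ par H F c y D z ↔ u ∈ D ∧ Sf H F c y u z := by
  classical
  unfold par
  rw [Finset.mem_filter]

/-- uncovered vertices -/
def unc (F : Finset (Sym2 V)) : Finset V := univ.filter (fun w => dF F w = 0)

theorem mem_unc {F : Finset (Sym2 V)} {w : V} : w ∈ unc F ↔ dF F w = 0 := by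
  unfold unc
  simp

/-- inner vertices of level at most `j` -/
noncomputable def Inn (H : SimpleGraph V) (F : Finset (Sym2 V)) (c : ℕ) (y : V → V) (T : ℕ) :
    ℕ → Finset V
  | 0 => ∅
  | j + 1 => univ.filter
      (fun z => T ≤ (par H F c y (unc F ∪ (Inn H F c y T j).image y) z).card)

theorem mem_Inn {H : SimpleGraph V} {F : Finset (Sym2 V)} {c : ℕ} {y : V → V} {T j : ℕ}
    {z : V} : z ∈ Inn H F c y T (j + 1) ↔
      T ≤ (par H F c y (unc F ∪ (Inn H F c y T j).image y) z).card := by
  simp [Inn]

/-- the standing hypotheses -/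
structure Cx (H : SimpleGraph V) (c : ℕ) (F : Finset (Sym2 V)) (y : V → V) : Prop where
  good : Good H c F
  deg : ∀ v, (cn H {v}).card + 1 ≤ c
  hy : ∀ v, ¬ (nbr H F v).card + 1 ≤ c → s(v, y v) ∈ F

/-- a state: the changes with respect to `F` are inside `Z` -/
structure St (H : SimpleGraph V) (c : ℕ) (F E : Finset (Sym2 V)) (Z : Finset V) : Prop where
  good : Good H c E
  rem : ∀ e ∈ F, e ∉ E → ∀ v ∈ e, v ∈ Z
  new : ∀ e ∈ E, e ∉ F → ∀ v ∈ e, v ∈ Z

/-- `x` is waiting for an edge -/
structure Pend (H : SimpleGraph V) (c : ℕ) (F : Finset (Sym2 V)) (y : V → V)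
    (E : Finset (Sym2 V)) (Z : Finset V) (x : V) : Prop where
  mem : x ∈ Z
  nb : (nbr H E x).card + 1 ≤ c
  old : ∀ e ∈ E, e ∈ F → e ∈ fv H F c y x

section

variable {H : SimpleGraph V} {c : ℕ} {F E : Finset (Sym2 V)} {y : V → V} {Z : Finset V} {x : V}

open Classical in
/-- few safe parents become bad -/
theorem bad_few (hS : St H c F E Z) (hP : Pend H c F y E Z x) (D : Finset V) :
    ((par H F c y D x).filter (fun u => u ∉ Z ∧
      Bd3 H (E.filter (fun e => u ∉ e)) c u x)).card ≤ Z.card := by
  have : Nonempty V := ⟨x⟩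
  set A := (par H F c y D x).filter (fun u => u ∉ Z ∧
      Bd3 H (E.filter (fun e => u ∉ e)) c u x) with hA
  have hex : ∀ u ∈ A, ∃ q : V, ∃ P Q : Finset V,
      Dat3 H (E.filter (fun e => u ∉ e)) c u x P Q ∧ q ∈ Q ∧ q ∈ Z := by
    intro u hu
    obtain ⟨h1, h2, P, Q, d⟩ := Finset.mem_filter.1 hu
    obtain ⟨-, h3⟩ := mem_par.1 h1
    by_contra hcon
    have hq : ∀ q ∈ Q, q ∉ Z := fun q hq hqZ => hcon ⟨q, P, Q, d, hq, hqZ⟩
    refine h3.2.2 ⟨P, Q, d.1, ?_, ?_, ?_⟩
    · intro p hp q hq'
      rcases d.2.1 p hp q hq' with h | h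
      · exact Or.inl h
      · obtain ⟨k1, k2⟩ := Finset.mem_filter.1 h
        have k3 : s(p, q) ∈ F := by
          by_contra hnF
          exact hq q hq' (hS.new _ k1 hnF q (Sym2.mem_mk_right p q))
        exact Or.inr (Finset.mem_filter.2 ⟨hP.old _ k1 k3, k2⟩)
    · intro p hp
      rcases d.2.2.1 p hp with h | h
      · exact Or.inl h
      · exact absurd (Sym2.mem_mk_left u p) (Finset.mem_filter.1 h).2
    · intro q hq'
      rcases d.2.2.2 q hq' with h | h
      · exact Or.inl h
      · obtain ⟨k1, k2⟩ := Finset.mem_filter.1 h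
        have k3 : s(x, q) ∈ F := by
          by_contra hnF
          exact hq q hq' (hS.new _ k1 hnF q (Sym2.mem_mk_right x q))
        exact Or.inr (Finset.mem_filter.2 ⟨hP.old _ k1 k3, k2⟩)
  choose! q P Q hd hqQ hqZ using hex
  refine Finset.card_le_card_of_injOn q (fun u hu => hqZ u hu) ?_
  intro u1 h1 u2 h2 heq
  rw [Finset.mem_coe] at h1 h2
  have hn : ∀ u ∈ A, ¬ Ad H E x u := by
    intro u hu h
    obtain ⟨k1, k2, -⟩ := Finset.mem_filter.1 hu
    obtain ⟨-, k3⟩ := mem_par.1 k1
    rcases h with h | h
    · exact k3.2.1 (Or.inl h.symm)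
    · by_cases hF : s(x, u) ∈ F
      · exact k3.2.1 (Or.inr (by rw [show s(u, x) = s(x, u) from Sym2.eq_swap]; exact hF))
      · exact k2 (hS.new _ h hF u (Sym2.mem_mk_right x u))
  have q2 := hqQ u2 h2
  rw [← heq] at q2
  exact uniq3 hS.good hP.nb ((hd u1 h1).symm.mono (Finset.filter_subset _ _))
    ((hd u2 h2).symm.mono (Finset.filter_subset _ _)) (hn u1 h1) (hn u2 h2) (hqQ u1 h1) q2

/-- the result of completing the pending vertex `x` -/
structure Done (H : SimpleGraph V) (c : ℕ) (F E : Finset (Sym2 V)) (Z : Finset V) (x : V)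
    (b : ℕ) (E' : Finset (Sym2 V)) (Z' : Finset V) (w : V) : Prop where
  st : St H c F E' Z'
  sub : Z ⊆ Z'
  card : Z'.card ≤ Z.card + b
  w0 : dF F w = 0
  wZ : w ∉ Z
  deg : ∀ v, dF E' v = dF E v + (if v = x then 1 else 0) + (if v = w then 1 else 0)
  keep : ∀ v ∈ Z, v ≠ x → ∀ t, s(v, t) ∈ E' → s(v, t) ∈ E
  old : ∀ e ∈ E', e ∈ F → e ∈ E

theorem comp (cx : Cx H c F y) (T : ℕ) (j : ℕ) : ∀ (E : Finset (Sym2 V)) (Z : Finset V) (x : V),
    St H c F E Z → Pend H c F y E Z x → x ∈ Inn H F c y T j → 3 * Z.card + 6 * j < T →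
    (∀ i < j, ∀ v ∈ Inn H F c y T i, ¬ (nbr H F v).card + 1 ≤ c ∧ dF F (y v) = 1) →
    ∃ E' Z' w, Done H c F E Z x (2 * j) E' Z' w := by
  classical
  induction j with
  | zero =>
    intro E Z x _ _ hx
    simp [Inn] at hx
  | succ j ih =>
    intro E Z x hS hP hx hT hm
    have hpar := mem_Inn.1 hx
    set D := unc F ∪ (Inn H F c y T j).image y with hD
    obtain ⟨u, hu, huN⟩ : ∃ u ∈ par H F c y D x, u ∉ Z ∪ (Z.image y ∪
        (par H F c y D x).filter (fun u => u ∉ Z ∧
          Bd3 H (E.filter (fun e => u ∉ e)) c u x)) := by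
      by_contra hcon
      push Not at hcon
      have h1 := Finset.card_le_card (show par H F c y D x ⊆ _ from fun u hu => hcon u hu)
      have h2 := Finset.card_union_le Z (Z.image y ∪
        (par H F c y D x).filter (fun u => u ∉ Z ∧
          Bd3 H (E.filter (fun e => u ∉ e)) c u x))
      have h3 := Finset.card_union_le (Z.image y)
        ((par H F c y D x).filter (fun u => u ∉ Z ∧
          Bd3 H (E.filter (fun e => u ∉ e)) c u x))
      have h4 : (Z.image y).card ≤ Z.card := Finset.card_image_le
      have h5 := bad_few hS hP D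
      omega
    rw [Finset.mem_union, Finset.mem_union, not_or, not_or] at huN
    obtain ⟨huZ, huY, huB⟩ := huN
    have hnb : ¬ Bd3 H (E.filter (fun e => u ∉ e)) c u x :=
      fun h => huB (Finset.mem_filter.2 ⟨hu, huZ, h⟩)
    obtain ⟨huD, hux, hnA, -⟩ := mem_par.1 hu
    have hnFux : s(u, x) ∉ F := fun h => hnA (Or.inr h)
    have hEu : ∀ e ∈ E, u ∈ e → e ∈ F := by
      intro e he hue
      by_contra hnF
      exact huZ (hS.new e he hnF u hue)
    by_cases hu0 : dF F u = 0
    · -- the parent is uncovered
      have hnoe : ∀ e ∈ E, u ∉ e := by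
        intro e he hue
        have h1 := hEu e he hue
        unfold dF at hu0
        rw [Finset.card_eq_zero, Finset.filter_eq_empty_iff] at hu0
        exact hu0 h1 hue
      have hfil : E.filter (fun e => u ∉ e) = E := Finset.filter_true_of_mem hnoe
      rw [hfil] at hnb
      have hnE : s(u, x) ∉ E := fun h => hnoe _ h (Sym2.mem_mk_left u x)
      have hG' := add_good3 hS.good hux (fun h => by
        rcases h with h | h
        · exact hnA (Or.inl h)
        · exact hnE h) hnb
      refine ⟨insert s(u, x) E, insert u Z, u, ⟨hG', ?_, ?_⟩, Finset.subset_insert _ _, ?_, hu0,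
        huZ, ?_, ?_, ?_⟩
      · intro e he hne v hv
        exact Finset.mem_insert_of_mem
          (hS.rem e he (fun h => hne (Finset.mem_insert_of_mem h)) v hv)
      · intro e he hne v hv
        rcases Finset.mem_insert.1 he with h | h
        · rw [h] at hv
          rcases Sym2.mem_iff.1 hv with h' | h'
          · exact Finset.mem_insert.2 (Or.inl h')
          · rw [h']
            exact Finset.mem_insert_of_mem hP.mem
        · exact Finset.mem_insert_of_mem (hS.new e h hne v hv)
      · have := Finset.card_insert_le u Z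
        omega
      · intro v
        rw [dF_insert hnE]
        have m1 : v ∈ s(u, x) ↔ v = u ∨ v = x := Sym2.mem_iff
        by_cases v1 : v = u
        · have v2 : v ≠ x := fun h => hux (h.symm.trans v1)
          rw [if_pos (m1.2 (Or.inl v1)), if_neg v2, if_pos v1]
        · by_cases v2 : v = x
          · rw [if_pos (m1.2 (Or.inr v2)), if_pos v2, if_neg v1]
          · rw [if_neg (fun h => (m1.1 h).elim v1 v2), if_neg v2, if_neg v1]
      · intro v hv hvx t ht
        rcases Finset.mem_insert.1 ht with h | h
        · exfalso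
          rcases Sym2.eq_iff.1 h with ⟨h', -⟩ | ⟨h', -⟩
          · exact huZ (h' ▸ hv)
          · exact hvx h'
        · exact h
      · intro e he heF
        rcases Finset.mem_insert.1 he with h | h
        · exact absurd (h ▸ heF) hnFux
        · exact h
    · -- the parent is the mate of an inner vertex
      obtain ⟨x', hx', rfl⟩ : ∃ x' ∈ Inn H F c y T j, y x' = u := by
        rcases Finset.mem_union.1 huD with h | h
        · exact absurd (mem_unc.1 h) hu0
        · exact Finset.mem_image.1 h
      obtain ⟨hnf, hd1⟩ := hm j (Nat.lt_succ_self j) x' hx'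
      have hxu := cx.hy x' hnf
      have hux' : s(y x', x') ∈ F := by
        rw [show s(y x', x') = s(x', y x') from Sym2.eq_swap]; exact hxu
      have hx'Z : x' ∉ Z := fun h => huY (Finset.mem_image_of_mem y h)
      have hE1 : s(y x', x') ∈ E := by
        by_contra hcon
        exact huZ (hS.rem _ hux' hcon _ (Sym2.mem_mk_left _ _))
      have hx'u : y x' ≠ x' := fun h => (cx.good.1 _ hux').1 (Sym2.mk_isDiag_iff.2 h)
      have hx'x : x' ≠ x := fun h => hx'Z (h ▸ hP.mem)
      have huniq : ∀ e ∈ E, y x' ∈ e → e = s(y x', x') := by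
        intro e he hue
        have h3 : (F.filter (fun e => y x' ∈ e)).card ≤ 1 := hd1.le
        exact Finset.card_le_one.1 h3 _ (Finset.mem_filter.2 ⟨hEu e he hue, hue⟩) _
          (Finset.mem_filter.2 ⟨hux', Sym2.mem_mk_left _ _⟩)
      have hfil : E.filter (fun e => y x' ∉ e) = E.erase s(y x', x') := by
        ext e
        rw [Finset.mem_filter, Finset.mem_erase]
        constructor
        · rintro ⟨h1, h2⟩
          exact ⟨fun h => h2 (h ▸ Sym2.mem_mk_left _ _), h1⟩
        · rintro ⟨h1, h2⟩
          exact ⟨h2, fun h => h1 (huniq e h2 h)⟩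
      rw [hfil] at hnb
      have hnE : s(x, y x') ∉ E := by
        intro h
        have h1 := huniq _ h (Sym2.mem_mk_right _ _)
        rcases Sym2.eq_iff.1 h1 with ⟨-, h'⟩ | ⟨h', -⟩
        · exact hx'u h'
        · exact hx'x h'.symm
      have hnE' : s(x, y x') ∉ E.erase s(y x', x') := fun h => hnE (Finset.mem_of_mem_erase h)
      have hnF' : s(x, y x') ∉ F := by
        rw [show s(x, y x') = s(y x', x) from Sym2.eq_swap]; exact hnFux
      have hG1 : Good H c (insert s(x, y x') (E.erase s(y x', x'))) := by
        refine add_good3 (gmono hS.good (Finset.erase_subset _ _)) hux.symm ?_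
          (fun h => hnb h.symm)
        intro h
        rcases h with h | h
        · exact hnA (Or.inl h.symm)
        · exact hnE' h
      set E1 := insert s(x, y x') (E.erase s(y x', x')) with hE1def
      have hE1sub : ∀ e ∈ E1, e = s(x, y x') ∨ (e ≠ s(y x', x') ∧ e ∈ E) := by
        intro e he
        rcases Finset.mem_insert.1 he with h | h
        · exact Or.inl h
        · exact Or.inr (Finset.mem_erase.1 h)
      have hS1 : St H c F E1 (insert x' (insert (y x') Z)) := by
        refine ⟨hG1, ?_, ?_⟩
        · intro e he hne v hv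
          by_cases h1 : e = s(y x', x')
          · rw [h1] at hv
            rcases Sym2.mem_iff.1 hv with h | h
            · rw [h]; exact Finset.mem_insert_of_mem (Finset.mem_insert_self _ _)
            · rw [h]; exact Finset.mem_insert_self _ _
          · have h2 : e ∉ E := fun h => hne (Finset.mem_insert_of_mem
              (Finset.mem_erase.2 ⟨h1, h⟩))
            exact Finset.mem_insert_of_mem (Finset.mem_insert_of_mem (hS.rem e he h2 v hv))
        · intro e he hne v hv
          rcases hE1sub e he with h | ⟨-, h⟩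
          · rw [h] at hv
            rcases Sym2.mem_iff.1 hv with h' | h'
            · rw [h']; exact Finset.mem_insert_of_mem (Finset.mem_insert_of_mem hP.mem)
            · rw [h']; exact Finset.mem_insert_of_mem (Finset.mem_insert_self _ _)
          · exact Finset.mem_insert_of_mem (Finset.mem_insert_of_mem (hS.new e h hne v hv))
      have hfvx : fv H F c y x' = F.erase s(x', y x') := by
        unfold fv
        rw [if_neg hnf]
      have hP1 : Pend H c F y E1 (insert x' (insert (y x') Z)) x' := by
        refine ⟨Finset.mem_insert_self _ _, ?_, ?_⟩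
        · have h1 := nbr_erase cx.good hxu
          have h2 : nbr H E1 x' ⊆ nbr H (F.erase s(x', y x')) x' := by
            intro z hz
            rcases (mem_nbr H E1 x' z).1 hz with h | h
            · exact (mem_nbr _ _ _ _).2 (Or.inl h)
            · rcases hE1sub _ h with h' | ⟨h', h''⟩
              · exfalso
                rcases Sym2.eq_iff.1 h' with ⟨h3, -⟩ | ⟨h3, -⟩
                · exact hx'x h3
                · exact hx'u h3.symm
              · refine (mem_nbr _ _ _ _).2 (Or.inr (Finset.mem_erase.2 ⟨?_, ?_⟩))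
                · rw [show s(x', y x') = s(y x', x') from Sym2.eq_swap]; exact h'
                · by_contra hnF
                  exact hx'Z (hS.new _ h'' hnF x' (Sym2.mem_mk_left _ _))
          have h3 := Finset.card_le_card h2
          omega
        · intro e he heF
          rw [hfvx]
          refine Finset.mem_erase.2 ⟨?_, heF⟩
          rcases hE1sub e he with h | ⟨h, -⟩
          · exact absurd (h ▸ heF) hnF'
          · rw [show s(x', y x') = s(y x', x') from Sym2.eq_swap]; exact h
      have hc1 := Finset.card_insert_le (y x') Z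
      have hc2 := Finset.card_insert_le x' (insert (y x') Z)
      obtain ⟨E', Z', w, hDn⟩ := ih E1 (insert x' (insert (y x') Z)) x' hS1 hP1 hx' (by omega)
        (fun i hi => hm i (by omega))
      have hsw := swap_deg (F := E) (w := x) (x := y x') (y := x') hE1 hnE hux.symm hx'x hx'u
      refine ⟨E', Z', w, hDn.st, ?_, ?_, hDn.w0, ?_, ?_, ?_, ?_⟩
      · exact fun v hv => hDn.sub (Finset.mem_insert_of_mem (Finset.mem_insert_of_mem hv))
      · have := hDn.card
        omega
      · exact fun h => hDn.wZ (Finset.mem_insert_of_mem (Finset.mem_insert_of_mem h))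
      · intro v
        have h1 := hDn.deg v
        have h2 : dF E1 v + (if v = x' then 1 else 0) = dF E v + (if v = x then 1 else 0) := hsw v
        omega
      · intro v hv hvx t ht
        have h1 := hDn.keep v (Finset.mem_insert_of_mem (Finset.mem_insert_of_mem hv))
          (fun h => hx'Z (h ▸ hv)) t ht
        rcases hE1sub _ h1 with h | ⟨-, h⟩
        · exfalso
          rcases Sym2.eq_iff.1 h with ⟨h', -⟩ | ⟨h', -⟩
          · exact hvx h'
          · exact huZ (h' ▸ hv)
        · exact h
      · intro e he heF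
        rcases hE1sub _ (hDn.old e he heF) with h | ⟨-, h⟩
        · exact absurd (h ▸ heF) hnF'
        · exact h

theorem Done.ecard {E' : Finset (Sym2 V)} {Z' : Finset V} {w : V} {b : ℕ}
    (hE : Good H c E) (h : Done H c F E Z x b E' Z' w) : E'.card = E.card + 1 := by
  have h1 := sum_dF (F := E') (fun e he => (h.st.good.1 e he).1)
  have h2 := sum_dF (F := E) (fun e he => (hE.1 e he).1)
  rw [Finset.sum_congr rfl (fun v _ => h.deg v), Finset.sum_add_distrib,
    Finset.sum_add_distrib, h2] at h1
  simp only [Finset.sum_ite_eq', Finset.mem_univ, if_true] at h1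
  omega

end

end Pool.Agent.RE26.Dr
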