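import Pool.Agent.DenseRg.Third

/-!
# MP_df1a54_co: `f(n, k) ≥ (k - 4) n / (3 (k - 1))`
-/

open Finset

set_option linter.unusedSectionVars false

namespace Pool.Agent.RE26.Dr

variable {V : Type} [Fintype V] [DecidableEq V]

/-- number of covered vertices -/
def cov (F : Finset (Sym2 V)) : ℕ := (univ.filter (fun v => 1 ≤ dF F v)).card

theorem third_main (H : SimpleGraph V) (c : ℕ) (hc : 1 ≤ c) (hK : Bic H c) {k : ℕ} (hk : 3 ≤ k)
    (hn : Fintype.card V = k + c) : ∃ F : Finset (Sym2 V), Good H c F ∧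
      (k - 4) * Fintype.card V ≤ 3 * ((k - 1) * F.card) := by
  classical
  set n := Fintype.card V with hndef
  obtain ⟨F, hFm, hmax⟩ := Finset.exists_max_image
    ((univ : Finset (Finset (Sym2 V))).filter (fun F => Good H c F))
    (fun F => F.card * (n + 1) + cov F)
    ⟨∅, Finset.mem_filter.2 ⟨Finset.mem_univ _, good_empty hK⟩⟩
  have hG : Good H c F := (Finset.mem_filter.1 hFm).2
  have hcovn : ∀ F' : Finset (Sym2 V), cov F' ≤ n := fun F' => Finset.card_le_univ _
  have hmaxG : ∀ F', Good H c F' → F'.card * (n + 1) + cov F' ≤ F.card * (n + 1) + cov F :=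
    fun F' h => hmax F' (Finset.mem_filter.2 ⟨Finset.mem_univ _, h⟩)
  have hmax1 : ∀ F', Good H c F' → F'.card = F.card + 1 → False := by
    intro F' h1 h2
    have h3 := hmaxG F' h1
    rw [h2] at h3
    have h4 := hcovn F
    have h5 : (F.card + 1) * (n + 1) = F.card * (n + 1) + (n + 1) := by ring
    omega
  have hmax2 : ∀ F', Good H c F' → F'.card = F.card → cov F' ≤ cov F := by
    intro F' h1 h2
    have h3 := hmaxG F' h1
    rw [h2] at h3
    omega
  -- the chosen edges at the vertices which are not free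
  have hexy : ∀ x, ∃ y, ¬ (nbr H F x).card + 1 ≤ c → s(x, y) ∈ F := by
    intro x
    by_cases hx : (nbr H F x).card + 1 ≤ c
    · exact ⟨x, fun h => absurd hx h⟩
    · have h1 := nbr_le H F x
      have h2 := deg_le H c hc hK x
      have hpos : 0 < (F.filter (fun e => x ∈ e)).card := by
        change 0 < dF F x
        omega
      obtain ⟨e, he⟩ := Finset.card_pos.1 hpos
      obtain ⟨heF, hxe⟩ := Finset.mem_filter.1 he
      obtain ⟨y, rfl⟩ := Sym2.mem_iff_exists.1 hxe
      exact ⟨y, fun _ => heF⟩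
  choose y hy using hexy
  set Fv : V → Finset (Sym2 V) := fun v =>
    if (nbr H F v).card + 1 ≤ c then F else F.erase s(v, y v) with hFvdef
  have hFv1 : ∀ v, (nbr H F v).card + 1 ≤ c → Fv v = F := by
    intro v hv
    simp only [hFvdef]
    rw [if_pos hv]
  have hFv2 : ∀ v, ¬ (nbr H F v).card + 1 ≤ c → Fv v = F.erase s(v, y v) := by
    intro v hv
    simp only [hFvdef]
    rw [if_neg hv]
  have hFvs : ∀ v, Fv v ⊆ F := by
    intro v
    by_cases hv : (nbr H F v).card + 1 ≤ c
    · rw [hFv1 v hv]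
    · rw [hFv2 v hv]
      exact Finset.erase_subset _ _
  have hFvn : ∀ v, (nbr H (Fv v) v).card + 1 ≤ c := by
    intro v
    by_cases hv : (nbr H F v).card + 1 ≤ c
    · rw [hFv1 v hv]
      exact hv
    · rw [hFv2 v hv]
      exact nbr_erase hG (hy v hv)
  set U0 : Finset V := univ.filter (fun w => dF F w = 0) with hU0
  have hU0m : ∀ w, w ∈ U0 ↔ dF F w = 0 := by intro w; rw [hU0]; simp
  have hU0n : ∀ w ∈ U0, (nbr H F w).card + 1 ≤ c := by
    intro w hw
    have h1 := nbr_le H F w
    have h2 := deg_le H c hc hK w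
    have h3 := (hU0m w).1 hw
    omega
  have hcovd : ∀ a b, s(a, b) ∈ F → 1 ≤ dF F a ∧ 1 ≤ dF F b := by
    intro a b h
    unfold dF
    exact ⟨Finset.card_pos.2 ⟨_, Finset.mem_filter.2 ⟨h, Sym2.mem_mk_left a b⟩⟩,
      Finset.card_pos.2 ⟨_, Finset.mem_filter.2 ⟨h, Sym2.mem_mk_right a b⟩⟩⟩
  set B : V → Finset V := fun w =>
    univ.filter (fun v => v ≠ w ∧ ¬ Ad H F w v ∧ Bd3 H (Fv v) c w v) with hB
  set S : V → Finset V := fun w =>
    univ.filter (fun v => v ≠ w ∧ ¬ Ad H F w v ∧ ¬ Bd3 H (Fv v) c w v) with hS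
  have hBm : ∀ w v, v ∈ B w ↔ v ≠ w ∧ ¬ Ad H F w v ∧ Bd3 H (Fv v) c w v := by
    intro w v; simp only [hB]; simp
  have hSm : ∀ w v, v ∈ S w ↔ v ≠ w ∧ ¬ Ad H F w v ∧ ¬ Bd3 H (Fv v) c w v := by
    intro w v; simp only [hS]; simp
  -- the number of bad pairs
  have hBt : ∑ w ∈ U0, (B w).card ≤ U0.card + n := by
    have hex : ∀ w v, ∃ P Q : Finset V, v ∈ B w → Dat3 H (Fv v) c w v P Q := by
      intro w v
      by_cases hv : v ∈ B w
      · obtain ⟨-, -, P, Q, h⟩ := (hBm w v).1 hv
        exact ⟨P, Q, fun _ => h⟩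
      · exact ⟨∅, ∅, fun h => absurd h hv⟩
    choose P Q hPQ using hex
    have h1 : ∀ w ∈ U0, ∑ v ∈ B w, (P w v).card ≤ c := by
      intro w hw
      have h2 := hU0n w hw
      have := sum_P3_le hG h2 (B w) (P w) (Q w)
        (fun v hv => ⟨((hBm w v).1 hv).2.1, (hPQ w v hv).mono (hFvs v)⟩)
      omega
    have h2 : ∀ v, ∑ w ∈ U0.filter (fun w => v ∈ B w), (Q w v).card ≤ c := by
      intro v
      have h3 := hFvn v
      have := sum_P3_le (gmono hG (hFvs v)) h3 (U0.filter (fun w => v ∈ B w))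
        (fun w => Q w v) (fun w => P w v)
        (fun w hw => ⟨fun h => ((hBm w v).1 (Finset.mem_filter.1 hw).2).2.1
          (h.mono (hFvs v)).symm, (hPQ w v (Finset.mem_filter.1 hw).2).symm⟩)
      omega
    have h3 : ∑ w ∈ U0, ∑ v ∈ B w, (Q w v).card
        = ∑ v, ∑ w ∈ U0.filter (fun w => v ∈ B w), (Q w v).card := by
      refine Finset.sum_comm' ?_
      intro w v
      constructor
      · rintro ⟨hw, hv⟩
        exact ⟨Finset.mem_filter.2 ⟨hw, hv⟩, Finset.mem_univ _⟩
      · rintro ⟨h, -⟩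
        exact Finset.mem_filter.1 h
    have h4 : c * ∑ w ∈ U0, (B w).card ≤ c * (U0.card + n) := by
      calc c * ∑ w ∈ U0, (B w).card = ∑ w ∈ U0, ∑ _v ∈ B w, c := by
            rw [Finset.mul_sum]
            refine Finset.sum_congr rfl fun w _ => ?_
            rw [Finset.sum_const, smul_eq_mul, mul_comm]
        _ ≤ ∑ w ∈ U0, ∑ v ∈ B w, ((P w v).card + (Q w v).card) :=
            Finset.sum_le_sum fun w _ => Finset.sum_le_sum fun v hv => (hPQ w v hv).1
        _ = ∑ w ∈ U0, ∑ v ∈ B w, (P w v).card + ∑ w ∈ U0, ∑ v ∈ B w, (Q w v).card := by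
            rw [← Finset.sum_add_distrib]
            refine Finset.sum_congr rfl fun w _ => ?_
            rw [Finset.sum_add_distrib]
        _ ≤ U0.card * c + n * c := by
            rw [h3]
            refine Nat.add_le_add ?_ ?_
            · refine (Finset.sum_le_sum h1).trans ?_
              rw [Finset.sum_const, smul_eq_mul]
            · refine (Finset.sum_le_sum fun v _ => h2 v).trans ?_
              rw [Finset.sum_const, smul_eq_mul, Finset.card_univ]
        _ = c * (U0.card + n) := by ring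
    exact Nat.le_of_mul_le_mul_left h4 (by omega)
  -- degrees
  have hcover : ∀ w ∈ U0, n ≤ c + (B w).card + (S w).card := by
    intro w hw
    have h1 : (univ : Finset V) ⊆ insert w (nbr H F w ∪ (B w ∪ S w)) := by
      intro x _
      rw [Finset.mem_insert, Finset.mem_union, Finset.mem_union, hBm, hSm, mem_nbr]
      by_cases h1 : x = w
      · exact Or.inl h1
      by_cases h2 : Ad H F w x
      · exact Or.inr (Or.inl h2)
      by_cases h3 : Bd3 H (Fv x) c w x
      · exact Or.inr (Or.inr (Or.inl ⟨h1, h2, h3⟩))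
      · exact Or.inr (Or.inr (Or.inr ⟨h1, h2, h3⟩))
    have h2 := Finset.card_le_card h1
    have h3 := Finset.card_insert_le w (nbr H F w ∪ (B w ∪ S w))
    have h4 := Finset.card_union_le (nbr H F w) (B w ∪ S w)
    have h5 := Finset.card_union_le (B w) (S w)
    have h6 := hU0n w hw
    rw [Finset.card_univ] at h2
    omega
  -- good partners are not free
  have hSnf : ∀ w ∈ U0, ∀ v ∈ S w, ¬ (nbr H F v).card + 1 ≤ c := by
    intro w hw v hv hfree
    obtain ⟨h1, h2, h3⟩ := (hSm w v).1 hv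
    rw [hFv1 v hfree] at h3
    exact hmax1 _ (add_good3 hG h1 h2 h3)
      (Finset.card_insert_of_notMem (fun h => h2 (Or.inr h)))
  set S' : V → Finset V := fun x => U0.filter (fun w => x ∈ S w) with hS'
  have hS'm : ∀ x w, w ∈ S' x ↔ w ∈ U0 ∧ x ∈ S w := by
    intro x w; simp only [hS']; rw [Finset.mem_filter]
  have hSS : ∑ w ∈ U0, (S w).card = ∑ x, (S' x).card := by
    have h1 : ∑ w ∈ U0, ∑ _x ∈ S w, 1 = ∑ x, ∑ _w ∈ S' x, 1 := by
      refine Finset.sum_comm' ?_
      intro w x
      rw [hS'm]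
      exact ⟨fun h => ⟨h, Finset.mem_univ _⟩, fun h => h.1⟩
    simpa using h1
  have hS'k : ∀ x, (S' x).card ≤ k - 1 := by
    intro x
    by_cases hne : (S' x).Nonempty
    · obtain ⟨w, hw⟩ := hne
      have hnf := hSnf w ((hS'm x w).1 hw).1 x ((hS'm x w).1 hw).2
      have h1 : Disjoint (S' x) (insert x (nbr H F x)) := by
        rw [Finset.disjoint_left]
        intro u hu hu'
        obtain ⟨k1, k2, -⟩ := (hSm u x).1 ((hS'm x u).1 hu).2
        rcases Finset.mem_insert.1 hu' with h | h
        · exact k1 h.symm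
        · exact k2 ((mem_nbr H F x u).1 h).symm
      have h2 := Finset.card_le_univ (S' x ∪ insert x (nbr H F x))
      rw [Finset.card_union_of_disjoint h1, Finset.card_insert_of_notMem
        (fun h => ((mem_nbr H F x x).1 h).ne hG rfl)] at h2
      omega
    · rw [Finset.not_nonempty_iff_eq_empty] at hne
      rw [hne, Finset.card_empty]
      omega
  set X1 : Finset V := univ.filter (fun x => 3 ≤ (S' x).card) with hX1
  have hX1m : ∀ x, x ∈ X1 ↔ 3 ≤ (S' x).card := by intro x; rw [hX1]; simp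
  have hsumS : ∑ x, (S' x).card ≤ (k - 1) * X1.card + 2 * n := by
    calc ∑ x, (S' x).card ≤ ∑ x, ((if x ∈ X1 then k - 1 else 0) + 2) :=
          Finset.sum_le_sum fun x _ => by
            have h1 := hS'k x
            split_ifs with h
            · omega
            · rw [hX1m] at h
              omega
      _ = (k - 1) * X1.card + 2 * n := by
          rw [Finset.sum_add_distrib, Finset.sum_ite_mem, Finset.univ_inter, Finset.sum_const,
            Finset.sum_const, smul_eq_mul, smul_eq_mul, Finset.card_univ]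
          ring
  -- facts about the elements of X1
  have hXf : ∀ x ∈ X1, ¬ (nbr H F x).card + 1 ≤ c ∧ s(x, y x) ∈ F ∧ x ≠ y x := by
    intro x hx
    obtain ⟨w, hw⟩ := Finset.card_pos.1 (show 0 < (S' x).card by have := (hX1m x).1 hx; omega)
    have hnf := hSnf w ((hS'm x w).1 hw).1 x ((hS'm x w).1 hw).2
    exact ⟨hnf, hy x hnf, fun h => (hG.1 _ (hy x hnf)).1 (Sym2.mk_isDiag_iff.2 h)⟩
  have hdy : ∀ x ∈ X1, dF F (y x) = 1 := by
    intro x hx
    obtain ⟨hnf, hxy, hne⟩ := hXf x hx
    obtain ⟨w, hw⟩ := Finset.card_pos.1 (show 0 < (S' x).card by have := (hX1m x).1 hx; omega)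
    obtain ⟨hwU, hwS⟩ := (hS'm x w).1 hw
    obtain ⟨h1, h2, h3⟩ := (hSm w x).1 hwS
    have hw0 := (hU0m w).1 hwU
    have hyc := (hcovd x (y x) hxy).2
    by_contra hd
    rw [hFv2 x hnf] at h3
    have hG1 : Good H c (F.erase s(x, y x)) := gmono hG (Finset.erase_subset _ _)
    have hG2 := add_good3 hG1 h1 (fun h => h2 (h.mono (Finset.erase_subset _ _))) h3
    have hyw : y x ≠ w := by
      intro h
      rw [h, hw0] at hyc
      omega
    have hnF : s(w, x) ∉ F := fun h => h2 (Or.inr h)
    have hD := swap_deg hxy hnF h1 hyw hne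
    have hc2 : (insert s(w, x) (F.erase s(x, y x))).card = F.card := by
      rw [Finset.card_insert_of_notMem (fun h => hnF (Finset.mem_of_mem_erase h))]
      exact Finset.card_erase_add_one hxy
    have hcv := hmax2 _ hG2 hc2
    have hsub : insert w (univ.filter (fun v => 1 ≤ dF F v)) ⊆
        univ.filter (fun v => 1 ≤ dF (insert s(w, x) (F.erase s(x, y x))) v) := by
      intro v hv
      refine Finset.mem_filter.2 ⟨Finset.mem_univ _, ?_⟩
      have h4 := hD v
      rcases Finset.mem_insert.1 hv with h | h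
      · rw [h] at h4 ⊢
        rw [if_neg (Ne.symm hyw), if_pos rfl] at h4
        omega
      · have h5 := (Finset.mem_filter.1 h).2
        by_cases h6 : v = y x
        · rw [h6] at h4 h5 ⊢
          rw [if_pos rfl, if_neg hyw] at h4
          omega
        · rw [if_neg h6] at h4
          omega
    have h7 := Finset.card_le_card hsub
    rw [Finset.card_insert_of_notMem (fun h => by
      have := (Finset.mem_filter.1 h).2
      omega)] at h7
    unfold cov at hcv
    omega
  have hinj : Set.InjOn y (X1 : Set V) := by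
    intro x1 h1 x2 h2 heq
    rw [Finset.mem_coe] at h1 h2
    have k1 := (hXf x1 h1).2.1
    have k2 := (hXf x2 h2).2.1
    rw [← heq] at k2
    have h3 : (F.filter (fun e => y x1 ∈ e)).card ≤ 1 := (hdy x1 h1).le
    have h4 := Finset.card_le_one.1 h3 _ (Finset.mem_filter.2 ⟨k1, Sym2.mem_mk_right _ _⟩) _
      (Finset.mem_filter.2 ⟨k2, Sym2.mem_mk_right _ _⟩)
    rcases Sym2.eq_iff.1 h4 with ⟨h, -⟩ | ⟨h, h'⟩
    · exact h
    · exact h.trans h'
  have hdisj : ∀ x ∈ X1, y x ∉ X1 := by
    intro x hx hyx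
    obtain ⟨hnf, hxy, hne⟩ := hXf x hx
    obtain ⟨hnfy, hyy, -⟩ := hXf (y x) hyx
    have hyyx : s(y x, y (y x)) = s(x, y x) := by
      have h3 : (F.filter (fun e => y x ∈ e)).card ≤ 1 := (hdy x hx).le
      exact Finset.card_le_one.1 h3 _ (Finset.mem_filter.2 ⟨hyy, Sym2.mem_mk_left _ _⟩) _
        (Finset.mem_filter.2 ⟨hxy, Sym2.mem_mk_right _ _⟩)
    set F0 := F.erase s(x, y x) with hF0
    have hFx : Fv x = F0 := hFv2 x hnf
    have hFy : Fv (y x) = F0 := by rw [hFv2 (y x) hnfy, hyyx]
    have hG0 : Good H c F0 := gmono hG (Finset.erase_subset _ _)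
    obtain ⟨w, hw⟩ := Finset.card_pos.1 (show 0 < (S' x).card by have := (hX1m x).1 hx; omega)
    obtain ⟨hwU, hwS⟩ := (hS'm x w).1 hw
    obtain ⟨h1, h2, h3⟩ := (hSm w x).1 hwS
    rw [hFx] at h3
    have hG1 := add_good3 hG0 h1 (fun h => h2 (h.mono (Finset.erase_subset _ _))) h3
    have hxc := (hcovd x (y x) hxy).1
    have hyc := (hcovd x (y x) hxy).2
    have h3y := (hX1m (y x)).1 hyx
    have h2y : 1 < ((S' (y x)).erase w).card := by
      have := Finset.pred_card_le_card_erase (s := S' (y x)) (a := w)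
      omega
    obtain ⟨w1, hw1, w2, hw2, hw12⟩ := Finset.one_lt_card.1 h2y
    have hfacts : ∀ u ∈ (S' (y x)).erase w, u ≠ w ∧ u ≠ x ∧ y x ≠ u ∧ ¬ Ad H F0 u (y x) ∧
        ¬ Bd3 H F0 c u (y x) ∧ dF F u = 0 := by
      intro u hu
      obtain ⟨k1, k2⟩ := Finset.mem_erase.1 hu
      obtain ⟨k3, k4⟩ := (hS'm (y x) u).1 k2
      obtain ⟨k5, k6, k7⟩ := (hSm u (y x)).1 k4
      rw [hFy] at k7
      have k8 := (hU0m u).1 k3
      exact ⟨k1, fun h => by rw [h] at k8; omega, k5,
        fun h => k6 (h.mono (Finset.erase_subset _ _)), k7, k8⟩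
    have hw0 := (hU0m w).1 hwU
    have hyw : y x ≠ w := by
      intro h
      rw [h, hw0] at hyc
      omega
    have hbad : ∀ u ∈ (S' (y x)).erase w, Bd3 H (insert s(w, x) F0) c u (y x) := by
      intro u hu
      by_contra hcon
      obtain ⟨k1, k2, k3, k4, k5, k6⟩ := hfacts u hu
      have hna : ¬ Ad H (insert s(w, x) F0) u (y x) := by
        intro h
        rcases h with h | h
        · exact k4 (Or.inl h)
        · rcases Finset.mem_insert.1 h with h | h
          · rcases Sym2.eq_iff.1 h with ⟨h', -⟩ | ⟨h', -⟩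
            · exact k1 h'
            · exact k2 h'
          · exact k4 (Or.inr h)
      have hG2 := add_good3 hG1 k3 hna hcon
      have hcE := Finset.card_erase_add_one hxy
      rw [← hF0] at hcE
      have hi1 : (insert s(w, x) F0).card = F0.card + 1 :=
        Finset.card_insert_of_notMem (fun h => h2 (Or.inr (Finset.mem_of_mem_erase h)))
      have hi2 : (insert s(u, y x) (insert s(w, x) F0)).card = (insert s(w, x) F0).card + 1 :=
        Finset.card_insert_of_notMem (fun h => hna (Or.inr h))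
      exact hmax1 _ hG2 (by rw [hi2, hi1, hcE])
    obtain ⟨a1, a2, a3, a4, a5, a6⟩ := hfacts w1 hw1
    obtain ⟨b1, b2, b3, b4, b5, b6⟩ := hfacts w2 hw2
    have hny : ¬ Ad H F0 (y x) x := by
      intro h
      rcases h with h | h
      · have := (hG.1 _ hxy).2
        rw [SimpleGraph.mem_edgeSet] at this
        exact this h.symm
      · rw [hF0, show s(y x, x) = s(x, y x) from Sym2.eq_swap] at h
        exact (Finset.notMem_erase _ _) h
    have hnb : (nbr H F0 (y x)).card + 1 ≤ c := by
      have := hFvn (y x)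
      rwa [hFy] at this
    exact hw12 (joint3 hG1 hnb hyw (Ne.symm hne) hny a1 b1 a2 b2 a4 b4 a5 b5
      (hbad w1 hw1) (hbad w2 hw2))
  -- counting
  have hcnt : U0.card + 2 * X1.card ≤ n := by
    have d1 : Disjoint X1 (X1.image y) := by
      rw [Finset.disjoint_left]
      intro v hv hv'
      obtain ⟨x, hx, rfl⟩ := Finset.mem_image.1 hv'
      exact hdisj x hx hv
    have d2 : Disjoint U0 (X1 ∪ X1.image y) := by
      rw [Finset.disjoint_left]
      intro v hv hv'
      have h0 := (hU0m v).1 hv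
      rcases Finset.mem_union.1 hv' with h | h
      · have := (hcovd _ _ (hXf v h).2.1).1
        omega
      · obtain ⟨x, hx, rfl⟩ := Finset.mem_image.1 h
        have := hdy x hx
        omega
    have h1 := Finset.card_le_univ (U0 ∪ (X1 ∪ X1.image y))
    rw [Finset.card_union_of_disjoint d2, Finset.card_union_of_disjoint d1,
      Finset.card_image_of_injOn hinj] at h1
    omega
  have hF2 : n ≤ 2 * F.card + U0.card := by
    rw [← sum_dF (fun e he => (hG.1 e he).1), hU0, Finset.card_filter, ← Finset.sum_add_distrib,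
      hndef, ← Finset.card_univ, Finset.card_eq_sum_ones]
    refine Finset.sum_le_sum fun v _ => ?_
    split_ifs <;> omega
  have htot : U0.card * k ≤ ∑ w ∈ U0, (B w).card + ∑ w ∈ U0, (S w).card := by
    have h1 : ∑ _w ∈ U0, k ≤ ∑ w ∈ U0, ((B w).card + (S w).card) :=
      Finset.sum_le_sum fun w hw => by
        have := hcover w hw
        omega
    rw [Finset.sum_const, smul_eq_mul, Finset.sum_add_distrib] at h1
    exact h1
  refine ⟨F, hG, ?_⟩
  rw [hSS] at htot
  obtain ⟨K, rfl⟩ : ∃ K, k = K + 1 := ⟨k - 1, by omega⟩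
  rw [Nat.add_sub_cancel] at hsumS ⊢
  have e1 : U0.card * (K + 1) = K * U0.card + U0.card := by ring
  have e2 : K * (U0.card + 2 * X1.card) ≤ K * n := Nat.mul_le_mul_left _ hcnt
  have e3 : K * (U0.card + 2 * X1.card) = K * U0.card + 2 * (K * X1.card) := by ring
  have e4 : K * n ≤ K * (2 * F.card + U0.card) := Nat.mul_le_mul_left _ hF2
  have e5 : K * (2 * F.card + U0.card) = 2 * (K * F.card) + K * U0.card := by ring
  have e6 : (K + 1 - 4) * n ≤ K * n - 3 * n := by
    rw [← Nat.sub_mul]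
    exact Nat.mul_le_mul_right _ (by omega)
  omega

/-- `f(n, k) ≥ (k - 4) n / (3 (k - 1))`. -/
theorem fnk_third (n k : ℕ) (hk : 3 ≤ k) (hkn : k < n) :
    (k - 4) * n ≤ 3 * ((k - 1) * fnk n k) := by
  classical
  set c := n - k with hc
  have hc1 : 1 ≤ c := by omega
  have hn : n = k + c := by omega
  have hcard : Fintype.card (Fin n) = k + c := by rw [Fintype.card_fin]; exact hn
  have hlow : ∀ G : SimpleGraph (Fin n), KConn G k → (k - 4) * n ≤ 3 * ((k - 1) * rem G k) := by
    intro G hG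
    have hB := bic_of_kconn G k hG
    rw [Fintype.card_fin, ← hc] at hB
    obtain ⟨F, hF, hFc⟩ := third_main Gᶜ c hc1 hB hk hcard
    rw [Fintype.card_fin] at hFc
    obtain ⟨h1, h2⟩ := good_conn G k c (by omega) hcard F hF
    have h3 : F.card ≤ rem G k := le_csSup (bddAbove_rem G k) ⟨F, h1, rfl, h2⟩
    exact hFc.trans (Nat.mul_le_mul_left _ (Nat.mul_le_mul_left _ h3))
  have hG : KConn (⊤ : SimpleGraph (Fin n)) k := by
    refine kconn_of_bic _ _ (by rw [Fintype.card_fin]; exact hkn) ?_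
    rw [Fintype.card_fin, ← hc]
    intro X Y hX hY hXY
    obtain ⟨x, hx⟩ := hX
    obtain ⟨y, hy⟩ := hY
    have := hXY x hx y hy
    rw [compl_top] at this
    exact absurd this (by simp)
  have hne : {m | ∃ G : SimpleGraph (Fin n), KConn G k ∧ rem G k = m}.Nonempty :=
    ⟨rem ⊤ k, ⊤, hG, rfl⟩
  obtain ⟨G, hGk, hGr⟩ := Nat.sInf_mem hne
  have := hlow G hGk
  rw [hGr] at this
  exact this

end Pool.Agent.RE26.Dr
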