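import Pool.Agent.DenseRg.Chain
import Pool.Agent.DenseRg.ThirdB

/-!
# MP_df1a54_co: `f(n, k) ≥ (J / (2 J + 1)) (1 - (12 J + 9) / (k - 1)) n`
-/

open Finset

set_option linter.unusedSectionVars false

namespace Pool.Agent.RE26.Dr

variable {V : Type} [Fintype V] [DecidableEq V]

/-- `F` has the largest size, and then covers as many vertices as possible -/
structure Mx (H : SimpleGraph V) (c : ℕ) (F : Finset (Sym2 V)) : Prop where
  m1 : ∀ F', Good H c F' → F'.card = F.card + 1 → False
  m2 : ∀ F', Good H c F' → F'.card = F.card → cov F' ≤ cov F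

section

variable {H : SimpleGraph V} {c : ℕ} {F : Finset (Sym2 V)} {y : V → V}

theorem fin1 (cx : Cx H c F y) (mx : Mx H c F) (T j : ℕ) (E : Finset (Sym2 V)) (Z : Finset V)
    (x : V) (hS : St H c F E Z) (hP : Pend H c F y E Z x) (hx : x ∈ Inn H F c y T j)
    (hT : 3 * Z.card + 6 * j < T)
    (hm : ∀ i < j, ∀ v ∈ Inn H F c y T i, ¬ (nbr H F v).card + 1 ≤ c ∧ dF F (y v) = 1)
    (hc : E.card = F.card) : False := by
  obtain ⟨E', Z', w, hD⟩ := comp cx T j E Z x hS hP hx hT hm
  exact mx.m1 E' hD.st.good (by rw [hD.ecard hS.good, hc])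

theorem fin2 (cx : Cx H c F y) (mx : Mx H c F) (T j : ℕ) (E : Finset (Sym2 V)) (Z : Finset V)
    (x1 x2 : V) (hS : St H c F E Z) (hP1 : Pend H c F y E Z x1) (hP2 : Pend H c F y E Z x2)
    (hne : x2 ≠ x1) (hx1 : x1 ∈ Inn H F c y T j) (hx2 : x2 ∈ Inn H F c y T j)
    (hT : 3 * (Z.card + 2 * j) + 6 * j < T)
    (hm : ∀ i < j, ∀ v ∈ Inn H F c y T i, ¬ (nbr H F v).card + 1 ≤ c ∧ dF F (y v) = 1)
    (hc : E.card + 1 = F.card) : False := by
  obtain ⟨E', Z', w, hD⟩ := comp cx T j E Z x1 hS hP1 hx1 (by omega) hm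
  have hP2' : Pend H c F y E' Z' x2 := by
    refine ⟨hD.sub hP2.mem, ?_, fun e he heF => hP2.old e (hD.old e he heF) heF⟩
    have h1 : nbr H E' x2 ⊆ nbr H E x2 := by
      intro z hz
      rcases (mem_nbr H E' x2 z).1 hz with h | h
      · exact (mem_nbr _ _ _ _).2 (Or.inl h)
      · exact (mem_nbr _ _ _ _).2 (Or.inr (hD.keep x2 hP2.mem hne z h))
    have h2 := Finset.card_le_card h1
    have h3 := hP2.nb
    omega
  exact fin1 cx mx T j E' Z' x2 hD.st hP2' hx2 (by have := hD.card; omega) hm
    (by rw [hD.ecard hS.good, hc])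

theorem st_erase (cx : Cx H c F y) (x : V) :
    St H c F (F.erase s(x, y x)) {x, y x} := by
  refine ⟨gmono cx.good (Finset.erase_subset _ _), ?_, ?_⟩
  · intro e he hne v hv
    have h1 : e = s(x, y x) := by
      by_contra h
      exact hne (Finset.mem_erase.2 ⟨h, he⟩)
    rw [h1] at hv
    rcases Sym2.mem_iff.1 hv with h | h
    · rw [h]; simp
    · rw [h]; simp
  · intro e he hne
    exact absurd (Finset.mem_of_mem_erase he) hne

theorem pend_erase (cx : Cx H c F y) {x : V} (hnf : ¬ (nbr H F x).card + 1 ≤ c) :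
    Pend H c F y (F.erase s(x, y x)) {x, y x} x := by
  refine ⟨by simp, nbr_erase cx.good (cx.hy x hnf), ?_⟩
  intro e he _
  unfold fv
  rw [if_neg hnf]
  exact he

theorem facts (cx : Cx H c F y) (mx : Mx H c F) (T j : ℕ) (hT : 12 * j + 6 < T) :
    ∀ i ≤ j, ∀ v ∈ Inn H F c y T i, ¬ (nbr H F v).card + 1 ≤ c ∧ dF F (y v) = 1 := by
  classical
  induction j with
  | zero =>
    intro i hi v hv
    obtain rfl : i = 0 := by omega
    simp [Inn] at hv
  | succ j ih =>
    have ih' := ih (by omega)
    intro i hi v hv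
    rcases Nat.lt_or_ge i (j + 1) with h | h
    · exact ih' i (by omega) v hv
    obtain rfl : i = j + 1 := by omega
    have hm : ∀ i < j + 1, ∀ v ∈ Inn H F c y T i,
        ¬ (nbr H F v).card + 1 ≤ c ∧ dF F (y v) = 1 := fun i hi => ih' i (by omega)
    have hnf : ¬ (nbr H F v).card + 1 ≤ c := by
      intro hfree
      refine fin1 cx mx T (j + 1) F {v} v ⟨cx.good, fun e he hne => absurd he hne,
        fun e he hne => absurd he hne⟩ ⟨Finset.mem_singleton_self v, hfree, ?_⟩ hv
        (by rw [Finset.card_singleton]; omega) hm rfl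
      intro e he _
      unfold fv
      rw [if_pos hfree]
      exact he
    refine ⟨hnf, ?_⟩
    have hxy := cx.hy v hnf
    have hne : v ≠ y v := fun h => (cx.good.1 _ hxy).1 (Sym2.mk_isDiag_iff.2 h)
    obtain ⟨E', Z', w, hD⟩ := comp cx T (j + 1) (F.erase s(v, y v)) {v, y v} v
      (st_erase cx v) (pend_erase cx hnf) hv (by
        have := Finset.card_le_two (a := v) (b := y v)
        omega) hm
    have hE'c : E'.card = F.card := by
      rw [hD.ecard (gmono cx.good (Finset.erase_subset _ _))]
      exact Finset.card_erase_add_one hxy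
    have hcv := mx.m2 E' hD.st.good hE'c
    have hd1 : 1 ≤ dF F (y v) := by
      unfold dF
      exact Finset.card_pos.2 ⟨_, Finset.mem_filter.2 ⟨hxy, Sym2.mem_mk_right v (y v)⟩⟩
    by_contra hd
    have hwv : w ≠ v := fun h => hD.wZ (by rw [h]; simp)
    have hwy : w ≠ y v := fun h => hD.wZ (by rw [h]; simp)
    have hdeg : ∀ t, dF E' t + (if t = y v then 1 else 0) = dF F t + (if t = w then 1 else 0) := by
      intro t
      have h1 := hD.deg t
      have h2 := dF_erase hxy t
      have m1 : t ∈ s(v, y v) ↔ t = v ∨ t = y v := Sym2.mem_iff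
      by_cases t1 : t = v
      · have t2 : t ≠ y v := fun h => hne (t1.symm.trans h)
        rw [if_pos (m1.2 (Or.inl t1))] at h2
        rw [if_pos t1] at h1
        rw [if_neg t2]
        omega
      · by_cases t2 : t = y v
        · rw [if_pos (m1.2 (Or.inr t2))] at h2
          rw [if_neg t1] at h1
          rw [if_pos t2]
          omega
        · rw [if_neg (fun h => (m1.1 h).elim t1 t2)] at h2
          rw [if_neg t1] at h1
          rw [if_neg t2]
          omega
    have hsub : insert w (univ.filter (fun t => 1 ≤ dF F t)) ⊆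
        univ.filter (fun t => 1 ≤ dF E' t) := by
      intro t ht
      refine Finset.mem_filter.2 ⟨Finset.mem_univ _, ?_⟩
      have h4 := hdeg t
      rcases Finset.mem_insert.1 ht with h | h
      · rw [h] at h4 ⊢
        rw [if_neg hwy, if_pos rfl] at h4
        omega
      · have h5 := (Finset.mem_filter.1 h).2
        by_cases h6 : t = y v
        · rw [h6] at h4 h5 ⊢
          rw [if_pos rfl] at h4
          omega
        · rw [if_neg h6] at h4
          omega
    have h7 := Finset.card_le_card hsub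
    rw [Finset.card_insert_of_notMem (fun h => by
      have h8 := (Finset.mem_filter.1 h).2
      have h9 := hD.w0
      omega)] at h7
    unfold cov at hcv
    omega

/-- the mate of an inner vertex is not inner -/
theorem mate_notin (cx : Cx H c F y) (mx : Mx H c F) (T j : ℕ) (hT : 12 * j + 6 < T) {x : V}
    (hx : x ∈ Inn H F c y T j) : y x ∉ Inn H F c y T j := by
  classical
  intro hyx
  have hf := facts cx mx T j hT
  obtain ⟨hnf, hd⟩ := hf j le_rfl x hx
  obtain ⟨hnfy, -⟩ := hf j le_rfl (y x) hyx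
  have hxy := cx.hy x hnf
  have hyy := cx.hy (y x) hnfy
  have hne : x ≠ y x := fun h => (cx.good.1 _ hxy).1 (Sym2.mk_isDiag_iff.2 h)
  have hyyx : s(y x, y (y x)) = s(x, y x) := by
    have h3 : (F.filter (fun e => y x ∈ e)).card ≤ 1 := hd.le
    exact Finset.card_le_one.1 h3 _ (Finset.mem_filter.2 ⟨hyy, Sym2.mem_mk_left _ _⟩) _
      (Finset.mem_filter.2 ⟨hxy, Sym2.mem_mk_right _ _⟩)
  refine fin2 cx mx T j (F.erase s(x, y x)) {x, y x} x (y x) (st_erase cx x)
    (pend_erase cx hnf) ⟨by simp, ?_, ?_⟩ (Ne.symm hne) hx hyx (by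
      have := Finset.card_le_two (a := x) (b := y x)
      omega) (fun i hi => hf i (by omega)) (Finset.card_erase_add_one hxy)
  · rw [← hyyx]
    exact nbr_erase cx.good hyy
  · intro e he _
    unfold fv
    rw [if_neg hnfy, hyyx]
    exact he

theorem inj_on (cx : Cx H c F y) {A : Finset V}
    (hA : ∀ v ∈ A, ¬ (nbr H F v).card + 1 ≤ c ∧ dF F (y v) = 1) :
    Set.InjOn y (A : Set V) := by
  classical
  intro x1 h1 x2 h2 heq
  rw [Finset.mem_coe] at h1 h2
  have k1 := cx.hy x1 (hA x1 h1).1
  have k2 := cx.hy x2 (hA x2 h2).1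
  rw [← heq] at k2
  have h3 : (F.filter (fun e => y x1 ∈ e)).card ≤ 1 := (hA x1 h1).2.le
  have h4 := Finset.card_le_one.1 h3 _ (Finset.mem_filter.2 ⟨k1, Sym2.mem_mk_right _ _⟩) _
    (Finset.mem_filter.2 ⟨k2, Sym2.mem_mk_right _ _⟩)
  rcases Sym2.eq_iff.1 h4 with ⟨h, -⟩ | ⟨h, h'⟩
  · exact h
  · exact h.trans h'

theorem fv_nbr (cx : Cx H c F y) (v : V) : (nbr H (fv H F c y v) v).card + 1 ≤ c := by
  unfold fv
  split_ifs with h
  · exact h
  · exact nbr_erase cx.good (cx.hy v h)

theorem count_step (cx : Cx H c F y) (mx : Mx H c F) (hc : 1 ≤ c) {k : ℕ} (hk : 1 ≤ k)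
    (hn : Fintype.card V = k + c) (T j : ℕ) (hT : 12 * (j + 1) + 6 < T) :
    (k - 1) * (Inn H F c y T j).card + (k - 1) * (unc F).card
      ≤ (k - 1) * (Inn H F c y T (j + 1)).card + (T + 2) * Fintype.card V := by
  classical
  set n := Fintype.card V with hndef
  have hf := facts cx mx T (j + 1) hT
  set A := Inn H F c y T j with hA
  set D := unc F ∪ A.image y with hD
  have hfA : ∀ v ∈ A, ¬ (nbr H F v).card + 1 ≤ c ∧ dF F (y v) = 1 := hf j (by omega)
  have hdisj : Disjoint (unc F) (A.image y) := by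
    rw [Finset.disjoint_left]
    intro v hv hv'
    obtain ⟨x, hx, rfl⟩ := Finset.mem_image.1 hv'
    have h1 := mem_unc.1 hv
    have h2 := (hfA x hx).2
    omega
  have hDc : D.card = (unc F).card + A.card := by
    rw [hD, Finset.card_union_of_disjoint hdisj, Finset.card_image_of_injOn (inj_on cx hfA)]
  have hDn : D.card ≤ n := Finset.card_le_univ _
  set B : V → Finset V := fun u => univ.filter (fun z => z ≠ u ∧ ¬ Ad H F u z ∧
    Bd3 H ((fv H F c y z).filter (fun e => u ∉ e)) c u z) with hB
  have hBm : ∀ u z, z ∈ B u ↔ z ≠ u ∧ ¬ Ad H F u z ∧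
      Bd3 H ((fv H F c y z).filter (fun e => u ∉ e)) c u z := by
    intro u z; simp only [hB]; simp
  set S : V → Finset V := fun u => univ.filter (fun z => Sf H F c y u z) with hS
  have hSm : ∀ u z, z ∈ S u ↔ Sf H F c y u z := by intro u z; simp only [hS]; simp
  have hBt : ∑ u ∈ D, (B u).card ≤ D.card + n := by
    have hex : ∀ u z, ∃ P Q : Finset V, z ∈ B u →
        Dat3 H ((fv H F c y z).filter (fun e => u ∉ e)) c u z P Q := by
      intro u z
      by_cases hz : z ∈ B u
      · obtain ⟨-, -, P, Q, h⟩ := (hBm u z).1 hz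
        exact ⟨P, Q, fun _ => h⟩
      · exact ⟨∅, ∅, fun h => absurd h hz⟩
    choose P Q hPQ using hex
    have h1 : ∀ u ∈ D, ∑ z ∈ B u, (P u z).card ≤ c := by
      intro u _
      have h2 : nbr H (F.filter (fun e => u ∉ e)) u ⊆ cn H {u} := by
        intro z hz
        rcases (mem_nbr _ _ _ _).1 hz with h | h
        · refine (mem_cn H {u} z).2 ?_
          intro i hi
          rw [Finset.mem_singleton.1 hi]
          exact h
        · exact absurd (Sym2.mem_mk_left u z) (Finset.mem_filter.1 h).2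
      have h3 := Finset.card_le_card h2
      have h4 := cx.deg u
      have := sum_P3_le (gmono cx.good (Finset.filter_subset (fun e => u ∉ e) F))
        (by omega : (nbr H (F.filter (fun e => u ∉ e)) u).card + 1 ≤ c) (B u) (P u) (Q u)
        (fun z hz => ⟨fun h => ((hBm u z).1 hz).2.1 (h.mono (Finset.filter_subset _ _)),
          (hPQ u z hz).mono (Finset.filter_subset_filter _ (fv_sub H F c y z))⟩)
      omega
    have h2 : ∀ z, ∑ u ∈ D.filter (fun u => z ∈ B u), (Q u z).card ≤ c := by
      intro z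
      have h3 := fv_nbr cx z
      have := sum_P3_le (gmono cx.good (fv_sub H F c y z)) h3 (D.filter (fun u => z ∈ B u))
        (fun u => Q u z) (fun u => P u z)
        (fun u hu => ⟨fun h => ((hBm u z).1 (Finset.mem_filter.1 hu).2).2.1
          (h.mono (fv_sub H F c y z)).symm,
          ((hPQ u z (Finset.mem_filter.1 hu).2).mono (Finset.filter_subset _ _)).symm⟩)
      omega
    have h3 : ∑ u ∈ D, ∑ z ∈ B u, (Q u z).card
        = ∑ z, ∑ u ∈ D.filter (fun u => z ∈ B u), (Q u z).card := by
      refine Finset.sum_comm' ?_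
      intro u z
      constructor
      · rintro ⟨hu, hz⟩
        exact ⟨Finset.mem_filter.2 ⟨hu, hz⟩, Finset.mem_univ _⟩
      · rintro ⟨h, -⟩
        exact Finset.mem_filter.1 h
    have h4 : c * ∑ u ∈ D, (B u).card ≤ c * (D.card + n) := by
      calc c * ∑ u ∈ D, (B u).card = ∑ u ∈ D, ∑ _z ∈ B u, c := by
            rw [Finset.mul_sum]
            refine Finset.sum_congr rfl fun u _ => ?_
            rw [Finset.sum_const, smul_eq_mul, mul_comm]
        _ ≤ ∑ u ∈ D, ∑ z ∈ B u, ((P u z).card + (Q u z).card) :=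
            Finset.sum_le_sum fun u _ => Finset.sum_le_sum fun z hz => (hPQ u z hz).1
        _ = ∑ u ∈ D, ∑ z ∈ B u, (P u z).card + ∑ u ∈ D, ∑ z ∈ B u, (Q u z).card := by
            rw [← Finset.sum_add_distrib]
            refine Finset.sum_congr rfl fun u _ => ?_
            rw [Finset.sum_add_distrib]
        _ ≤ D.card * c + n * c := by
            rw [h3]
            refine Nat.add_le_add ?_ ?_
            · refine (Finset.sum_le_sum h1).trans ?_
              rw [Finset.sum_const, smul_eq_mul]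
            · refine (Finset.sum_le_sum fun z _ => h2 z).trans ?_
              rw [Finset.sum_const, smul_eq_mul, Finset.card_univ]
        _ = c * (D.card + n) := by ring
    exact Nat.le_of_mul_le_mul_left h4 (by omega)
  have hcover : ∀ u ∈ D, k ≤ dF F u + ((B u).card + (S u).card) := by
    intro u _
    have h1 : (univ : Finset V) ⊆ insert u (nbr H F u ∪ (B u ∪ S u)) := by
      intro x _
      rw [Finset.mem_insert, Finset.mem_union, Finset.mem_union, hBm, hSm, mem_nbr]
      by_cases h1 : x = u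
      · exact Or.inl h1
      by_cases h2 : Ad H F u x
      · exact Or.inr (Or.inl h2)
      by_cases h3 : Bd3 H ((fv H F c y x).filter (fun e => u ∉ e)) c u x
      · exact Or.inr (Or.inr (Or.inl ⟨h1, h2, h3⟩))
      · exact Or.inr (Or.inr (Or.inr ⟨h1, h2, h3⟩))
    have h2 := Finset.card_le_card h1
    have h3 := Finset.card_insert_le u (nbr H F u ∪ (B u ∪ S u))
    have h4 := Finset.card_union_le (nbr H F u) (B u ∪ S u)
    have h5 := Finset.card_union_le (B u) (S u)
    have h6 := nbr_le H F u
    have h7 := cx.deg u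
    rw [Finset.card_univ] at h2
    omega
  have hdD : ∑ u ∈ D, dF F u ≤ A.card := by
    rw [hD, Finset.sum_union hdisj, Finset.sum_eq_zero (fun u hu => mem_unc.1 hu), zero_add]
    calc ∑ u ∈ A.image y, dF F u ≤ ∑ _u ∈ A.image y, 1 := Finset.sum_le_sum fun u hu => by
          obtain ⟨x, hx, rfl⟩ := Finset.mem_image.1 hu
          exact (hfA x hx).2.le
      _ = (A.image y).card := by simp
      _ ≤ A.card := Finset.card_image_le
  have hSS : ∑ u ∈ D, (S u).card = ∑ z, (par H F c y D z).card := by
    have h1 : ∑ u ∈ D, ∑ _z ∈ S u, 1 = ∑ z, ∑ _u ∈ par H F c y D z, 1 := by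
      refine Finset.sum_comm' ?_
      intro u z
      constructor
      · rintro ⟨hu, hz⟩
        exact ⟨mem_par.2 ⟨hu, (hSm u z).1 hz⟩, Finset.mem_univ _⟩
      · rintro ⟨h, -⟩
        exact ⟨(mem_par.1 h).1, (hSm u z).2 (mem_par.1 h).2⟩
    simpa using h1
  have hpar : ∀ z, (par H F c y D z).card ≤
      (if z ∈ Inn H F c y T (j + 1) then k - 1 else 0) + T := by
    intro z
    split_ifs with hz
    · have hnf := (hf (j + 1) le_rfl z hz).1
      have h1 : Disjoint (par H F c y D z) (insert z (nbr H F z)) := by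
        rw [Finset.disjoint_left]
        intro u hu hu'
        obtain ⟨-, k1, k2, -⟩ := mem_par.1 hu
        rcases Finset.mem_insert.1 hu' with h | h
        · exact k1 h.symm
        · exact k2 ((mem_nbr H F z u).1 h).symm
      have h2 := Finset.card_le_univ (par H F c y D z ∪ insert z (nbr H F z))
      rw [Finset.card_union_of_disjoint h1, Finset.card_insert_of_notMem
        (fun h => ((mem_nbr H F z z).1 h).ne cx.good rfl)] at h2
      omega
    · have h1 : ¬ T ≤ (par H F c y D z).card := fun h => hz (mem_Inn.2 h)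
      omega
  have hpt : ∑ z, (par H F c y D z).card ≤ (k - 1) * (Inn H F c y T (j + 1)).card + T * n := by
    calc ∑ z, (par H F c y D z).card
        ≤ ∑ z, ((if z ∈ Inn H F c y T (j + 1) then k - 1 else 0) + T) :=
          Finset.sum_le_sum fun z _ => hpar z
      _ = (k - 1) * (Inn H F c y T (j + 1)).card + T * n := by
          rw [Finset.sum_add_distrib, Finset.sum_ite_mem, Finset.univ_inter, Finset.sum_const,
            Finset.sum_const, smul_eq_mul, smul_eq_mul, Finset.card_univ]
          ring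
  have htot : D.card * k ≤ ∑ u ∈ D, dF F u + (∑ u ∈ D, (B u).card + ∑ u ∈ D, (S u).card) := by
    have h1 : ∑ _u ∈ D, k ≤ ∑ u ∈ D, (dF F u + ((B u).card + (S u).card)) :=
      Finset.sum_le_sum hcover
    rw [Finset.sum_const, smul_eq_mul, Finset.sum_add_distrib, Finset.sum_add_distrib] at h1
    exact h1
  rw [hDc] at htot hBt hDn
  obtain ⟨K, rfl⟩ : ∃ K, k = K + 1 := ⟨k - 1, by omega⟩
  rw [Nat.add_sub_cancel] at hpt ⊢
  have e1 : ((unc F).card + A.card) * (K + 1)
      = K * (unc F).card + K * A.card + ((unc F).card + A.card) := by ring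
  have e2 : (T + 2) * n = T * n + 2 * n := by ring
  omega

end

theorem chain_main (H : SimpleGraph V) (c : ℕ) (hc : 1 ≤ c) (hK : Bic H c) {k : ℕ} (hk : 1 ≤ k)
    (hn : Fintype.card V = k + c) (J : ℕ) : ∃ F : Finset (Sym2 V), Good H c F ∧
      J * ((k - 1 - (12 * J + 9)) * Fintype.card V) ≤ (2 * J + 1) * ((k - 1) * F.card) := by
  classical
  obtain ⟨F, hFm, hmax⟩ := Finset.exists_max_image
    ((univ : Finset (Finset (Sym2 V))).filter (fun F => Good H c F))
    (fun F => F.card * (Fintype.card V + 1) + cov F)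
    ⟨∅, Finset.mem_filter.2 ⟨Finset.mem_univ _, good_empty hK⟩⟩
  have hG : Good H c F := (Finset.mem_filter.1 hFm).2
  have hcovn : ∀ F' : Finset (Sym2 V), cov F' ≤ Fintype.card V :=
    fun F' => Finset.card_le_univ _
  have hmaxG : ∀ F', Good H c F' → F'.card * (Fintype.card V + 1) + cov F'
      ≤ F.card * (Fintype.card V + 1) + cov F :=
    fun F' h => hmax F' (Finset.mem_filter.2 ⟨Finset.mem_univ _, h⟩)
  have mx : Mx H c F := by
    constructor
    · intro F' h1 h2
      have h3 := hmaxG F' h1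
      rw [h2] at h3
      have h4 := hcovn F
      have h5 : (F.card + 1) * (Fintype.card V + 1)
          = F.card * (Fintype.card V + 1) + (Fintype.card V + 1) := by ring
      omega
    · intro F' h1 h2
      have h3 := hmaxG F' h1
      rw [h2] at h3
      omega
  have hexy : ∀ x, ∃ y, ¬ (nbr H F x).card + 1 ≤ c → s(x, y) ∈ F := by
    intro x
    by_cases hx : (nbr H F x).card + 1 ≤ c
    · exact ⟨x, fun h => absurd hx h⟩
    · have h1 := nbr_le H F x
      have h2 := deg_le H c hc hK x
      have hpos : 0 < (F.filter (fun e => x ∈ e)).card := by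
        change 0 < dF F x
        omega
      obtain ⟨e, he⟩ := Finset.card_pos.1 hpos
      obtain ⟨heF, hxe⟩ := Finset.mem_filter.1 he
      obtain ⟨y, rfl⟩ := Sym2.mem_iff_exists.1 hxe
      exact ⟨y, fun _ => heF⟩
  choose y hy using hexy
  have cx : Cx H c F y := ⟨hG, deg_le H c hc hK, hy⟩
  set T := 12 * J + 7 with hTdef
  have hind : ∀ j ≤ J, j * ((k - 1) * (unc F).card) ≤ (k - 1) * (Inn H F c y T j).card
      + j * ((T + 2) * Fintype.card V) := by
    intro j
    induction j with
    | zero => intro _; simp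
    | succ j ih =>
      intro hj
      have h1 := ih (by omega)
      have h2 := count_step cx mx hc hk hn T j (by omega)
      have e1 : (j + 1) * ((k - 1) * (unc F).card)
          = j * ((k - 1) * (unc F).card) + (k - 1) * (unc F).card := by ring
      have e2 : (j + 1) * ((T + 2) * Fintype.card V)
          = j * ((T + 2) * Fintype.card V) + (T + 2) * Fintype.card V := by ring
      omega
  have hJ := hind J le_rfl
  have hf := facts cx mx T J (by omega)
  set X := Inn H F c y T J with hX
  have hfX : ∀ v ∈ X, ¬ (nbr H F v).card + 1 ≤ c ∧ dF F (y v) = 1 := hf J le_rfl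
  have hcnt : (unc F).card + 2 * X.card ≤ Fintype.card V := by
    have d1 : Disjoint X (X.image y) := by
      rw [Finset.disjoint_left]
      intro v hv hv'
      obtain ⟨x, hx, rfl⟩ := Finset.mem_image.1 hv'
      exact mate_notin cx mx T J (by omega) hx hv
    have d2 : Disjoint (unc F) (X ∪ X.image y) := by
      rw [Finset.disjoint_left]
      intro v hv hv'
      have h0 := mem_unc.1 hv
      rcases Finset.mem_union.1 hv' with h | h
      · have h1 := (hfX v h).1
        have h2 := nbr_le H F v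
        have h3 := deg_le H c hc hK v
        omega
      · obtain ⟨x, hx, rfl⟩ := Finset.mem_image.1 h
        have := (hfX x hx).2
        omega
    have h1 := Finset.card_le_univ (unc F ∪ (X ∪ X.image y))
    have himg : (X.image y).card = X.card := Finset.card_image_of_injOn (inj_on cx hfX)
    rw [Finset.card_union_of_disjoint d2, Finset.card_union_of_disjoint d1, himg] at h1
    omega
  have hF2 : Fintype.card V ≤ 2 * F.card + (unc F).card := by
    rw [← sum_dF (fun e he => (hG.1 e he).1)]
    unfold unc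
    rw [Finset.card_filter, ← Finset.sum_add_distrib, ← Finset.card_univ,
      Finset.card_eq_sum_ones]
    refine Finset.sum_le_sum fun v _ => ?_
    split_ifs <;> omega
  refine ⟨F, hG, ?_⟩
  set n := Fintype.card V with hndef
  set m0 := (unc F).card with hm0
  by_cases hbig : k - 1 ≤ 12 * J + 9
  · have : k - 1 - (12 * J + 9) = 0 := by omega
    rw [this]
    simp
  obtain ⟨r, hr⟩ : ∃ r, k - 1 = r + (12 * J + 9) := ⟨k - 1 - (12 * J + 9), by omega⟩
  have hr' : k - 1 - (12 * J + 9) = r := by omega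
  rw [hr']
  set K := k - 1 with hKdef
  have e1 : K * (m0 + 2 * X.card) ≤ K * n := Nat.mul_le_mul_left _ hcnt
  have e2 : (2 * J + 1) * (K * n) ≤ (2 * J + 1) * (K * (2 * F.card + m0)) :=
    Nat.mul_le_mul_left _ (Nat.mul_le_mul_left _ hF2)
  have e3 : K * n = r * n + (12 * J + 9) * n := by rw [hr]; ring
  have e4 : T + 2 = 12 * J + 9 := by omega
  rw [e4] at hJ
  have e5 : K * (m0 + 2 * X.card) = K * m0 + 2 * (K * X.card) := by ring
  have e6 : (2 * J + 1) * (K * (2 * F.card + m0))
      = 2 * ((2 * J + 1) * (K * F.card)) + 2 * (J * (K * m0)) + K * m0 := by ring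
  have e7 : (2 * J + 1) * (K * n) = 2 * (J * (K * n)) + K * n := by ring
  have e8 : J * (K * n) = J * (r * n) + J * ((12 * J + 9) * n) := by rw [e3]; ring
  omega

theorem fnk_chain (n k : ℕ) (hk : 1 ≤ k) (hkn : k < n) (J : ℕ) :
    J * ((k - 1 - (12 * J + 9)) * n) ≤ (2 * J + 1) * ((k - 1) * fnk n k) := by
  classical
  set c := n - k with hc
  have hc1 : 1 ≤ c := by omega
  have hn : n = k + c := by omega
  have hcard : Fintype.card (Fin n) = k + c := by rw [Fintype.card_fin]; exact hn
  have hlow : ∀ G : SimpleGraph (Fin n), KConn G k →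
      J * ((k - 1 - (12 * J + 9)) * n) ≤ (2 * J + 1) * ((k - 1) * rem G k) := by
    intro G hG
    have hB := bic_of_kconn G k hG
    rw [Fintype.card_fin, ← hc] at hB
    obtain ⟨F, hF, hFc⟩ := chain_main Gᶜ c hc1 hB hk hcard J
    rw [Fintype.card_fin] at hFc
    obtain ⟨h1, h2⟩ := good_conn G k c hk hcard F hF
    have h3 : F.card ≤ rem G k := le_csSup (bddAbove_rem G k) ⟨F, h1, rfl, h2⟩
    exact hFc.trans (Nat.mul_le_mul_left _ (Nat.mul_le_mul_left _ h3))
  have hG : KConn (⊤ : SimpleGraph (Fin n)) k := by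
    refine kconn_of_bic _ _ (by rw [Fintype.card_fin]; exact hkn) ?_
    rw [Fintype.card_fin, ← hc]
    intro X Y hX hY hXY
    obtain ⟨x, hx⟩ := hX
    obtain ⟨y, hy⟩ := hY
    have := hXY x hx y hy
    rw [compl_top] at this
    exact absurd this (by simp)
  have hne : {m | ∃ G : SimpleGraph (Fin n), KConn G k ∧ rem G k = m}.Nonempty :=
    ⟨rem ⊤ k, ⊤, hG, rfl⟩
  obtain ⟨G, hGk, hGr⟩ := Nat.sInf_mem hne
  have := hlow G hGk
  rw [hGr] at this
  exact this

end Pool.Agent.RE26.Dr
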