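import Pool.Agent.DenseRg.Step
import Pool.Agent.Lib_helper26.RE.Main

/-!
# MP_df1a54_co, dense range: the exact value for `4 (n - k) ≤ n + 2`
-/

open Finset

set_option linter.unusedSectionVars false

namespace Pool.Agent.RE26.Dr

variable {V : Type} [Fintype V] [DecidableEq V]

theorem sum_dF_on (F : Finset (Sym2 V)) (S : Finset V) :
    ∑ v ∈ S, dF F v = ∑ e ∈ F, (S.filter (fun v => v ∈ e)).card := by
  unfold dF
  simp only [Finset.card_filter]
  exact Finset.sum_comm

theorem card_filter_mem_le (S : Finset V) (x y : V) :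
    (S.filter (fun v => v ∈ s(x, y))).card ≤ (if x ∈ S then 1 else 0) + (if y ∈ S then 1 else 0) := by
  classical
  have h1 : S.filter (fun v => v ∈ s(x, y)) ⊆
      (S.filter (fun v => v = x)) ∪ (S.filter (fun v => v = y)) := by
    intro v hv
    obtain ⟨hvS, hv⟩ := Finset.mem_filter.1 hv
    rcases Sym2.mem_iff.1 hv with h | h
    · exact Finset.mem_union_left _ (Finset.mem_filter.2 ⟨hvS, h⟩)
    · exact Finset.mem_union_right _ (Finset.mem_filter.2 ⟨hvS, h⟩)
  have h2 := (Finset.card_le_card h1).trans (Finset.card_union_le _ _)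
  have h3 : ∀ z : V, (S.filter (fun v => v = z)).card ≤ (if z ∈ S then 1 else 0) := by
    intro z
    split_ifs with hz
    · rw [Finset.card_le_one]
      intro a ha b hb
      rw [(Finset.mem_filter.1 ha).2, (Finset.mem_filter.1 hb).2]
    · rw [Nat.le_zero, Finset.card_eq_zero, Finset.filter_eq_empty_iff]
      rintro v hv rfl
      exact hz hv
  have h4 := h3 x
  have h5 := h3 y
  omega

theorem sum_dF {F : Finset (Sym2 V)} (hd : ∀ e ∈ F, ¬ e.IsDiag) : ∑ v, dF F v = 2 * F.card := by
  classical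
  rw [sum_dF_on, Finset.sum_congr rfl (g := fun _ => 2), Finset.sum_const, smul_eq_mul, mul_comm]
  intro e he
  induction e using Sym2.ind with
  | _ x y =>
    have hne : x ≠ y := fun h => hd _ he (Sym2.mk_isDiag_iff.2 h)
    have : (univ.filter (fun v => v ∈ s(x, y))) = {x, y} := by
      ext v
      simp [Sym2.mem_iff]
    rw [this, Finset.card_pair hne]

section step

variable {H : SimpleGraph V} {c : ℕ} {b : V → ℕ} {F : Finset (Sym2 V)}

theorem Adm.stepA (hF : Adm H c b F) (hb : ∀ v, 1 ≤ b v)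
    (hbd : ∀ v, (cn H {v}).card + b v ≤ c) {w w' : V} (hww : w ≠ w') (hw : dF F w < b w)
    (hw' : dF F w' < b w') (hcard : F.card + 2 * c ≤ Fintype.card V) :
    ∃ F', Adm H c b F' ∧ F'.card = F.card + 1 := by
  classical
  by_contra hno
  have sat : ∀ u, dF F u < b u → ∀ x ∈ gd H F c u, b x ≤ dF F x := by
    intro u hu x hx
    by_contra hlt
    push Not at hlt
    exact hno (hF.add hbd hu hlt hx)
  have key : ∀ x y, s(x, y) ∈ F → x ∈ gd H F c w → y ∈ gd H F c w' →
      x ∉ gd H F c w' ∧ y ∉ gd H F c w := by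
    intro x y hxy hx hy
    have h : Ad H F w' x ∧ Ad H F w y := by
      by_contra hn
      exact hno (hF.swap2 hww hw hw' (sat w hw x hx) (sat w' hw' y hy) hx hy hxy hn)
    exact ⟨fun h' => ((mem_gd _ _ _ _ _).1 h').2.1 h.1,
      fun h' => ((mem_gd _ _ _ _ _).1 h').2.1 h.2⟩
  have hedge : ∀ e ∈ F, ((gd H F c w).filter (fun v => v ∈ e)).card +
      ((gd H F c w').filter (fun v => v ∈ e)).card ≤ 2 := by
    intro e he
    induction e using Sym2.ind with
    | _ x y =>
      have h1 := card_filter_mem_le (gd H F c w) x y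
      have h2 := card_filter_mem_le (gd H F c w') x y
      have k1 := key x y he
      have k2 := key y x (by rw [show s(y, x) = s(x, y) from Sym2.eq_swap]; exact he)
      by_cases a1 : x ∈ gd H F c w <;> by_cases a2 : y ∈ gd H F c w <;>
        by_cases a3 : x ∈ gd H F c w' <;> by_cases a4 : y ∈ gd H F c w' <;>
        simp only [a1, a2, a3, a4, if_true, if_false, not_true_eq_false, not_false_eq_true,
          and_self, and_true, and_false, forall_const, imp_false] at h1 h2 k1 k2 <;>
        omega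
  have hsum := Finset.sum_le_sum hedge
  rw [Finset.sum_add_distrib, ← sum_dF_on, ← sum_dF_on, Finset.sum_const, smul_eq_mul] at hsum
  have hlow : ∀ u, dF F u < b u → (gd H F c u).card ≤ ∑ v ∈ gd H F c u, dF F v := by
    intro u hu
    calc (gd H F c u).card = ∑ _v ∈ gd H F c u, 1 := by simp
      _ ≤ ∑ v ∈ gd H F c u, dF F v := Finset.sum_le_sum fun v hv => by
          have h1 := sat u hu v hv
          have h2 := hb v
          omega
  have l1 := hlow w hw
  have l2 := hlow w' hw'
  have g1 := card_gd hF.1 w (Adm.nbr_free hbd hw)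
  have g2 := card_gd hF.1 w' (Adm.nbr_free hbd hw')
  omega

theorem Adm.step (hF : Adm H c b F) (hb : ∀ v, 1 ≤ b v)
    (hbd : ∀ v, (cn H {v}).card + b v ≤ c) (hs : 2 * F.card + 2 ≤ ∑ v, b v)
    (hcard : F.card + 2 * c ≤ Fintype.card V) :
    ∃ F', Adm H c b F' ∧ F'.card = F.card + 1 := by
  classical
  by_cases h2 : ∃ w w', w ≠ w' ∧ dF F w < b w ∧ dF F w' < b w'
  · obtain ⟨w, w', h1, h2, h3⟩ := h2
    exact hF.stepA hb hbd h1 h2 h3 hcard
  have huniq : ∀ w w', dF F w < b w → dF F w' < b w' → w = w' := by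
    intro w w' h3 h4
    by_contra hne
    exact h2 ⟨w, w', hne, h3, h4⟩
  obtain ⟨w, hw⟩ : ∃ w, dF F w + 2 ≤ b w := by
    by_contra hcon
    push Not at hcon
    have h3 : ∑ v, b v ≤ ∑ v, (dF F v + if dF F v < b v then 1 else 0) :=
      Finset.sum_le_sum fun v _ => by
        have := hcon v
        split_ifs <;> omega
    rw [Finset.sum_add_distrib, sum_dF (fun e he => (hF.1.1 e he).1), ← Finset.card_filter] at h3
    have h4 : (univ.filter (fun v => dF F v < b v)).card ≤ 1 := by
      rw [Finset.card_le_one]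
      intro a ha b' hb'
      exact huniq a b' (Finset.mem_filter.1 ha).2 (Finset.mem_filter.1 hb').2
    omega
  have hwf : dF F w < b w := by omega
  have hg := card_gd hF.1 w (Adm.nbr_free hbd hwf)
  obtain ⟨x, hx⟩ : (gd H F c w).Nonempty := Finset.card_pos.1 (by omega)
  by_cases hxf : dF F x < b x
  · exact hF.add hbd hwf hxf hx
  obtain ⟨g1, g2, g3⟩ := (mem_gd H F c w x).1 hx
  have hpos : 0 < (F.filter (fun e => x ∈ e)).card := by
    have h1 := hb x
    change 0 < dF F x
    omega
  obtain ⟨e, he⟩ := Finset.card_pos.1 hpos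
  obtain ⟨heF, hxe⟩ := Finset.mem_filter.1 he
  obtain ⟨y, rfl⟩ := Sym2.mem_iff_exists.1 hxe
  have hyw : y ≠ w := by
    rintro rfl
    exact g2 (Or.inr (by rw [show s(y, x) = s(x, y) from Sym2.eq_swap]; exact heF))
  have hxy : x ≠ y := fun h => (hF.1.1 _ heF).1 (Sym2.mk_isDiag_iff.2 h)
  have hnF : s(w, x) ∉ F.erase s(x, y) := fun h => g2 (Or.inr (Finset.mem_of_mem_erase h))
  have hcard2 : (insert s(w, x) (F.erase s(x, y))).card = F.card := by
    rw [Finset.card_insert_of_notMem hnF]
    exact Finset.card_erase_add_one heF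
  have hdeg : ∀ v, dF (insert s(w, x) (F.erase s(x, y))) v + (if v = y then 1 else 0)
      = dF F v + (if v = w then 1 else 0) := by
    intro v
    rw [dF_insert hnF]
    have e1 := dF_erase heF v
    have m1 : v ∈ s(w, x) ↔ v = w ∨ v = x := Sym2.mem_iff
    have m3 : v ∈ s(x, y) ↔ v = x ∨ v = y := Sym2.mem_iff
    simp only [m1, m3] at e1 ⊢
    by_cases v1 : v = w
    · have v3 : v ≠ x := fun h => g1 (h.symm.trans v1)
      have v4 : v ≠ y := fun h => hyw (h.symm.trans v1)
      simp only [v1, true_or, if_true] at e1 ⊢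
      rw [v1] at v3 v4
      simp only [v3, v4, or_self, if_false] at e1 ⊢
      omega
    by_cases v3 : v = x
    · have v4 : v ≠ y := fun h => hxy (v3.symm.trans h)
      simp only [v3, or_true, true_or, if_true] at e1 ⊢
      rw [v3] at v1 v4
      simp only [v1, v4, if_false]
      omega
    by_cases v4 : v = y
    · simp only [v4, or_true, if_true] at e1 ⊢
      rw [v4] at v1 v3
      simp only [v1, v3, or_self, if_false]
      omega
    · simp only [v1, v3, v4, or_self, if_false] at e1 ⊢
      omega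
  have hF2 : Adm H c b (insert s(w, x) (F.erase s(x, y))) := by
    refine ⟨add_good hF.1 (Finset.erase_subset _ _) g1 g2 g3 (nbr_erase hF.1 heF), ?_⟩
    intro v
    have h1 := hdeg v
    have h2 := hF.2 v
    by_cases v1 : v = w
    · subst v1
      split_ifs at h1 <;> omega
    · rw [if_neg v1] at h1
      omega
  have hw2 := hdeg w
  rw [if_neg (Ne.symm hyw), if_pos rfl] at hw2
  have hy2 := hdeg y
  rw [if_pos rfl, if_neg hyw] at hy2
  have hyb := hF.2 y
  obtain ⟨F', hF', hc'⟩ := hF2.stepA hb hbd (Ne.symm hyw) (by omega) (by omega)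
    (by rw [hcard2]; exact hcard)
  exact ⟨F', hF', by rw [hc', hcard2]⟩

theorem lower_gen (hK : Bic H c) (hb : ∀ v, 1 ≤ b v) (hbd : ∀ v, (cn H {v}).card + b v ≤ c)
    (m : ℕ) (hm : 2 * m ≤ ∑ v, b v) (hmc : m + 2 * c ≤ Fintype.card V + 1) :
    ∃ F, Adm H c b F ∧ F.card = m := by
  induction m with
  | zero =>
    refine ⟨∅, ⟨⟨fun e he => absurd he (Finset.notMem_empty e), ?_⟩, ?_⟩, Finset.card_empty⟩
    · intro A B hA hB _ hAB
      have := hK A B hA hB (by
        intro a ha b' hb'
        rcases hAB a ha b' hb' with h | h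
        · exact h
        · exact absurd h (Finset.notMem_empty _))
      omega
    · intro v
      simp [dF]
  | succ m ih =>
    obtain ⟨F, hF, hFc⟩ := ih (by omega) (by omega)
    obtain ⟨F', hF', hc'⟩ := hF.step hb hbd (by omega) (by omega)
    exact ⟨F', hF', by omega⟩

end step

theorem lower_dense (H : SimpleGraph V) (c : ℕ) (hc : 1 ≤ c) (hK : Bic H c)
    (h4 : 4 * c ≤ Fintype.card V + 2) : ∃ F : Finset (Sym2 V), Good H c F ∧
      (Fintype.card V + (if Odd (Fintype.card V) ∧ Even c then 1 else 0)) / 2 ≤ F.card := by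
  classical
  by_cases hoe : Odd (Fintype.card V) ∧ Even c
  · obtain ⟨v0, hv0⟩ := exists_small hc hK hoe.2 hoe.1
    rw [if_pos hoe]
    obtain ⟨q, hq⟩ := hoe.1
    obtain ⟨F, hF, hFc⟩ := lower_gen (b := fun v => if v = v0 then 2 else 1) hK
      (fun v => by split_ifs <;> omega)
      (fun v => by
        split_ifs with h
        · rw [h]; exact hv0
        · exact deg_le H c hc hK v)
      ((Fintype.card V + 1) / 2) (by
        have h1 : ∑ v : V, (if v = v0 then 2 else 1) = Fintype.card V + 1 := by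
          have h2 : ∀ v : V, (if v = v0 then 2 else 1) = 1 + (if v = v0 then 1 else 0) := by
            intro v
            split_ifs <;> rfl
          rw [Finset.sum_congr rfl (fun v _ => h2 v), Finset.sum_add_distrib]
          simp
        rw [h1]
        omega) (by omega)
    exact ⟨F, hF.1, hFc.ge⟩
  · rw [if_neg hoe]
    obtain ⟨F, hF, hFc⟩ := lower_gen (b := fun _ => 1) hK (fun _ => le_rfl)
      (fun v => deg_le H c hc hK v) (Fintype.card V / 2) (by
        rw [Finset.sum_const, Finset.card_univ, smul_eq_mul]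
        omega) (by omega)
    exact ⟨F, hF.1, hFc.ge⟩

/-- The exact value of `f(n, k)` when `4 (n - k) ≤ n + 2`. -/
theorem fnk_eq4 (n k : ℕ) (hkn : k < n) (h4 : 4 * (n - k) ≤ n + 2) :
    fnk n k = (k * n + 1) / 2 - ((k - 1) * n + 1) / 2 := by
  classical
  set c := n - k with hc
  have hc1 : 1 ≤ c := by omega
  have hk1 : 1 ≤ k := by omega
  have hn : n = k + c := by omega
  have hcard : Fintype.card (Fin n) = k + c := by rw [Fintype.card_fin]; exact hn
  rw [val_eq n k c hk1 hn]
  set v := (n + (if Odd n ∧ Even c then 1 else 0)) / 2 with hv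
  have hlow : ∀ G : SimpleGraph (Fin n), KConn G k → v ≤ rem G k := by
    intro G hG
    have hB := bic_of_kconn G k hG
    rw [Fintype.card_fin, ← hc] at hB
    obtain ⟨F, hF, hFc⟩ := lower_dense Gᶜ c hc1 hB (by rw [Fintype.card_fin]; exact h4)
    rw [Fintype.card_fin, ← hv] at hFc
    obtain ⟨h1, h2⟩ := good_conn G k c hk1 hcard F hF
    exact hFc.trans (le_csSup (bddAbove_rem G k) ⟨F, h1, rfl, h2⟩)
  obtain ⟨H, hH, hsum⟩ := exists_regular n c hc1 (by omega)
  have hG : KConn Hᶜ k := by
    refine kconn_of_bic _ _ (by rw [Fintype.card_fin]; exact hkn) ?_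
    rw [Fintype.card_fin, ← hc, compl_compl]
    exact hH
  have hup : rem Hᶜ k ≤ v := by
    refine csSup_le' ?_
    rintro m ⟨F, hF, rfl, hconn⟩
    have := upper_bound H k c (if Odd n ∧ Even c then 1 else 0) hk1 hcard hc1
      (by rw [Fintype.card_fin]; exact hsum) F hF hconn
    rw [Fintype.card_fin] at this
    omega
  refine le_antisymm ?_ ?_
  · have hmem : rem Hᶜ k ∈ {m | ∃ G : SimpleGraph (Fin n), KConn G k ∧ rem G k = m} :=
      ⟨Hᶜ, hG, rfl⟩
    exact (Nat.sInf_le hmem).trans hup
  · have hne : {m | ∃ G : SimpleGraph (Fin n), KConn G k ∧ rem G k = m}.Nonempty :=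
      ⟨rem Hᶜ k, Hᶜ, hG, rfl⟩
    refine le_csInf hne ?_
    rintro m ⟨G, hGk, rfl⟩
    exact hlow G hGk

end Pool.Agent.RE26.Dr
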