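import Pool.Agent.DenseRg.WFin

/-!
# MP_df1a54_co: `f(n, k) ≥ k - 13` for `n ≥ 2 k - 12`
-/

open Finset

set_option linter.unusedSectionVars false

namespace Pool.Agent.RE26.Dr

variable {V : Type} [Fintype V] [DecidableEq V]

section

variable {H : SimpleGraph V} {c : ℕ} {b : V → ℕ} {F : Finset (Sym2 V)}

theorem wide_facts (hF : Adm H c b F) (hb : ∀ v, b v ≤ 1)
    (hdeg : ∀ v, b v = 1 → (cn H {v}).card + 1 ≤ c)
    (hno : ¬ ∃ F', Adm H c b F' ∧ F'.card = F.card + 1) {w w' : V} (hww : w ≠ w')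
    (hw : dF F w < b w) (hw' : dF F w' < b w')
    (hmin : ∀ F' u u', Adm H c b F' → F'.card = F.card → u ≠ u' → dF F' u < b u →
      dF F' u' < b u' → (bs H F c b w).card + (bs H F c b w').card
        ≤ (bs H F' c b u).card + (bs H F' c b u').card) :
    (gs H F c b w).card + (gs H F c b w').card ≤ F.card * 2 ∧
      c * ((gs H F c b w).card * ((bs H F c b w).card - 3))
        ≤ 2 * ((c - 1) * (univ.filter (fun v => b v = 1)).card) := by
  classical
  have free : ∀ u, dF F u < b u → dF F u = 0 ∧ b u = 1 := by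
    intro u hu
    have := hb u
    omega
  have nF : ∀ u, dF F u < b u → ∀ z, s(u, z) ∉ F := fun u hu => noedge (free u hu).1
  have nAd : ∀ u, dF F u < b u → ∀ z, ¬ H.Adj u z → ¬ Ad H F u z := by
    intro u hu z hz h
    rcases h with h | h
    · exact hz h
    · exact nF u hu z h
  have sat : ∀ u, dF F u < b u → ∀ x ∈ gs H F c b u, dF F x = 1 := by
    intro u hu x hx
    obtain ⟨x1, x2, x3, x4⟩ := mem_gs.1 hx
    by_contra hlt
    have h1 := hF.2 x
    have h2 : dF F x = 0 := by omega
    have hnF := nF u hu x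
    refine hno ⟨insert s(u, x) F, ⟨add_good2 hF.1 (Finset.Subset.refl _) x2 x3 x4 (nF u hu)
      (noedge h2), ?_⟩, Finset.card_insert_of_notMem hnF⟩
    intro v
    rw [dF_insert hnF]
    have hv := hF.2 v
    split_ifs with h
    · rcases Sym2.mem_iff.1 h with rfl | rfl <;> omega
    · omega
  have safe2 : ∀ u, dF F u < b u → ∀ x ∈ gs H F c b u, ∀ y, s(x, y) ∈ F →
      Good H c (insert s(u, x) (F.erase s(x, y))) := by
    intro u hu x hx y hxy
    obtain ⟨x1, x2, x3, x4⟩ := mem_gs.1 hx
    refine add_good2 hF.1 (Finset.erase_subset _ _) x2 x3 x4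
      (fun z h => nF u hu z (Finset.mem_of_mem_erase h)) (noedge ?_)
    have h1 := dF_erase hxy x
    rw [if_pos (Sym2.mem_mk_left x y)] at h1
    have := sat u hu x hx
    omega
  have swapE : ∀ x y : V, s(x, y) ∈ F → s(y, x) ∈ F := by
    intro x y h
    rwa [show s(y, x) = s(x, y) from Sym2.eq_swap]
  have key : ∀ x y, s(x, y) ∈ F → x ∈ gs H F c b w → y ∈ gs H F c b w' →
      x ∉ gs H F c b w' ∧ y ∉ gs H F c b w := by
    intro x y hxy hx hy
    obtain ⟨x1, x2, x3, x4⟩ := mem_gs.1 hx
    obtain ⟨y1, y2, y3, y4⟩ := mem_gs.1 hy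
    have hg' : Good H c (insert s(w', y) (F.erase s(x, y))) := by
      have := safe2 w' hw' y hy x (swapE x y hxy)
      rwa [show s(y, x) = s(x, y) from Sym2.eq_swap] at this
    have h : Ad H F w' x ∧ Ad H F w y := by
      by_contra hn
      exact hno (hF.swap3 hww hw hw' (by rw [sat w hw x hx, x1]) (by rw [sat w' hw' y hy, y1])
        x2 (nAd w hw x x3) (nAd w' hw' y y3) hxy (safe2 w hw x hx y hxy) hg' hn)
    refine ⟨fun h' => ?_, fun h' => ?_⟩
    · exact nAd w' hw' x (mem_gs.1 h').2.2.1 h.1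
    · exact nAd w hw y (mem_gs.1 h').2.2.1 h.2
  have hedge : ∀ e ∈ F, ((gs H F c b w).filter (fun v => v ∈ e)).card +
      ((gs H F c b w').filter (fun v => v ∈ e)).card ≤ 2 := by
    intro e he
    induction e using Sym2.ind with
    | _ x y =>
      have h1 := card_filter_mem_le (gs H F c b w) x y
      have h2 := card_filter_mem_le (gs H F c b w') x y
      have k1 := key x y he
      have k2 := key y x (swapE x y he)
      by_cases a1 : x ∈ gs H F c b w <;> by_cases a2 : y ∈ gs H F c b w <;>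
        by_cases a3 : x ∈ gs H F c b w' <;> by_cases a4 : y ∈ gs H F c b w' <;>
        simp only [a1, a2, a3, a4, if_true, if_false, not_true_eq_false, not_false_eq_true,
          and_self, and_true, and_false, forall_const, imp_false] at h1 h2 k1 k2 <;>
        omega
  have hsum := Finset.sum_le_sum hedge
  rw [Finset.sum_add_distrib, ← sum_dF_on, ← sum_dF_on, Finset.sum_const, smul_eq_mul] at hsum
  have hlow : ∀ u, dF F u < b u → ∑ v ∈ gs H F c b u, dF F v = (gs H F c b u).card := by
    intro u hu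
    rw [Finset.sum_congr rfl (fun v hv => sat u hu v hv)]
    simp
  rw [hlow w hw, hlow w' hw'] at hsum
  -- partners
  have hex : ∀ x, ∃ y, dF F x = 1 → s(x, y) ∈ F := by
    intro x
    by_cases hx : dF F x = 1
    · have hpos : 0 < (F.filter (fun e => x ∈ e)).card := by
        change 0 < dF F x
        omega
      obtain ⟨e, he⟩ := Finset.card_pos.1 hpos
      obtain ⟨heF, hxe⟩ := Finset.mem_filter.1 he
      obtain ⟨y, rfl⟩ := Sym2.mem_iff_exists.1 hxe
      exact ⟨y, fun _ => heF⟩
    · exact ⟨x, fun h => absurd h hx⟩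
  choose m hm using hex
  have hbm : ∀ x y, s(x, y) ∈ F → b y = 1 := by
    intro x y h
    have h1 : 0 < dF F y := by
      unfold dF
      exact Finset.card_pos.2 ⟨s(x, y), Finset.mem_filter.2 ⟨h, Sym2.mem_mk_right x y⟩⟩
    have h2 := hF.2 y
    have h3 := hb y
    omega
  have hmove : ∀ x ∈ gs H F c b w, (bs H F c b w).card ≤ (bs H F c b (m x)).card + 3 := by
    intro x hx
    obtain ⟨x1, x2, x3, x4⟩ := mem_gs.1 hx
    have hxy := hm x (sat w hw x hx)
    have hG2 := safe2 w hw x hx (m x) hxy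
    have hyw : m x ≠ w := fun h => nF w hw x (by rw [← h]; exact swapE _ _ hxy)
    have hyw' : m x ≠ w' := fun h => nF w' hw' x (by rw [← h]; exact swapE _ _ hxy)
    have hne : x ≠ m x := fun h => (hF.1.1 _ hxy).1 (Sym2.mk_isDiag_iff.2 h)
    have hD := swap_deg hxy (nF w hw x) x2 hyw hne
    have hA2 : Adm H c b (insert s(w, x) (F.erase s(x, m x))) := by
      refine ⟨hG2, ?_⟩
      intro v
      have h1 := hD v
      have h2 := hF.2 v
      by_cases v1 : v = w
      · rw [v1] at h1 ⊢
        rw [if_pos rfl] at h1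
        split_ifs at h1 <;> omega
      · rw [if_neg v1] at h1
        omega
    have hc2 : (insert s(w, x) (F.erase s(x, m x))).card = F.card := by
      rw [Finset.card_insert_of_notMem (fun h => nF w hw x (Finset.mem_of_mem_erase h))]
      exact Finset.card_erase_add_one hxy
    have hy2 := hD (m x)
    rw [if_pos rfl, if_neg hyw] at hy2
    have hw2 := hD w'
    rw [if_neg (Ne.symm hyw'), if_neg (Ne.symm hww)] at hw2
    have hby := hbm x (m x) hxy
    have hyF := hF.2 (m x)
    have h1 := hmin _ (m x) w' hA2 hc2 hyw' (by omega) (by omega)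
    have hsub2 : insert s(w, x) (F.erase s(x, m x)) ⊆ insert s(w, x) F :=
      Finset.insert_subset_insert _ (Finset.erase_subset _ _)
    have h2 := bs_swap (b := b) (F := F) hG2 hsub2 (hdeg (m x) hby) 1 0 (fun _ => le_rfl)
      (fun h => absurd (by
        rw [SimpleGraph.mem_edgeSet]
        exact h.symm) (hF.1.1 _ hxy).2)
    have h3 := bs_swap (b := b) (F := F) hG2 hsub2 (hdeg w' (free w' hw').2) 1 1
      (fun _ => le_rfl) (fun _ => le_rfl)
    omega
  have hinj : Set.InjOn m (gs H F c b w : Set V) := by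
    intro x1 h1 x2 h2 heq
    rw [Finset.mem_coe] at h1 h2
    have k1 := hm x1 (sat w hw x1 h1)
    have k2 := hm x2 (sat w hw x2 h2)
    rw [← heq] at k2
    have h3 : (F.filter (fun e => m x1 ∈ e)).card ≤ 1 := (hF.2 (m x1)).trans (hb _)
    have h4 := Finset.card_le_one.1 h3 _ (Finset.mem_filter.2 ⟨k1, Sym2.mem_mk_right _ _⟩) _
      (Finset.mem_filter.2 ⟨k2, Sym2.mem_mk_right _ _⟩)
    rcases Sym2.eq_iff.1 h4 with ⟨h, -⟩ | ⟨h, h'⟩
    · exact h
    · exact h.trans h'
  have hcount : c * ((gs H F c b w).card * ((bs H F c b w).card - 3))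
      ≤ 2 * ((c - 1) * (univ.filter (fun v => b v = 1)).card) := by
    refine le_trans (Nat.mul_le_mul_left c ?_) (sum_bs hF.1 hdeg)
    calc (gs H F c b w).card * ((bs H F c b w).card - 3)
        = ∑ _x ∈ gs H F c b w, ((bs H F c b w).card - 3) := by
          rw [Finset.sum_const, smul_eq_mul]
      _ ≤ ∑ x ∈ gs H F c b w, (bs H F c b (m x)).card := Finset.sum_le_sum fun x hx => by
          have := hmove x hx
          omega
      _ = ∑ u ∈ (gs H F c b w).image m, (bs H F c b u).card := by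
          rw [Finset.sum_image hinj]
      _ ≤ _ := by
          refine Finset.sum_le_sum_of_subset ?_
          intro u hu
          obtain ⟨x, hx, rfl⟩ := Finset.mem_image.1 hu
          exact Finset.mem_filter.2 ⟨Finset.mem_univ _, hbm x _ (hm x (sat w hw x hx))⟩
  exact ⟨hsum, hcount⟩

theorem low_arith {n k c f m s β β' σ σ' : ℕ} (hn : n = k + c) (h1 : f + 14 ≤ k)
    (h2 : 2 * k ≤ n + 12) (hm : m + 2 * f = n) (hav : (m - 1) * s ≤ 4 * n) (hs : s = β + β')
    (hβ : β' ≤ β) (hsum : σ + σ' ≤ f * 2) (g1 : k ≤ σ + β) (g2 : k ≤ σ' + β')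
    (hc : σ * (β - 3) ≤ 2 * n) : False := by
  have hs28 : 28 ≤ s := by omega
  have hβ14 : 14 ≤ β := by omega
  obtain ⟨j, hj⟩ : ∃ j, n + 12 = 2 * k + j := ⟨n + 12 - 2 * k, by omega⟩
  have hm1 : j + 15 ≤ m - 1 := by omega
  have e1 : (j + 15) * s ≤ (m - 1) * s := Nat.mul_le_mul_right _ hm1
  have e2 : (j + 15) * s = j * s + 15 * s := by ring
  have e3 : j * 28 ≤ j * s := Nat.mul_le_mul_left _ hs28
  have e4 : σ * 11 ≤ σ * (β - 3) := Nat.mul_le_mul_left _ (by omega)
  omega

theorem low_step (hF : Adm H c (fun _ => 1) F) (hdeg : ∀ v, (cn H {v}).card + 1 ≤ c)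
    (hc : 1 ≤ c) {k : ℕ} (hn : Fintype.card V = k + c) (h1 : F.card + 14 ≤ k)
    (h2 : 2 * k ≤ Fintype.card V + 12) :
    ∃ F', Adm H c (fun _ => 1) F' ∧ F'.card = F.card + 1 := by
  classical
  by_contra hno
  have hcard : ∀ F' : Finset (Sym2 V), Adm H c (fun _ => 1) F' →
      (univ.filter (fun v => dF F' v < 1)).card + 2 * F'.card = Fintype.card V := by
    intro F' hF'
    rw [← sum_dF (fun e he => (hF'.1.1 e he).1), Finset.card_filter, ← Finset.sum_add_distrib,
      ← Finset.card_univ, Finset.card_eq_sum_ones]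
    refine Finset.sum_congr rfl fun v _ => ?_
    have : dF F' v ≤ 1 := hF'.2 v
    split_ifs <;> omega
  set T : Finset (Finset (Sym2 V) × V × V) := univ.filter (fun q => Adm H c (fun _ => 1) q.1 ∧
    q.1.card = F.card ∧ q.2.1 ≠ q.2.2 ∧ dF q.1 q.2.1 < 1 ∧ dF q.1 q.2.2 < 1) with hT
  have hTn : T.Nonempty := by
    have h3 := hcard F hF
    obtain ⟨u, hu, u', hu', hne⟩ := Finset.one_lt_card.1
      (show 1 < (univ.filter (fun v => dF F v < 1)).card by omega)
    exact ⟨(F, u, u'), Finset.mem_filter.2 ⟨Finset.mem_univ _, hF, rfl, hne,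
      (Finset.mem_filter.1 hu).2, (Finset.mem_filter.1 hu').2⟩⟩
  obtain ⟨q, hq, hmin⟩ := Finset.exists_min_image T
    (fun q => (bs H q.1 c (fun _ => 1) q.2.1).card + (bs H q.1 c (fun _ => 1) q.2.2).card) hTn
  obtain ⟨-, q1, q2, q3, q4, q5⟩ := Finset.mem_filter.1 hq
  have hmin' : ∀ F' u u', Adm H c (fun _ => 1) F' → F'.card = q.1.card → u ≠ u' →
      dF F' u < 1 → dF F' u' < 1 → (bs H q.1 c (fun _ => 1) q.2.1).card
        + (bs H q.1 c (fun _ => 1) q.2.2).card
        ≤ (bs H F' c (fun _ => 1) u).card + (bs H F' c (fun _ => 1) u').card := by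
    intro F' u u' h1 h2 h3 h4 h5
    exact hmin (F', u, u') (Finset.mem_filter.2 ⟨Finset.mem_univ _, h1, h2.trans q2, h3, h4, h5⟩)
  have hno' : ¬ ∃ F', Adm H c (fun _ => 1) F' ∧ F'.card = q.1.card + 1 := by
    rw [q2]
    exact hno
  have hWc : (univ.filter (fun _ : V => (1 : ℕ) = 1)).card = Fintype.card V := by
    rw [Finset.filter_true_of_mem (fun _ _ => rfl), Finset.card_univ]
  set g : V → ℕ := fun u => (bs H q.1 c (fun _ => 1) u).card with hg
  set U : Finset V := univ.filter (fun v => dF q.1 v < 1) with hU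
  set s := g q.2.1 + g q.2.2 with hs
  have hUc := hcard q.1 q1
  -- averaging over the free vertices
  have hav : (U.card - 1) * s ≤ 4 * Fintype.card V := by
    have a1 : (U.filter (fun u => 2 * g u < s)).card ≤ 1 := by
      rw [Finset.card_le_one]
      intro u hu u' hu'
      by_contra hne
      obtain ⟨k1, k2⟩ := Finset.mem_filter.1 hu
      obtain ⟨k3, k4⟩ := Finset.mem_filter.1 hu'
      have := hmin' q.1 u u' q1 rfl hne (Finset.mem_filter.1 k1).2 (Finset.mem_filter.1 k3).2
      change s ≤ g u + g u' at this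
      omega
    have a2 := Finset.card_filter_add_card_filter_not (s := U) (fun u => 2 * g u < s)
    have a3 : (U.filter (fun u => ¬ 2 * g u < s)).card * s ≤ ∑ u, 2 * g u := by
      calc (U.filter (fun u => ¬ 2 * g u < s)).card * s
          = ∑ _u ∈ U.filter (fun u => ¬ 2 * g u < s), s := by
            rw [Finset.sum_const, smul_eq_mul]
        _ ≤ ∑ u ∈ U.filter (fun u => ¬ 2 * g u < s), 2 * g u :=
            Finset.sum_le_sum fun u hu => by
              have := (Finset.mem_filter.1 hu).2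
              omega
        _ ≤ ∑ u, 2 * g u := Finset.sum_le_sum_of_subset (Finset.subset_univ _)
    have a4 : ∑ u, g u ≤ 2 * Fintype.card V := by
      have h3 := sum_bs (H := H) (c := c) (b := fun _ => 1) (F := q.1) q1.1
        (fun v _ => hdeg v)
      rw [hWc, Finset.filter_true_of_mem (fun _ _ => rfl)] at h3
      have h4 : c * ∑ u, g u ≤ c * (2 * Fintype.card V) := by
        refine h3.trans ?_
        have h5 : (c - 1) * Fintype.card V ≤ c * Fintype.card V :=
          Nat.mul_le_mul_right _ (Nat.sub_le _ _)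
        have h6 : c * (2 * Fintype.card V) = 2 * (c * Fintype.card V) := by ring
        omega
      exact Nat.le_of_mul_le_mul_left h4 (by omega)
    rw [← Finset.mul_sum] at a3
    have a5 : (U.card - 1) * s ≤ (U.filter (fun u => ¬ 2 * g u < s)).card * s :=
      Nat.mul_le_mul_right _ (by omega)
    omega
  have fin : ∀ w w', w ≠ w' → dF q.1 w < 1 → dF q.1 w' < 1 → g w' ≤ g w → s = g w + g w' →
      False := by
    intro w w' hww hw hw' hle hsw
    obtain ⟨f1, f2⟩ := wide_facts (H := H) (c := c) (b := fun _ => 1) (F := q.1) q1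
      (fun _ => le_rfl) (fun v _ => hdeg v) hno' hww hw hw' (by
        intro F' u u' h1 h2 h3 h4 h5
        have := hmin' F' u u' h1 h2 h3 h4 h5
        change s ≤ _ at this
        rw [hsw] at this
        exact this)
    have g1 := card_W_le (H := H) (c := c) (b := fun _ => 1) (F := q.1) w
    have g2 := card_W_le (H := H) (c := c) (b := fun _ => 1) (F := q.1) w'
    rw [hWc] at f2 g1 g2
    have d1 := hdeg w
    have d2 := hdeg w'
    have f3 : (gs H q.1 c (fun _ => 1) w).card * (g w - 3) ≤ 2 * Fintype.card V := by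
      have h4 : c * ((gs H q.1 c (fun _ => 1) w).card * (g w - 3))
          ≤ c * (2 * Fintype.card V) := by
        refine f2.trans ?_
        have h5 : (c - 1) * Fintype.card V ≤ c * Fintype.card V :=
          Nat.mul_le_mul_right _ (Nat.sub_le _ _)
        have h6 : c * (2 * Fintype.card V) = 2 * (c * Fintype.card V) := by ring
        omega
      exact Nat.le_of_mul_le_mul_left h4 (by omega)
    exact low_arith (n := Fintype.card V) (k := k) (c := c) (f := q.1.card) (m := U.card)
      (s := s) (β := g w) (β' := g w') (σ := (gs H q.1 c (fun _ => 1) w).card)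
      (σ' := (gs H q.1 c (fun _ => 1) w').card) hn (by omega) h2 hUc hav hsw hle f1
      (by change _ ≤ _ + g w + _ + 1 at g1; omega) (by change _ ≤ _ + g w' + _ + 1 at g2; omega) f3
  rcases le_total (g q.2.2) (g q.2.1) with h | h
  · exact fin _ _ q3 q4 q5 h rfl
  · exact fin _ _ q3.symm q5 q4 h (by rw [hs, add_comm])

end

theorem lower_low (H : SimpleGraph V) (c : ℕ) (hc : 1 ≤ c) (hK : Bic H c) {k : ℕ}
    (hn : Fintype.card V = k + c) (h2 : 2 * k ≤ Fintype.card V + 12) :
    ∃ F : Finset (Sym2 V), Good H c F ∧ k - 13 ≤ F.card := by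
  classical
  have key : ∀ m, m + 13 ≤ k → ∃ F, Adm H c (fun _ => 1) F ∧ F.card = m := by
    intro m
    induction m with
    | zero => exact fun _ => ⟨∅, ⟨good_empty hK, fun v => by simp [dF]⟩, Finset.card_empty⟩
    | succ m ih =>
      intro hm
      obtain ⟨F, hF, hFc⟩ := ih (by omega)
      obtain ⟨F', hF', hc'⟩ := low_step hF (fun v => deg_le H c hc hK v) hc hn (by omega) h2
      exact ⟨F', hF', by omega⟩
  by_cases h : 13 ≤ k
  · obtain ⟨F, hF, hFc⟩ := key (k - 13) (by omega)
    exact ⟨F, hF.1, hFc.ge⟩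
  · exact ⟨∅, good_empty hK, by omega⟩

/-- `f(n, k) ≥ k - 13` for `n ≥ 2 k - 12`. -/
theorem fnk_ge (n k : ℕ) (hk : 1 ≤ k) (hkn : k < n) (h : 2 * k ≤ n + 12) : k - 13 ≤ fnk n k := by
  classical
  set c := n - k with hc
  have hc1 : 1 ≤ c := by omega
  have hn : n = k + c := by omega
  have hcard : Fintype.card (Fin n) = k + c := by rw [Fintype.card_fin]; exact hn
  have hlow : ∀ G : SimpleGraph (Fin n), KConn G k → k - 13 ≤ rem G k := by
    intro G hG
    have hB := bic_of_kconn G k hG
    rw [Fintype.card_fin, ← hc] at hB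
    obtain ⟨F, hF, hFc⟩ := lower_low Gᶜ c hc1 hB (k := k) hcard
      (by rw [Fintype.card_fin]; exact h)
    obtain ⟨h1, h2⟩ := good_conn G k c hk hcard F hF
    exact hFc.trans (le_csSup (bddAbove_rem G k) ⟨F, h1, rfl, h2⟩)
  have hG : KConn (⊤ : SimpleGraph (Fin n)) k := by
    refine kconn_of_bic _ _ (by rw [Fintype.card_fin]; exact hkn) ?_
    rw [Fintype.card_fin, ← hc]
    intro X Y hX hY hXY
    obtain ⟨x, hx⟩ := hX
    obtain ⟨y, hy⟩ := hY
    have := hXY x hx y hy
    rw [compl_top] at this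
    exact absurd this (by simp)
  have hne : {m | ∃ G : SimpleGraph (Fin n), KConn G k ∧ rem G k = m}.Nonempty :=
    ⟨rem ⊤ k, ⊤, hG, rfl⟩
  refine le_csInf hne ?_
  rintro m ⟨G, hGk, rfl⟩
  exact hlow G hGk

end Pool.Agent.RE26.Dr
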