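import Pool.Agent.DenseRg.ChainB
import Pool.Agent.DenseRg.WLow

/-!
# MP_df1a54_co: `f(n, k) ≥ n / 2 - 3 n / √k`
-/

namespace Pool.Agent.RE26.Dr

theorem sqrt_bound (n k : ℕ) (hk : 1 ≤ k) (hkn : k < n) :
    (n : ℝ) / 2 - 3 * n / Real.sqrt k ≤ fnk n k := by
  have hk0 : (0 : ℝ) < k := by exact_mod_cast hk
  have hn0 : (0 : ℝ) ≤ n := Nat.cast_nonneg n
  have hf0 : (0 : ℝ) ≤ fnk n k := Nat.cast_nonneg _
  set s := Real.sqrt k with hs
  have hs0 : 0 < s := Real.sqrt_pos.2 hk0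
  have hs2 : s * s = k := Real.mul_self_sqrt hk0.le
  by_cases h6 : s ≤ 6
  · have h1 : (n : ℝ) / 2 ≤ 3 * n / s := by
      rw [div_le_div_iff₀ (by norm_num) hs0]
      nlinarith
    linarith
  push Not at h6
  set J := ⌊s / 5⌋₊ with hJ
  have hJ1 : (J : ℝ) ≤ s / 5 := Nat.floor_le (by positivity)
  have hJ2 : s / 5 < (J : ℝ) + 1 := Nat.lt_floor_add_one _
  have hJ0 : (0 : ℝ) ≤ J := Nat.cast_nonneg J
  have hch := fnk_chain n k hk hkn J
  have hch' : (J : ℝ) * (((k - 1 - (12 * J + 9) : ℕ) : ℝ) * n)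
      ≤ (2 * J + 1) * (((k - 1 : ℕ) : ℝ) * fnk n k) := by exact_mod_cast hch
  have ha : (k : ℝ) - 10 - 12 * J ≤ ((k - 1 - (12 * J + 9) : ℕ) : ℝ) := by
    have h1 : k ≤ (k - 1 - (12 * J + 9)) + (12 * J + 10) := by omega
    have h2 : (k : ℝ) ≤ ((k - 1 - (12 * J + 9) : ℕ) : ℝ) + (12 * J + 10) := by exact_mod_cast h1
    linarith
  have hb : ((k - 1 : ℕ) : ℝ) = k - 1 := by
    rw [Nat.cast_sub hk, Nat.cast_one]
  rw [hb] at hch'
  have hk1 : (0 : ℝ) < k - 1 := by nlinarith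
  have hc : (J : ℝ) * ((k - 10 - 12 * J) * n) ≤ (2 * J + 1) * ((k - 1) * fnk n k) :=
    le_trans (mul_le_mul_of_nonneg_left (mul_le_mul_of_nonneg_right ha hn0) hJ0) hch'
  -- the numerical inequality
  have key : (2 * (J : ℝ) + 1) * (k - 1) * (s / 2 - 3) ≤ s * (J * (k - 10 - 12 * J)) := by
    have p1 : 0 ≤ s * ((J - (s / 5 - 1)) * (s / 5 - J)) :=
      mul_nonneg hs0.le (mul_nonneg (by linarith) (by linarith))
    have p2 : 0 ≤ ((J : ℝ) - (s / 5 - 1)) * (6 / 5 * (s * s) + 3 * s - 6) :=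
      mul_nonneg (by linarith) (by nlinarith)
    have p3 : 0 ≤ s * (11 / 50 * (s * s) - 37 / 10) + 3 := by
      have : 0 ≤ s * (11 / 50 * (s * s) - 37 / 10) := mul_nonneg hs0.le (by nlinarith)
      linarith
    rw [← hs2]
    nlinarith [p1, p2, p3]
  have hpos : 0 < (2 * (J : ℝ) + 1) * (k - 1) := by positivity
  have h1 : (2 * (J : ℝ) + 1) * (k - 1) * ((s / 2 - 3) * n)
      ≤ (2 * (J : ℝ) + 1) * (k - 1) * (s * fnk n k) := by
    calc (2 * (J : ℝ) + 1) * (k - 1) * ((s / 2 - 3) * n)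
        = ((2 * (J : ℝ) + 1) * (k - 1) * (s / 2 - 3)) * n := by ring
      _ ≤ (s * (J * (k - 10 - 12 * J))) * n := mul_le_mul_of_nonneg_right key hn0
      _ = s * (J * ((k - 10 - 12 * J) * n)) := by ring
      _ ≤ s * ((2 * J + 1) * ((k - 1) * fnk n k)) := mul_le_mul_of_nonneg_left hc hs0.le
      _ = (2 * (J : ℝ) + 1) * (k - 1) * (s * fnk n k) := by ring
  have h2 : (s / 2 - 3) * n ≤ s * fnk n k := le_of_mul_le_mul_left h1 hpos
  have h3 : (n : ℝ) / 2 - 3 * n / s = ((s / 2 - 3) * n) / s := by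
    field_simp
  rw [h3, div_le_iff₀ hs0]
  linarith

end Pool.Agent.RE26.Dr
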