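import Pool.Agent.DenseRg.Bad

/-!
# MP_df1a54_co, dense range: the augmentation step
-/

open Finset

set_option linter.unusedSectionVars false

namespace Pool.Agent.RE26.Dr

variable {V : Type} [Fintype V] [DecidableEq V]

/-- the degree of `v` in `F` -/
def dF (F : Finset (Sym2 V)) (v : V) : ℕ := (F.filter (fun e => v ∈ e)).card

theorem dF_insert {F : Finset (Sym2 V)} {e : Sym2 V} (he : e ∉ F) (v : V) :
    dF (insert e F) v = dF F v + (if v ∈ e then 1 else 0) := by
  unfold dF
  rw [Finset.filter_insert]
  split_ifs with h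
  · rw [Finset.card_insert_of_notMem (fun hh => he (Finset.mem_filter.1 hh).1)]
  · rfl

theorem dF_erase {F : Finset (Sym2 V)} {e : Sym2 V} (he : e ∈ F) (v : V) :
    dF (F.erase e) v + (if v ∈ e then 1 else 0) = dF F v := by
  have h1 : insert e (F.erase e) = F := Finset.insert_erase he
  have h2 := dF_insert (Finset.notMem_erase e F) v
  rw [h1] at h2
  exact h2.symm

/-- `F` is admissible: `H + F` is good and degrees are bounded by `b` -/
def Adm (H : SimpleGraph V) (c : ℕ) (b : V → ℕ) (F : Finset (Sym2 V)) : Prop :=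
  Good H c F ∧ ∀ v, dF F v ≤ b v

theorem nbr_le (H : SimpleGraph V) (F : Finset (Sym2 V)) (w : V) :
    (nbr H F w).card ≤ (cn H {w}).card + dF F w := by
  classical
  have h1 : nbr H F w ⊆ cn H {w} ∪ univ.filter (fun z => s(w, z) ∈ F) := by
    intro z hz
    rcases (mem_nbr H F w z).1 hz with h | h
    · refine Finset.mem_union_left _ ((mem_cn H {w} z).2 ?_)
      intro j hj
      rw [Finset.mem_singleton.1 hj]
      exact h
    · exact Finset.mem_union_right _ (Finset.mem_filter.2 ⟨Finset.mem_univ _, h⟩)
  have h2 := (Finset.card_le_card h1).trans (Finset.card_union_le _ _)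
  have h3 : (univ.filter (fun z => s(w, z) ∈ F)).card ≤ dF F w := by
    unfold dF
    refine Finset.card_le_card_of_injOn (fun z => s(w, z)) ?_ ?_
    · intro z hz
      rw [Finset.mem_coe, Finset.mem_filter] at hz ⊢
      exact ⟨hz.2, Sym2.mem_mk_left w z⟩
    · intro z _ z' _ hzz
      rcases Sym2.eq_iff.1 hzz with ⟨-, h⟩ | ⟨h, h'⟩
      · exact h
      · exact h'.trans h
  omega

/-- in `H + F` every vertex has at most `c` neighbours -/
theorem nbr_le_c {H : SimpleGraph V} {c : ℕ} {F : Finset (Sym2 V)} (hF : Good H c F) (x : V) :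
    (nbr H F x).card ≤ c := by
  classical
  by_cases h : (nbr H F x).Nonempty
  · have := hF.2 {x} (nbr H F x) ⟨x, Finset.mem_singleton_self x⟩ h (by
      rw [Finset.disjoint_singleton_left, mem_nbr]
      exact fun hh => hh.ne hF rfl) (by
      intro a ha y hy
      rw [Finset.mem_singleton.1 ha]
      exact (mem_nbr H F x y).1 hy)
    rw [Finset.card_singleton] at this
    omega
  · rw [Finset.not_nonempty_iff_eq_empty] at h
    rw [h, Finset.card_empty]
    omega

/-- removing an `F`-edge at `x` lowers the degree of `x` -/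
theorem nbr_erase {H : SimpleGraph V} {c : ℕ} {F : Finset (Sym2 V)} (hF : Good H c F) {x y : V}
    (hxy : s(x, y) ∈ F) : (nbr H (F.erase s(x, y)) x).card + 1 ≤ c := by
  classical
  have h0 := nbr_le_c hF x
  have hy : y ∈ nbr H F x := (mem_nbr H F x y).2 (Or.inr hxy)
  have h1 : nbr H (F.erase s(x, y)) x ⊆ (nbr H F x).erase y := by
    intro z hz
    have hz' := (mem_nbr H _ x z).1 hz
    refine Finset.mem_erase.2 ⟨?_, (mem_nbr H F x z).2 (hz'.mono (Finset.erase_subset _ _))⟩
    rintro rfl
    rcases hz' with h | h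
    · have := (hF.1 _ hxy).2
      rw [SimpleGraph.mem_edgeSet] at this
      exact this h
    · exact (Finset.notMem_erase _ _) h
  have h2 := Finset.card_le_card h1
  have h3 := Finset.card_erase_add_one hy
  omega

section step

variable {H : SimpleGraph V} {c : ℕ} {b : V → ℕ} {F : Finset (Sym2 V)}

theorem Adm.nbr_free (hbd : ∀ v, (cn H {v}).card + b v ≤ c) {w : V}
    (hw : dF F w < b w) : (nbr H F w).card + 1 ≤ c := by
  have h1 := nbr_le H F w
  have h2 := hbd w
  omega

/-- a free good partner: add the edge -/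
theorem Adm.add (hF : Adm H c b F) (hbd : ∀ v, (cn H {v}).card + b v ≤ c) {w x : V}
    (hw : dF F w < b w) (hx : dF F x < b x) (hxg : x ∈ gd H F c w) :
    ∃ F', Adm H c b F' ∧ F'.card = F.card + 1 := by
  classical
  obtain ⟨h1, h2, h3⟩ := (mem_gd H F c w x).1 hxg
  have hnF : s(w, x) ∉ F := fun h => h2 (Or.inr h)
  refine ⟨insert s(w, x) F, ⟨add_good hF.1 (Finset.Subset.refl _) h1 h2 h3
    (Adm.nbr_free hbd hx), ?_⟩, Finset.card_insert_of_notMem hnF⟩
  intro v
  rw [dF_insert hnF]
  have hv := hF.2 v
  split_ifs with h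
  · rcases Sym2.mem_iff.1 h with rfl | rfl <;> omega
  · omega

/-- the double swap -/
theorem Adm.swap2 (hF : Adm H c b F) {w w' x y : V} (hww : w ≠ w')
    (hw : dF F w < b w) (hw' : dF F w' < b w') (hx : b x ≤ dF F x) (hy : b y ≤ dF F y)
    (hxg : x ∈ gd H F c w) (hyg : y ∈ gd H F c w') (hxy : s(x, y) ∈ F)
    (hn : ¬ (Ad H F w' x ∧ Ad H F w y)) :
    ∃ F', Adm H c b F' ∧ F'.card = F.card + 1 := by
  classical
  obtain ⟨h1, h2, h3⟩ := (mem_gd H F c w x).1 hxg
  obtain ⟨h1', h2', h3'⟩ := (mem_gd H F c w' y).1 hyg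
  have hxw' : x ≠ w' := by rintro rfl; omega
  have hyw : y ≠ w := by rintro rfl; omega
  have hxyne : x ≠ y := fun h => (hF.1.1 _ hxy).1 (Sym2.mk_isDiag_iff.2 h)
  have hxynH : ¬ H.Adj x y := by
    have := (hF.1.1 _ hxy).2
    rwa [SimpleGraph.mem_edgeSet] at this
  have hyx : s(y, x) ∈ F := by
    rw [show s(y, x) = s(x, y) from Sym2.eq_swap]; exact hxy
  set F1 := F.erase s(x, y) with hF1
  have hsub : F1 ⊆ F := Finset.erase_subset _ _
  have hnF : s(w, x) ∉ F := fun h => h2 (Or.inr h)
  have hnF' : s(w', y) ∉ F := fun h => h2' (Or.inr h)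
  have hg : Good H c (insert s(w, x) F1) :=
    add_good hF.1 hsub h1 h2 h3 (nbr_erase hF.1 hxy)
  have hg' : Good H c (insert s(w', y) F1) := by
    refine add_good hF.1 hsub h1' h2' h3' ?_
    have := nbr_erase hF.1 hyx
    rwa [show s(y, x) = s(x, y) from Sym2.eq_swap] at this
  have hne : s(w, x) ≠ s(w', y) := by
    intro h
    rcases Sym2.eq_iff.1 h with ⟨h', -⟩ | ⟨h', -⟩
    · exact hww h'
    · exact hyw h'.symm
  have hnF1 : s(w', y) ∉ F1 := fun h => hnF' (hsub h)
  have hnF2 : s(w, x) ∉ insert s(w', y) F1 := by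
    intro h
    rcases Finset.mem_insert.1 h with h | h
    · exact hne h
    · exact hnF (hsub h)
  -- the core case
  have core : ∀ A B : Finset V, A.Nonempty → B.Nonempty → Disjoint A B →
      (∀ a ∈ A, ∀ b ∈ B, H.Adj a b ∨ s(a, b) ∈ insert s(w, x) (insert s(w', y) F1)) →
      x ∈ A → w ∈ B → A.card + B.card ≤ c + 1 := by
    intro A B hA hB hdis hAB hxA hwB
    by_cases k1 : y ∈ A ∧ w' ∈ B
    · exfalso
      apply hn
      constructor
      · rcases hAB x hxA w' k1.2 with h | h
        · exact Or.inl h.symm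
        · rcases Finset.mem_insert.1 h with h | h
          · exfalso
            rcases Sym2.eq_iff.1 h with ⟨-, h'⟩ | ⟨-, h'⟩
            · exact hxw' h'.symm
            · exact hww h'.symm
          · rcases Finset.mem_insert.1 h with h | h
            · exfalso
              rcases Sym2.eq_iff.1 h with ⟨h', -⟩ | ⟨h', -⟩
              · exact hxw' h'
              · exact hxyne h'
            · right
              rw [show s(w', x) = s(x, w') from Sym2.eq_swap]
              exact hsub h
      · rcases hAB y k1.1 w hwB with h | h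
        · exact Or.inl h.symm
        · rcases Finset.mem_insert.1 h with h | h
          · exfalso
            rcases Sym2.eq_iff.1 h with ⟨h', -⟩ | ⟨h', -⟩
            · exact hyw h'
            · exact hxyne h'.symm
          · rcases Finset.mem_insert.1 h with h | h
            · exfalso
              rcases Sym2.eq_iff.1 h with ⟨h', -⟩ | ⟨-, h'⟩
              · exact h1' h'
              · exact hww h'
            · right
              rw [show s(w, y) = s(y, w) from Sym2.eq_swap]
              exact hsub h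
    by_cases k2 : w' ∈ A ∧ y ∈ B
    · exfalso
      rcases hAB x hxA y k2.2 with h | h
      · exact hxynH h
      · rcases Finset.mem_insert.1 h with h | h
        · rcases Sym2.eq_iff.1 h with ⟨h', -⟩ | ⟨-, h'⟩
          · exact h1 h'
          · exact hyw h'
        · rcases Finset.mem_insert.1 h with h | h
          · rcases Sym2.eq_iff.1 h with ⟨h', -⟩ | ⟨h', -⟩
            · exact hxw' h'
            · exact hxyne h'
          · exact (Finset.notMem_erase _ _) h
    refine hg.2 A B hA hB hdis ?_
    intro a ha b' hb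
    rcases hAB a ha b' hb with h | h
    · exact Or.inl h
    · rcases Finset.mem_insert.1 h with h | h
      · exact Or.inr (h ▸ Finset.mem_insert_self _ _)
      · rcases Finset.mem_insert.1 h with h | h
        · exfalso
          rcases Sym2.eq_iff.1 h with ⟨ha', hb'⟩ | ⟨ha', hb'⟩
          · exact k2 ⟨ha' ▸ ha, hb' ▸ hb⟩
          · exact k1 ⟨ha' ▸ ha, hb' ▸ hb⟩
        · exact Or.inr (Finset.mem_insert_of_mem h)
  refine ⟨insert s(w, x) (insert s(w', y) F1), ⟨⟨?_, ?_⟩, ?_⟩, ?_⟩
  · intro e he
    rcases Finset.mem_insert.1 he with h | h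
    · exact hg.1 e (Finset.mem_insert.2 (Or.inl h))
    · exact hg'.1 e h
  · intro A B hA hB hdis hAB
    by_cases k1 : x ∈ A ∧ w ∈ B
    · exact core A B hA hB hdis hAB k1.1 k1.2
    by_cases k2 : x ∈ B ∧ w ∈ A
    · have := core B A hB hA hdis.symm (fun b' hb a ha => by
        rcases hAB a ha b' hb with h | h
        · exact Or.inl h.symm
        · exact Or.inr (by rw [show s(b', a) = s(a, b') from Sym2.eq_swap]; exact h)) k2.1 k2.2
      omega
    refine hg'.2 A B hA hB hdis ?_
    intro a ha b' hb
    rcases hAB a ha b' hb with h | h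
    · exact Or.inl h
    · rcases Finset.mem_insert.1 h with h | h
      · exfalso
        rcases Sym2.eq_iff.1 h with ⟨ha', hb'⟩ | ⟨ha', hb'⟩
        · exact k2 ⟨hb' ▸ hb, ha' ▸ ha⟩
        · exact k1 ⟨ha' ▸ ha, hb' ▸ hb⟩
      · exact Or.inr h
  · intro v
    rw [dF_insert hnF2, dF_insert hnF1]
    have e1 := dF_erase hxy v
    rw [← hF1] at e1
    have hv := hF.2 v
    have m1 : v ∈ s(w, x) ↔ v = w ∨ v = x := Sym2.mem_iff
    have m2 : v ∈ s(w', y) ↔ v = w' ∨ v = y := Sym2.mem_iff
    have m3 : v ∈ s(x, y) ↔ v = x ∨ v = y := Sym2.mem_iff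
    by_cases v1 : v = w
    · subst v1
      have n1 : v ∈ s(v, x) := m1.2 (Or.inl rfl)
      have n2 : v ∉ s(w', y) := fun h => by
        rcases m2.1 h with h | h
        · exact hww h
        · exact hyw h.symm
      rw [if_pos n1, if_neg n2]
      split_ifs at e1 <;> omega
    by_cases v2 : v = w'
    · subst v2
      have n1 : v ∉ s(w, x) := fun h => by
        rcases m1.1 h with h | h
        · exact v1 h
        · exact hxw' h.symm
      have n2 : v ∈ s(v, y) := m2.2 (Or.inl rfl)
      rw [if_neg n1, if_pos n2]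
      split_ifs at e1 <;> omega
    by_cases v3 : v = x
    · subst v3
      have n2 : v ∉ s(w', y) := fun h => by
        rcases m2.1 h with h | h
        · exact v2 h
        · exact hxyne h
      rw [if_neg n2]
      rw [if_pos (m3.2 (Or.inl rfl))] at e1
      split_ifs <;> omega
    by_cases v4 : v = y
    · subst v4
      have n1 : v ∉ s(w, x) := fun h => by
        rcases m1.1 h with h | h
        · exact v1 h
        · exact v3 h
      rw [if_neg n1]
      rw [if_pos (m3.2 (Or.inr rfl))] at e1
      split_ifs <;> omega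
    · have n1 : v ∉ s(w, x) := fun h => by
        rcases m1.1 h with h | h
        · exact v1 h
        · exact v3 h
      have n2 : v ∉ s(w', y) := fun h => by
        rcases m2.1 h with h | h
        · exact v2 h
        · exact v4 h
      rw [if_neg n1, if_neg n2]
      omega
  · rw [Finset.card_insert_of_notMem hnF2, Finset.card_insert_of_notMem hnF1]
    have := Finset.card_erase_add_one hxy
    rw [← hF1] at this
    omega

end step

end Pool.Agent.RE26.Dr
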