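import Pool.Agent.DenseRg.WFin

/-!
# MP_df1a54_co: `f(n, k) ≥ (k - 4) n / (3 (k - 1))`: bad pairs for arbitrary good sets
-/

open Finset

set_option linter.unusedSectionVars false

namespace Pool.Agent.RE26.Dr

variable {V : Type} [Fintype V] [DecidableEq V]

/-- `(P + z, Q + u)` is complete up to the pair `z u`, in `H + F` -/
def Dat3 (H : SimpleGraph V) (F : Finset (Sym2 V)) (c : ℕ) (u z : V) (P Q : Finset V) : Prop :=
  c ≤ P.card + Q.card ∧ (∀ p ∈ P, ∀ q ∈ Q, Ad H F p q) ∧ (∀ p ∈ P, Ad H F u p) ∧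
    ∀ q ∈ Q, Ad H F z q

theorem Dat3.symm {H : SimpleGraph V} {F : Finset (Sym2 V)} {c : ℕ} {u z : V} {P Q : Finset V}
    (h : Dat3 H F c u z P Q) : Dat3 H F c z u Q P :=
  ⟨by have := h.1; omega, fun q hq p hp => (h.2.1 p hp q hq).symm, h.2.2.2, h.2.2.1⟩

theorem Dat3.mono {H : SimpleGraph V} {F F1 : Finset (Sym2 V)} (hs : F1 ⊆ F) {c : ℕ} {u z : V}
    {P Q : Finset V} (h : Dat3 H F1 c u z P Q) : Dat3 H F c u z P Q :=
  ⟨h.1, fun p hp q hq => (h.2.1 p hp q hq).mono hs, fun p hp => (h.2.2.1 p hp).mono hs,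
    fun q hq => (h.2.2.2 q hq).mono hs⟩

/-- the pair `u z` is bad -/
def Bd3 (H : SimpleGraph V) (F : Finset (Sym2 V)) (c : ℕ) (u z : V) : Prop :=
  ∃ P Q, Dat3 H F c u z P Q

theorem gmono {H : SimpleGraph V} {c : ℕ} {F F1 : Finset (Sym2 V)} (hF : Good H c F)
    (hs : F1 ⊆ F) : Good H c F1 :=
  ⟨fun e he => hF.1 e (hs he), fun A B hA hB hd h => hF.2 A B hA hB hd
    (fun a ha b hb => Ad.mono (H := H) hs (h a ha b hb))⟩

/-- a safe addition -/
theorem add_good3 {H : SimpleGraph V} {c : ℕ} {F : Finset (Sym2 V)} (hF : Good H c F) {w x : V}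
    (hwx : x ≠ w) (hna : ¬ Ad H F w x) (hbad : ¬ Bd3 H F c w x) :
    Good H c (insert s(w, x) F) := by
  classical
  have core : ∀ A B : Finset V, Disjoint A B →
      (∀ a ∈ A, ∀ b ∈ B, H.Adj a b ∨ s(a, b) ∈ insert s(w, x) F) → x ∈ A → w ∈ B →
      A.card + B.card ≤ c + 1 := by
    intro A B hdis hAB hxA hwB
    by_contra hlt
    push Not at hlt
    have hPc := Finset.card_erase_add_one hxA
    have hQc := Finset.card_erase_add_one hwB
    refine hbad ⟨A.erase x, B.erase w, by omega, ?_, ?_, ?_⟩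
    · intro p hp q hq
      obtain ⟨hpx, hpA⟩ := Finset.mem_erase.1 hp
      obtain ⟨hqw, hqB⟩ := Finset.mem_erase.1 hq
      rcases hAB p hpA q hqB with h | h
      · exact Or.inl h
      · rcases Finset.mem_insert.1 h with h | h
        · exfalso
          rcases Sym2.eq_iff.1 h with ⟨h1, -⟩ | ⟨h1, -⟩
          · rw [h1] at hpA
            exact Finset.disjoint_left.1 hdis hpA hwB
          · exact hpx h1
        · exact Or.inr h
    · intro p hp
      obtain ⟨hpx, hpA⟩ := Finset.mem_erase.1 hp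
      rcases hAB p hpA w hwB with h | h
      · exact Or.inl h.symm
      · rcases Finset.mem_insert.1 h with h | h
        · exfalso
          rcases Sym2.eq_iff.1 h with ⟨-, h1⟩ | ⟨h1, -⟩
          · exact hwx h1.symm
          · exact hpx h1
        · exact Or.inr (by rw [show s(w, p) = s(p, w) from Sym2.eq_swap]; exact h)
    · intro q hq
      obtain ⟨hqw, hqB⟩ := Finset.mem_erase.1 hq
      rcases hAB x hxA q hqB with h | h
      · exact Or.inl h
      · rcases Finset.mem_insert.1 h with h | h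
        · exfalso
          rcases Sym2.eq_iff.1 h with ⟨h1, -⟩ | ⟨-, h1⟩
          · exact hwx h1
          · exact hqw h1
        · exact Or.inr h
  refine ⟨?_, ?_⟩
  · intro e he
    rcases Finset.mem_insert.1 he with rfl | he
    · refine ⟨fun h => hwx (Sym2.mk_isDiag_iff.1 h).symm, ?_⟩
      rw [SimpleGraph.mem_edgeSet]
      exact fun h => hna (Or.inl h)
    · exact hF.1 e he
  · intro A B hA hB hdis hAB
    by_cases h1 : x ∈ A ∧ w ∈ B
    · exact core A B hdis hAB h1.1 h1.2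
    by_cases h2 : x ∈ B ∧ w ∈ A
    · have := core B A hdis.symm (fun b hb a ha => by
        rcases hAB a ha b hb with h | h
        · exact Or.inl h.symm
        · exact Or.inr (by rw [show s(b, a) = s(a, b) from Sym2.eq_swap]; exact h)) h2.1 h2.2
      omega
    refine hF.2 A B hA hB hdis ?_
    intro a ha b hb
    rcases hAB a ha b hb with h | h
    · exact Or.inl h
    · rcases Finset.mem_insert.1 h with h | h
      · exfalso
        rcases Sym2.eq_iff.1 h with ⟨ha', hb'⟩ | ⟨ha', hb'⟩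
        · exact h2 ⟨hb' ▸ hb, ha' ▸ ha⟩
        · exact h1 ⟨ha' ▸ ha, hb' ▸ hb⟩
      · exact Or.inr h

theorem sub_nbr {H : SimpleGraph V} {F : Finset (Sym2 V)} {u : V} {P : Finset V}
    (h : ∀ p ∈ P, Ad H F u p) : P ⊆ nbr H F u := fun p hp => (mem_nbr H F u p).2 (h p hp)

/-- for fixed `u`, the sets `P` of different bad partners are disjoint -/
theorem uniq3 {H : SimpleGraph V} {c : ℕ} {F : Finset (Sym2 V)} (hF : Good H c F) {u : V}
    (hu : (nbr H F u).card + 1 ≤ c) {z1 z2 : V} {P1 Q1 P2 Q2 : Finset V}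
    (h1 : Dat3 H F c u z1 P1 Q1) (h2 : Dat3 H F c u z2 P2 Q2) (n1 : ¬ Ad H F u z1)
    (n2 : ¬ Ad H F u z2) {p : V} (hp1 : p ∈ P1) (hp2 : p ∈ P2) : z1 = z2 := by
  classical
  by_contra hne
  obtain ⟨s1, c1, a1, b1⟩ := h1
  obtain ⟨s2, c2, a2, b2⟩ := h2
  have huQ : u ∉ Q1 ∪ Q2 := by
    intro h
    rcases Finset.mem_union.1 h with h | h
    · exact n1 (b1 u h).symm
    · exact n2 (b2 u h).symm
  have e3 := good' hF (P1 ∩ P2) (insert u (Q1 ∪ Q2)) ⟨p, Finset.mem_inter.2 ⟨hp1, hp2⟩⟩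
    ⟨u, Finset.mem_insert_self _ _⟩ (by
      intro a ha b hb
      obtain ⟨ha1, ha2⟩ := Finset.mem_inter.1 ha
      rcases Finset.mem_insert.1 hb with rfl | hb
      · exact (a1 a ha1).symm
      rcases Finset.mem_union.1 hb with hb | hb
      · exact c1 a ha1 b hb
      · exact c2 a ha2 b hb)
  rw [Finset.card_insert_of_notMem huQ] at e3
  have e1 := Finset.card_union_add_card_inter P1 P2
  have e2 := Finset.card_union_add_card_inter Q1 Q2
  have hPu : ∀ p ∈ P1 ∪ P2, Ad H F u p := by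
    intro p hp
    rcases Finset.mem_union.1 hp with hp | hp
    · exact a1 p hp
    · exact a2 p hp
  by_cases hQ : (Q1 ∩ Q2).Nonempty
  · have m2 : z2 ∉ P1 ∪ P2 := fun h => n2 (hPu z2 h)
    have m1 : z1 ∉ insert z2 (P1 ∪ P2) := by
      intro h
      rcases Finset.mem_insert.1 h with h | h
      · exact hne h
      · exact n1 (hPu z1 h)
    have e4 := good' hF (insert z1 (insert z2 (P1 ∪ P2))) (Q1 ∩ Q2)
      ⟨z1, Finset.mem_insert_self _ _⟩ hQ (by
        intro a ha b hb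
        obtain ⟨hb1, hb2⟩ := Finset.mem_inter.1 hb
        rcases Finset.mem_insert.1 ha with rfl | ha
        · exact b1 b hb1
        rcases Finset.mem_insert.1 ha with rfl | ha
        · exact b2 b hb2
        rcases Finset.mem_union.1 ha with ha | ha
        · exact c1 a ha b hb1
        · exact c2 a ha b hb2)
    rw [Finset.card_insert_of_notMem m1, Finset.card_insert_of_notMem m2] at e4
    omega
  · rw [Finset.not_nonempty_iff_eq_empty] at hQ
    rw [hQ, Finset.card_empty] at e2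
    have h2 := Finset.card_le_card (sub_nbr hPu)
    omega

theorem sum_P3_le {H : SimpleGraph V} {c : ℕ} {F : Finset (Sym2 V)} (hF : Good H c F) {u : V}
    (hu : (nbr H F u).card + 1 ≤ c) (T : Finset V) (P Q : V → Finset V)
    (hT : ∀ z ∈ T, ¬ Ad H F u z ∧ Dat3 H F c u z (P z) (Q z)) :
    ∑ z ∈ T, (P z).card ≤ (nbr H F u).card := by
  classical
  rw [← Finset.card_biUnion]
  · refine Finset.card_le_card ?_
    intro p hp
    obtain ⟨z, hz, hp⟩ := Finset.mem_biUnion.1 hp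
    exact sub_nbr (hT z hz).2.2.2.1 hp
  · intro z1 h1 z2 h2 hne
    refine Finset.disjoint_left.2 ?_
    intro p hp1 hp2
    exact hne (uniq3 hF hu (hT z1 h1).2 (hT z2 h2).2 (hT z1 h1).1 (hT z2 h2).1 hp1 hp2)

/-- joint badness: after adding `w x`, at most one more partner of `y` becomes bad -/
theorem joint3 {H : SimpleGraph V} {c : ℕ} {F : Finset (Sym2 V)} {w x y : V}
    (hG : Good H c (insert s(w, x) F)) (hy : (nbr H F y).card + 1 ≤ c) (hyw : y ≠ w)
    (hyx : y ≠ x) (hnxy : ¬ Ad H F y x) {w1 w2 : V} (h1w : w1 ≠ w) (h2w : w2 ≠ w) (h1x : w1 ≠ x)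
    (h2x : w2 ≠ x) (n1 : ¬ Ad H F w1 y) (n2 : ¬ Ad H F w2 y)
    (g1 : ¬ Bd3 H F c w1 y) (g2 : ¬ Bd3 H F c w2 y) (b1 : Bd3 H (insert s(w, x) F) c w1 y)
    (b2 : Bd3 H (insert s(w, x) F) c w2 y) : w1 = w2 := by
  classical
  have hAd : ∀ a b, Ad H (insert s(w, x) F) a b → a ≠ w → a ≠ x → Ad H F a b := by
    intro a b h ha hb
    rcases h with h | h
    · exact Or.inl h
    · rcases Finset.mem_insert.1 h with h | h
      · exfalso
        rcases Sym2.eq_iff.1 h with ⟨h', -⟩ | ⟨h', -⟩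
        · exact ha h'
        · exact hb h'
      · exact Or.inr h
  have hmem : ∀ v P Q, v ≠ w → v ≠ x → ¬ Bd3 H F c v y →
      Dat3 H (insert s(w, x) F) c v y P Q → w ∈ Q := by
    intro v P Q hvw hvx hg hd
    by_contra hwQ
    have hxQ : x ∉ Q := by
      intro hx
      exact hnxy (hAd y x (hd.2.2.2 x hx) hyw hyx)
    refine hg ⟨P, Q, hd.1, ?_, fun p hp => hAd v p (hd.2.2.1 p hp) hvw hvx,
      fun q hq => hAd y q (hd.2.2.2 q hq) hyw hyx⟩
    intro p hp q hq
    refine (hAd q p (hd.2.1 p hp q hq).symm ?_ ?_).symm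
    · rintro rfl
      exact hwQ hq
    · rintro rfl
      exact hxQ hq
  obtain ⟨P1, Q1, d1⟩ := b1
  obtain ⟨P2, Q2, d2⟩ := b2
  have m1 := hmem w1 P1 Q1 h1w h1x g1 d1
  have m2 := hmem w2 P2 Q2 h2w h2x g2 d2
  have hnb : (nbr H (insert s(w, x) F) y).card + 1 ≤ c := by
    have : nbr H (insert s(w, x) F) y ⊆ nbr H F y := by
      intro z hz
      exact (mem_nbr H F y z).2 (hAd y z ((mem_nbr H _ y z).1 hz) hyw hyx)
    have := Finset.card_le_card this
    omega
  exact uniq3 hG hnb d1.symm d2.symm (fun h => n1 (hAd y w1 h hyw hyx).symm)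
    (fun h => n2 (hAd y w2 h hyw hyx).symm) m1 m2

end Pool.Agent.RE26.Dr
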