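import Pool.Agent.DenseRg.WStep

/-!
# MP_df1a54_co, wide range: the exact value for `n + 12 ≤ 2 k`
-/

open Finset

set_option linter.unusedSectionVars false

namespace Pool.Agent.RE26.Dr

variable {V : Type} [Fintype V] [DecidableEq V]

theorem good_empty {H : SimpleGraph V} {c : ℕ} (hK : Bic H c) : Good H c ∅ := by
  refine ⟨fun e he => absurd he (Finset.notMem_empty e), ?_⟩
  intro A B hA hB _ hAB
  have := hK A B hA hB (by
    intro a ha b' hb'
    rcases hAB a ha b' hb' with h | h
    · exact h
    · exact absurd h (Finset.notMem_empty _))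
  omega

/-- one edge may always be added at a vertex of degree at most `c - 2` -/
theorem good_one {H : SimpleGraph V} {c : ℕ} (hK : Bic H c) {v0 x0 : V}
    (hv0 : (cn H {v0}).card + 2 ≤ c) (hx : x0 ≠ v0) (hna : ¬ H.Adj v0 x0) :
    Good H c (insert s(v0, x0) ∅) := by
  classical
  refine add_good2 (good_empty hK) (Finset.Subset.refl _) hx hna ?_
    (fun z => Finset.notMem_empty _) (fun z => Finset.notMem_empty _)
  rintro ⟨P, Q, h1, h2, h3, h4⟩
  have hP := Finset.card_le_card (sub_cn h3)
  have hxP : x0 ∉ P := fun h => hna (h3 x0 h)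
  have h5 := hK (insert x0 P) Q ⟨x0, Finset.mem_insert_self _ _⟩
    (Finset.card_pos.1 (by omega)) (by
      intro a ha q hq
      rcases Finset.mem_insert.1 ha with rfl | ha
      · exact h4 q hq
      · rcases h2 a ha q hq with h | h
        · exact h
        · exact absurd h (Finset.notMem_empty _))
  rw [Finset.card_insert_of_notMem hxP] at h5
  omega

theorem lower_wide (H : SimpleGraph V) (c : ℕ) (hc : 1 ≤ c) (hK : Bic H c) {s : ℕ}
    (hn : Fintype.card V = 2 * c + s) (h : 12 ≤ s) :
    ∃ F : Finset (Sym2 V), Good H c F ∧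
      (Fintype.card V + (if Odd (Fintype.card V) ∧ Even c then 1 else 0)) / 2 ≤ F.card := by
  classical
  by_cases hoe : Odd (Fintype.card V) ∧ Even c
  · obtain ⟨v0, hv0⟩ := exists_small hc hK hoe.2 hoe.1
    rw [if_pos hoe]
    obtain ⟨q, hq⟩ := hoe.1
    obtain ⟨x0, hx0⟩ : ∃ x, x ∉ insert v0 (cn H {v0}) := by
      by_contra hcon
      push Not at hcon
      have h1 := Finset.eq_univ_iff_forall.2 hcon
      have h2 := Finset.card_insert_le v0 (cn H {v0})
      rw [h1, Finset.card_univ] at h2
      omega
    rw [Finset.mem_insert, not_or] at hx0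
    have hna : ¬ H.Adj v0 x0 := by
      intro hh
      refine hx0.2 ((mem_cn H {v0} x0).2 ?_)
      intro j hj
      rw [Finset.mem_singleton.1 hj]
      exact hh
    have hG1 := good_one hK hv0 hx0.1 hna
    set H0 : SimpleGraph V := H ⊔ SimpleGraph.fromEdgeSet {s(v0, x0)} with hH0
    have hadj : ∀ a b, H0.Adj a b ↔ H.Adj a b ∨ (s(a, b) = s(v0, x0) ∧ a ≠ b) := by
      intro a b
      rw [hH0, SimpleGraph.sup_adj, SimpleGraph.fromEdgeSet_adj]
      rfl
    have h0 : Good H0 c ∅ := by
      refine ⟨fun e he => absurd he (Finset.notMem_empty e), ?_⟩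
      intro A B hA hB hdis hAB
      refine hG1.2 A B hA hB hdis ?_
      intro a ha b hb
      rcases hAB a ha b hb with hh | hh
      · rcases (hadj a b).1 hh with h' | h'
        · exact Or.inl h'
        · exact Or.inr (Finset.mem_insert.2 (Or.inl h'.1))
      · exact absurd hh (Finset.notMem_empty _)
    have hdeg : ∀ v, (if v = x0 then 0 else 1) = 1 → (cn H0 {v}).card + 1 ≤ c := by
      intro v hv
      have hvx : v ≠ x0 := by
        intro hh
        rw [if_pos hh] at hv
        omega
      by_cases hvv : v = v0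
      · have h1 : cn H0 {v} ⊆ insert x0 (cn H {v0}) := by
          intro z hz
          have h2 := (mem_cn H0 {v} z).1 hz v (Finset.mem_singleton_self v)
          rw [hvv] at h2
          rcases (hadj v0 z).1 h2 with h' | h'
          · refine Finset.mem_insert_of_mem ((mem_cn H {v0} z).2 ?_)
            intro j hj
            rw [Finset.mem_singleton.1 hj]
            exact h'
          · rcases Sym2.eq_iff.1 h'.1 with ⟨-, h''⟩ | ⟨h'', -⟩
            · exact Finset.mem_insert.2 (Or.inl h'')
            · exact absurd h''.symm hx0.1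
        have h2 := Finset.card_le_card h1
        have h3 := Finset.card_insert_le x0 (cn H {v0})
        omega
      · have h1 : cn H0 {v} ⊆ cn H {v} := by
          intro z hz
          have h2 := (mem_cn H0 {v} z).1 hz v (Finset.mem_singleton_self v)
          rcases (hadj v z).1 h2 with h' | h'
          · refine (mem_cn H {v} z).2 ?_
            intro j hj
            rw [Finset.mem_singleton.1 hj]
            exact h'
          · rcases Sym2.eq_iff.1 h'.1 with ⟨h'', -⟩ | ⟨h'', -⟩
            · exact absurd h'' hvv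
            · exact absurd h'' hvx
        have h2 := Finset.card_le_card h1
        have h3 := deg_le H c hc hK v
        omega
    have hcardW : (univ.filter (fun v : V => (if v = x0 then 0 else 1) = 1)).card
        = 2 * c + (s - 1) := by
      have h1 : univ.filter (fun v : V => (if v = x0 then 0 else 1) = 1) = univ.erase x0 := by
        ext v
        rw [Finset.mem_filter, Finset.mem_erase]
        by_cases hv : v = x0
        · simp [hv]
        · simp [hv]
      rw [h1, Finset.card_erase_of_mem (Finset.mem_univ _), Finset.card_univ, hn]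
      omega
    obtain ⟨F, hF, hFc⟩ := wide_gen (H := H0) (c := c) (b := fun v => if v = x0 then 0 else 1)
      h0 (fun v => by split_ifs <;> omega) hdeg hcardW (by omega)
      ((2 * c + (s - 1)) / 2) (by omega)
    have hnF : s(v0, x0) ∉ F := by
      intro hh
      have h1 := (hF.1.1 _ hh).2
      rw [SimpleGraph.mem_edgeSet, hadj] at h1
      exact h1 (Or.inr ⟨rfl, fun h' => hx0.1 h'.symm⟩)
    refine ⟨insert s(v0, x0) F, ⟨?_, ?_⟩, ?_⟩
    · intro e he
      rcases Finset.mem_insert.1 he with rfl | he
      · exact ⟨fun hh => hx0.1 (Sym2.mk_isDiag_iff.1 hh).symm, by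
          rw [SimpleGraph.mem_edgeSet]; exact hna⟩
      · refine ⟨(hF.1.1 e he).1, ?_⟩
        have h1 := (hF.1.1 e he).2
        induction e using Sym2.ind with
        | _ a b =>
          rw [SimpleGraph.mem_edgeSet] at h1 ⊢
          exact fun hh => h1 ((hadj a b).2 (Or.inl hh))
    · intro A B hA hB hdis hAB
      refine hF.1.2 A B hA hB hdis ?_
      intro a ha b hb
      rcases hAB a ha b hb with hh | hh
      · exact Or.inl ((hadj a b).2 (Or.inl hh))
      · rcases Finset.mem_insert.1 hh with hh | hh
        · refine Or.inl ((hadj a b).2 (Or.inr ⟨hh, ?_⟩))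
          rintro rfl
          exact Finset.disjoint_left.1 hdis ha hb
        · exact Or.inr hh
    · rw [Finset.card_insert_of_notMem hnF, hFc]
      omega
  · rw [if_neg hoe]
    have hcardW : (univ.filter (fun _ : V => 1 = 1)).card = 2 * c + s := by
      rw [Finset.filter_true_of_mem (fun _ _ => rfl), Finset.card_univ, hn]
    obtain ⟨F, hF, hFc⟩ := wide_gen (H := H) (c := c) (b := fun _ => 1)
      (good_empty hK) (fun _ => le_rfl) (fun v _ => deg_le H c hc hK v) hcardW h
      (Fintype.card V / 2) (by omega)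
    exact ⟨F, hF.1, hFc.ge⟩

/-- The exact value of `f(n, k)` in the wide range. -/
theorem fnk_eq_wide (n k : ℕ) (hkn : k < n) (h : 4 * (n - k) ≤ n + 2 ∨ n + 12 ≤ 2 * k) :
    fnk n k = (k * n + 1) / 2 - ((k - 1) * n + 1) / 2 := by
  classical
  rcases h with h | h
  · exact fnk_eq4 n k hkn h
  set c := n - k with hc
  have hc1 : 1 ≤ c := by omega
  have hk1 : 1 ≤ k := by omega
  have hn : n = k + c := by omega
  have hcard : Fintype.card (Fin n) = k + c := by rw [Fintype.card_fin]; exact hn
  rw [val_eq n k c hk1 hn]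
  set v := (n + (if Odd n ∧ Even c then 1 else 0)) / 2 with hv
  have hlow : ∀ G : SimpleGraph (Fin n), KConn G k → v ≤ rem G k := by
    intro G hG
    have hB := bic_of_kconn G k hG
    rw [Fintype.card_fin, ← hc] at hB
    obtain ⟨F, hF, hFc⟩ := lower_wide (s := n - 2 * c) Gᶜ c hc1 hB
      (by rw [Fintype.card_fin]; omega) (by omega)
    rw [Fintype.card_fin, ← hv] at hFc
    obtain ⟨h1, h2⟩ := good_conn G k c hk1 hcard F hF
    exact hFc.trans (le_csSup (bddAbove_rem G k) ⟨F, h1, rfl, h2⟩)
  obtain ⟨H, hH, hsum⟩ := exists_regular n c hc1 (by omega)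
  have hG : KConn Hᶜ k := by
    refine kconn_of_bic _ _ (by rw [Fintype.card_fin]; exact hkn) ?_
    rw [Fintype.card_fin, ← hc, compl_compl]
    exact hH
  have hup : rem Hᶜ k ≤ v := by
    refine csSup_le' ?_
    rintro m ⟨F, hF, rfl, hconn⟩
    have := upper_bound H k c (if Odd n ∧ Even c then 1 else 0) hk1 hcard hc1
      (by rw [Fintype.card_fin]; exact hsum) F hF hconn
    rw [Fintype.card_fin] at this
    omega
  refine le_antisymm ?_ ?_
  · have hmem : rem Hᶜ k ∈ {m | ∃ G : SimpleGraph (Fin n), KConn G k ∧ rem G k = m} :=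
      ⟨Hᶜ, hG, rfl⟩
    exact (Nat.sInf_le hmem).trans hup
  · have hne : {m | ∃ G : SimpleGraph (Fin n), KConn G k ∧ rem G k = m}.Nonempty :=
      ⟨rem Hᶜ k, Hᶜ, hG, rfl⟩
    refine le_csInf hne ?_
    rintro m ⟨G, hGk, rfl⟩
    exact hlow G hGk

end Pool.Agent.RE26.Dr
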