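import Pool.Agent.DenseRg.Wide

/-!
# MP_df1a54_co, wide range: the augmentation step
-/

open Finset

set_option linter.unusedSectionVars false

namespace Pool.Agent.RE26.Dr

variable {V : Type} [Fintype V] [DecidableEq V]

section

variable {H : SimpleGraph V} {c : ℕ} {b : V → ℕ} {F : Finset (Sym2 V)}

theorem noedge {F : Finset (Sym2 V)} {w : V} (h : dF F w = 0) (z : V) : s(w, z) ∉ F := by
  intro hz
  unfold dF at h
  rw [Finset.card_eq_zero, Finset.filter_eq_empty_iff] at h
  exact h hz (Sym2.mem_mk_left w z)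

/-- the double swap, abstract form -/
theorem Adm.swap3 (hF : Adm H c b F) {w w' x y : V} (hww : w ≠ w')
    (hw : dF F w < b w) (hw' : dF F w' < b w') (hx : b x ≤ dF F x) (hy : b y ≤ dF F y)
    (h1 : x ≠ w) (h2 : ¬ Ad H F w x) (h2' : ¬ Ad H F w' y) (hxy : s(x, y) ∈ F)
    (hg : Good H c (insert s(w, x) (F.erase s(x, y))))
    (hg' : Good H c (insert s(w', y) (F.erase s(x, y))))
    (hn : ¬ (Ad H F w' x ∧ Ad H F w y)) :
    ∃ F', Adm H c b F' ∧ F'.card = F.card + 1 := by
  classical
  have hxw' : x ≠ w' := by rintro rfl; omega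
  have hyw : y ≠ w := by rintro rfl; omega
  have hxyne : x ≠ y := fun h => (hF.1.1 _ hxy).1 (Sym2.mk_isDiag_iff.2 h)
  have hxynH : ¬ H.Adj x y := by
    have := (hF.1.1 _ hxy).2
    rwa [SimpleGraph.mem_edgeSet] at this
  set F1 := F.erase s(x, y) with hF1
  have hsub : F1 ⊆ F := Finset.erase_subset _ _
  have hnF : s(w, x) ∉ F := fun h => h2 (Or.inr h)
  have hnF' : s(w', y) ∉ F := fun h => h2' (Or.inr h)
  have hne : s(w, x) ≠ s(w', y) := by
    intro h
    rcases Sym2.eq_iff.1 h with ⟨h', -⟩ | ⟨h', -⟩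
    · exact hww h'
    · exact hyw h'.symm
  have hnF1 : s(w', y) ∉ F1 := fun h => hnF' (hsub h)
  have hnF2 : s(w, x) ∉ insert s(w', y) F1 := by
    intro h
    rcases Finset.mem_insert.1 h with h | h
    · exact hne h
    · exact hnF (hsub h)
  -- the core case
  have core : ∀ A B : Finset V, A.Nonempty → B.Nonempty → Disjoint A B →
      (∀ a ∈ A, ∀ b ∈ B, H.Adj a b ∨ s(a, b) ∈ insert s(w, x) (insert s(w', y) F1)) →
      x ∈ A → w ∈ B → A.card + B.card ≤ c + 1 := by
    intro A B hA hB hdis hAB hxA hwB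
    by_cases k1 : y ∈ A ∧ w' ∈ B
    · exfalso
      apply hn
      constructor
      · rcases hAB x hxA w' k1.2 with h | h
        · exact Or.inl h.symm
        · rcases Finset.mem_insert.1 h with h | h
          · exfalso
            rcases Sym2.eq_iff.1 h with ⟨-, h'⟩ | ⟨-, h'⟩
            · exact hxw' h'.symm
            · exact hww h'.symm
          · rcases Finset.mem_insert.1 h with h | h
            · exfalso
              rcases Sym2.eq_iff.1 h with ⟨h', -⟩ | ⟨h', -⟩
              · exact hxw' h'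
              · exact hxyne h'
            · right
              rw [show s(w', x) = s(x, w') from Sym2.eq_swap]
              exact hsub h
      · rcases hAB y k1.1 w hwB with h | h
        · exact Or.inl h.symm
        · rcases Finset.mem_insert.1 h with h | h
          · exfalso
            rcases Sym2.eq_iff.1 h with ⟨h', -⟩ | ⟨h', -⟩
            · exact hyw h'
            · exact hxyne h'.symm
          · rcases Finset.mem_insert.1 h with h | h
            · exfalso
              rcases Sym2.eq_iff.1 h with ⟨-, h'⟩ | ⟨-, h'⟩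
              · exact hyw h'.symm
              · exact hww h'
            · right
              rw [show s(w, y) = s(y, w) from Sym2.eq_swap]
              exact hsub h
    by_cases k2 : w' ∈ A ∧ y ∈ B
    · exfalso
      rcases hAB x hxA y k2.2 with h | h
      · exact hxynH h
      · rcases Finset.mem_insert.1 h with h | h
        · rcases Sym2.eq_iff.1 h with ⟨h', -⟩ | ⟨-, h'⟩
          · exact h1 h'
          · exact hyw h'
        · rcases Finset.mem_insert.1 h with h | h
          · rcases Sym2.eq_iff.1 h with ⟨h', -⟩ | ⟨h', -⟩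
            · exact hxw' h'
            · exact hxyne h'
          · exact (Finset.notMem_erase _ _) h
    refine hg.2 A B hA hB hdis ?_
    intro a ha b' hb
    rcases hAB a ha b' hb with h | h
    · exact Or.inl h
    · rcases Finset.mem_insert.1 h with h | h
      · exact Or.inr (h ▸ Finset.mem_insert_self _ _)
      · rcases Finset.mem_insert.1 h with h | h
        · exfalso
          rcases Sym2.eq_iff.1 h with ⟨ha', hb'⟩ | ⟨ha', hb'⟩
          · exact k2 ⟨ha' ▸ ha, hb' ▸ hb⟩
          · exact k1 ⟨ha' ▸ ha, hb' ▸ hb⟩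
        · exact Or.inr (Finset.mem_insert_of_mem h)
  refine ⟨insert s(w, x) (insert s(w', y) F1), ⟨⟨?_, ?_⟩, ?_⟩, ?_⟩
  · intro e he
    rcases Finset.mem_insert.1 he with h | h
    · exact hg.1 e (Finset.mem_insert.2 (Or.inl h))
    · exact hg'.1 e h
  · intro A B hA hB hdis hAB
    by_cases k1 : x ∈ A ∧ w ∈ B
    · exact core A B hA hB hdis hAB k1.1 k1.2
    by_cases k2 : x ∈ B ∧ w ∈ A
    · have := core B A hB hA hdis.symm (fun b' hb a ha => by
        rcases hAB a ha b' hb with h | h
        · exact Or.inl h.symm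
        · exact Or.inr (by rw [show s(b', a) = s(a, b') from Sym2.eq_swap]; exact h)) k2.1 k2.2
      omega
    refine hg'.2 A B hA hB hdis ?_
    intro a ha b' hb
    rcases hAB a ha b' hb with h | h
    · exact Or.inl h
    · rcases Finset.mem_insert.1 h with h | h
      · exfalso
        rcases Sym2.eq_iff.1 h with ⟨ha', hb'⟩ | ⟨ha', hb'⟩
        · exact k2 ⟨hb' ▸ hb, ha' ▸ ha⟩
        · exact k1 ⟨ha' ▸ ha, hb' ▸ hb⟩
      · exact Or.inr h
  · intro v
    rw [dF_insert hnF2, dF_insert hnF1]
    have e1 := dF_erase hxy v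
    rw [← hF1] at e1
    have hv := hF.2 v
    have m1 : v ∈ s(w, x) ↔ v = w ∨ v = x := Sym2.mem_iff
    have m2 : v ∈ s(w', y) ↔ v = w' ∨ v = y := Sym2.mem_iff
    have m3 : v ∈ s(x, y) ↔ v = x ∨ v = y := Sym2.mem_iff
    by_cases v1 : v = w
    · subst v1
      have n1 : v ∈ s(v, x) := m1.2 (Or.inl rfl)
      have n2 : v ∉ s(w', y) := fun h => by
        rcases m2.1 h with h | h
        · exact hww h
        · exact hyw h.symm
      rw [if_pos n1, if_neg n2]
      split_ifs at e1 <;> omega
    by_cases v2 : v = w'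
    · subst v2
      have n1 : v ∉ s(w, x) := fun h => by
        rcases m1.1 h with h | h
        · exact v1 h
        · exact hxw' h.symm
      have n2 : v ∈ s(v, y) := m2.2 (Or.inl rfl)
      rw [if_neg n1, if_pos n2]
      split_ifs at e1 <;> omega
    by_cases v3 : v = x
    · subst v3
      have n2 : v ∉ s(w', y) := fun h => by
        rcases m2.1 h with h | h
        · exact v2 h
        · exact hxyne h
      rw [if_neg n2]
      rw [if_pos (m3.2 (Or.inl rfl))] at e1
      split_ifs <;> omega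
    by_cases v4 : v = y
    · subst v4
      have n1 : v ∉ s(w, x) := fun h => by
        rcases m1.1 h with h | h
        · exact v1 h
        · exact v3 h
      rw [if_neg n1]
      rw [if_pos (m3.2 (Or.inr rfl))] at e1
      split_ifs <;> omega
    · have n1 : v ∉ s(w, x) := fun h => by
        rcases m1.1 h with h | h
        · exact v1 h
        · exact v3 h
      have n2 : v ∉ s(w', y) := fun h => by
        rcases m2.1 h with h | h
        · exact v2 h
        · exact v4 h
      rw [if_neg n1, if_neg n2]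
      omega
  · rw [Finset.card_insert_of_notMem hnF2, Finset.card_insert_of_notMem hnF1]
    have := Finset.card_erase_add_one hxy
    rw [← hF1] at this
    omega

/-- degrees after a single swap -/
theorem swap_deg {w x y : V} (hxy : s(x, y) ∈ F) (hnF : s(w, x) ∉ F) (hxw : x ≠ w) (hyw : y ≠ w)
    (hne : x ≠ y) (v : V) : dF (insert s(w, x) (F.erase s(x, y))) v + (if v = y then 1 else 0)
      = dF F v + (if v = w then 1 else 0) := by
  classical
  rw [dF_insert (fun h => hnF (Finset.mem_of_mem_erase h))]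
  have e1 := dF_erase hxy v
  have m1 : v ∈ s(w, x) ↔ v = w ∨ v = x := Sym2.mem_iff
  have m3 : v ∈ s(x, y) ↔ v = x ∨ v = y := Sym2.mem_iff
  simp only [m1, m3] at e1 ⊢
  by_cases v1 : v = w
  · have v3 : v ≠ x := fun h => hxw (h.symm.trans v1)
    have v4 : v ≠ y := fun h => hyw (h.symm.trans v1)
    simp only [v1, true_or, if_true] at e1 ⊢
    rw [v1] at v3 v4
    simp only [v3, v4, or_self, if_false] at e1 ⊢
    omega
  by_cases v3 : v = x
  · have v4 : v ≠ y := fun h => hne (v3.symm.trans h)
    simp only [v3, or_true, true_or, if_true] at e1 ⊢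
    rw [v3] at v1 v4
    simp only [v1, v4, if_false]
    omega
  by_cases v4 : v = y
  · simp only [v4, or_true, if_true] at e1 ⊢
    rw [v4] at v1 v3
    simp only [v1, v3, or_self, if_false]
    omega
  · simp only [v1, v3, v4, or_self, if_false] at e1 ⊢
    omega

theorem wide_arith {c t β σ : ℕ} (hβ : 7 ≤ β) (hc : β + 1 ≤ c) (ht : 12 ≤ t)
    (hσ : c + t ≤ σ + β) (h : c * (σ * (β - 3)) ≤ 2 * ((c - 1) * (2 * c + t))) : False := by
  obtain ⟨b, rfl⟩ : ∃ b, β = 7 + b := ⟨β - 7, by omega⟩
  obtain ⟨a, rfl⟩ : ∃ a, c = a + 8 + b := ⟨c - 8 - b, by omega⟩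
  obtain ⟨e, rfl⟩ : ∃ e, t = 12 + e := ⟨t - 12, by omega⟩
  obtain ⟨f, rfl⟩ : ∃ f, σ = a + 13 + e + f := ⟨σ - (a + 13 + e), by omega⟩
  have e1 : 7 + b - 3 = 4 + b := by omega
  have e2 : a + 8 + b - 1 = a + 7 + b := by omega
  rw [e1, e2] at h
  nlinarith [Nat.zero_le (a * b), Nat.zero_le (e * b), Nat.zero_le (f * b), Nat.zero_le (a * f),
    Nat.zero_le (a * e), Nat.zero_le (a * a * b), Nat.zero_le (a * b * b), Nat.zero_le (b * b),
    Nat.zero_le (b * b * e), Nat.zero_le (a * b * e), Nat.zero_le (a * b * f),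
    Nat.zero_le (b * b * f), Nat.zero_le (b * b * b)]

theorem wide_main (hF : Adm H c b F) (hb : ∀ v, b v ≤ 1)
    (hdeg : ∀ v, b v = 1 → (cn H {v}).card + 1 ≤ c)
    (hno : ¬ ∃ F', Adm H c b F' ∧ F'.card = F.card + 1) {w w' : V} (hww : w ≠ w')
    (hw : dF F w < b w) (hw' : dF F w' < b w')
    (hle : (bs H F c b w').card ≤ (bs H F c b w).card)
    (hmin : ∀ F' u u', Adm H c b F' → F'.card = F.card → u ≠ u' → dF F' u < b u →
      dF F' u' < b u' → (bs H F c b w).card + (bs H F c b w').card
        ≤ (bs H F' c b u).card + (bs H F' c b u').card)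
    (hs : 2 * F.card + 2 ≤ (univ.filter (fun v => b v = 1)).card) {t : ℕ}
    (ht : (univ.filter (fun v => b v = 1)).card = 2 * c + t)
    (hbig : 12 ≤ t) : False := by
  classical
  have free : ∀ u, dF F u < b u → dF F u = 0 ∧ b u = 1 := by
    intro u hu
    have := hb u
    omega
  have nF : ∀ u, dF F u < b u → ∀ z, s(u, z) ∉ F := fun u hu => noedge (free u hu).1
  have nAd : ∀ u, dF F u < b u → ∀ z, ¬ H.Adj u z → ¬ Ad H F u z := by
    intro u hu z hz h
    rcases h with h | h
    · exact hz h
    · exact nF u hu z h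
  have sat : ∀ u, dF F u < b u → ∀ x ∈ gs H F c b u, dF F x = 1 := by
    intro u hu x hx
    obtain ⟨x1, x2, x3, x4⟩ := mem_gs.1 hx
    by_contra hlt
    have h1 := hF.2 x
    have h2 : dF F x = 0 := by omega
    have hnF := nF u hu x
    refine hno ⟨insert s(u, x) F, ⟨add_good2 hF.1 (Finset.Subset.refl _) x2 x3 x4 (nF u hu)
      (noedge h2), ?_⟩, Finset.card_insert_of_notMem hnF⟩
    intro v
    rw [dF_insert hnF]
    have hv := hF.2 v
    split_ifs with h
    · rcases Sym2.mem_iff.1 h with rfl | rfl <;> omega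
    · omega
  have safe2 : ∀ u, dF F u < b u → ∀ x ∈ gs H F c b u, ∀ y, s(x, y) ∈ F →
      Good H c (insert s(u, x) (F.erase s(x, y))) := by
    intro u hu x hx y hxy
    obtain ⟨x1, x2, x3, x4⟩ := mem_gs.1 hx
    refine add_good2 hF.1 (Finset.erase_subset _ _) x2 x3 x4
      (fun z h => nF u hu z (Finset.mem_of_mem_erase h)) (noedge ?_)
    have h1 := dF_erase hxy x
    rw [if_pos (Sym2.mem_mk_left x y)] at h1
    have := sat u hu x hx
    omega
  have swapE : ∀ x y : V, s(x, y) ∈ F → s(y, x) ∈ F := by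
    intro x y h
    rwa [show s(y, x) = s(x, y) from Sym2.eq_swap]
  have key : ∀ x y, s(x, y) ∈ F → x ∈ gs H F c b w → y ∈ gs H F c b w' →
      x ∉ gs H F c b w' ∧ y ∉ gs H F c b w := by
    intro x y hxy hx hy
    obtain ⟨x1, x2, x3, x4⟩ := mem_gs.1 hx
    obtain ⟨y1, y2, y3, y4⟩ := mem_gs.1 hy
    have hg' : Good H c (insert s(w', y) (F.erase s(x, y))) := by
      have := safe2 w' hw' y hy x (swapE x y hxy)
      rwa [show s(y, x) = s(x, y) from Sym2.eq_swap] at this
    have h : Ad H F w' x ∧ Ad H F w y := by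
      by_contra hn
      exact hno (hF.swap3 hww hw hw' (by rw [sat w hw x hx, x1]) (by rw [sat w' hw' y hy, y1])
        x2 (nAd w hw x x3) (nAd w' hw' y y3) hxy (safe2 w hw x hx y hxy) hg' hn)
    refine ⟨fun h' => ?_, fun h' => ?_⟩
    · exact nAd w' hw' x (mem_gs.1 h').2.2.1 h.1
    · exact nAd w hw y (mem_gs.1 h').2.2.1 h.2
  have hedge : ∀ e ∈ F, ((gs H F c b w).filter (fun v => v ∈ e)).card +
      ((gs H F c b w').filter (fun v => v ∈ e)).card ≤ 2 := by
    intro e he
    induction e using Sym2.ind with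
    | _ x y =>
      have h1 := card_filter_mem_le (gs H F c b w) x y
      have h2 := card_filter_mem_le (gs H F c b w') x y
      have k1 := key x y he
      have k2 := key y x (swapE x y he)
      by_cases a1 : x ∈ gs H F c b w <;> by_cases a2 : y ∈ gs H F c b w <;>
        by_cases a3 : x ∈ gs H F c b w' <;> by_cases a4 : y ∈ gs H F c b w' <;>
        simp only [a1, a2, a3, a4, if_true, if_false, not_true_eq_false, not_false_eq_true,
          and_self, and_true, and_false, forall_const, imp_false] at h1 h2 k1 k2 <;>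
        omega
  have hsum := Finset.sum_le_sum hedge
  rw [Finset.sum_add_distrib, ← sum_dF_on, ← sum_dF_on, Finset.sum_const, smul_eq_mul] at hsum
  have hlow : ∀ u, dF F u < b u → ∑ v ∈ gs H F c b u, dF F v = (gs H F c b u).card := by
    intro u hu
    rw [Finset.sum_congr rfl (fun v hv => sat u hu v hv)]
    simp
  rw [hlow w hw, hlow w' hw'] at hsum
  -- partners
  have hex : ∀ x, ∃ y, dF F x = 1 → s(x, y) ∈ F := by
    intro x
    by_cases hx : dF F x = 1
    · have hpos : 0 < (F.filter (fun e => x ∈ e)).card := by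
        change 0 < dF F x
        omega
      obtain ⟨e, he⟩ := Finset.card_pos.1 hpos
      obtain ⟨heF, hxe⟩ := Finset.mem_filter.1 he
      obtain ⟨y, rfl⟩ := Sym2.mem_iff_exists.1 hxe
      exact ⟨y, fun _ => heF⟩
    · exact ⟨x, fun h => absurd h hx⟩
  choose m hm using hex
  have hbm : ∀ x y, s(x, y) ∈ F → b y = 1 := by
    intro x y h
    have h1 : 0 < dF F y := by
      unfold dF
      exact Finset.card_pos.2 ⟨s(x, y), Finset.mem_filter.2 ⟨h, Sym2.mem_mk_right x y⟩⟩
    have h2 := hF.2 y
    have h3 := hb y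
    omega
  have hmove : ∀ x ∈ gs H F c b w, (bs H F c b w).card ≤ (bs H F c b (m x)).card + 3 := by
    intro x hx
    obtain ⟨x1, x2, x3, x4⟩ := mem_gs.1 hx
    have hxy := hm x (sat w hw x hx)
    have hG2 := safe2 w hw x hx (m x) hxy
    have hyw : m x ≠ w := fun h => nF w hw x (by rw [← h]; exact swapE _ _ hxy)
    have hyw' : m x ≠ w' := fun h => nF w' hw' x (by rw [← h]; exact swapE _ _ hxy)
    have hne : x ≠ m x := fun h => (hF.1.1 _ hxy).1 (Sym2.mk_isDiag_iff.2 h)
    have hD := swap_deg hxy (nF w hw x) x2 hyw hne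
    have hA2 : Adm H c b (insert s(w, x) (F.erase s(x, m x))) := by
      refine ⟨hG2, ?_⟩
      intro v
      have h1 := hD v
      have h2 := hF.2 v
      by_cases v1 : v = w
      · rw [v1] at h1 ⊢
        rw [if_pos rfl] at h1
        split_ifs at h1 <;> omega
      · rw [if_neg v1] at h1
        omega
    have hc2 : (insert s(w, x) (F.erase s(x, m x))).card = F.card := by
      rw [Finset.card_insert_of_notMem (fun h => nF w hw x (Finset.mem_of_mem_erase h))]
      exact Finset.card_erase_add_one hxy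
    have hy2 := hD (m x)
    rw [if_pos rfl, if_neg hyw] at hy2
    have hw2 := hD w'
    rw [if_neg (Ne.symm hyw'), if_neg (Ne.symm hww)] at hw2
    have hby := hbm x (m x) hxy
    have hyF := hF.2 (m x)
    have h1 := hmin _ (m x) w' hA2 hc2 hyw' (by omega) (by omega)
    have hsub2 : insert s(w, x) (F.erase s(x, m x)) ⊆ insert s(w, x) F :=
      Finset.insert_subset_insert _ (Finset.erase_subset _ _)
    have h2 := bs_swap (b := b) (F := F) hG2 hsub2 (hdeg (m x) hby) 1 0 (fun _ => le_rfl)
      (fun h => absurd (by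
        rw [SimpleGraph.mem_edgeSet]
        exact h.symm) (hF.1.1 _ hxy).2)
    have h3 := bs_swap (b := b) (F := F) hG2 hsub2 (hdeg w' (free w' hw').2) 1 1
      (fun _ => le_rfl) (fun _ => le_rfl)
    omega
  have hinj : Set.InjOn m (gs H F c b w : Set V) := by
    intro x1 h1 x2 h2 heq
    rw [Finset.mem_coe] at h1 h2
    have k1 := hm x1 (sat w hw x1 h1)
    have k2 := hm x2 (sat w hw x2 h2)
    rw [← heq] at k2
    have h3 : (F.filter (fun e => m x1 ∈ e)).card ≤ 1 := (hF.2 (m x1)).trans (hb _)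
    have h4 := Finset.card_le_one.1 h3 _ (Finset.mem_filter.2 ⟨k1, Sym2.mem_mk_right _ _⟩) _
      (Finset.mem_filter.2 ⟨k2, Sym2.mem_mk_right _ _⟩)
    rcases Sym2.eq_iff.1 h4 with ⟨h, -⟩ | ⟨h, h'⟩
    · exact h
    · exact h.trans h'
  have hcount : c * ((gs H F c b w).card * ((bs H F c b w).card - 3))
      ≤ 2 * ((c - 1) * (univ.filter (fun v => b v = 1)).card) := by
    refine le_trans (Nat.mul_le_mul_left c ?_) (sum_bs hF.1 hdeg)
    calc (gs H F c b w).card * ((bs H F c b w).card - 3)
        = ∑ _x ∈ gs H F c b w, ((bs H F c b w).card - 3) := by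
          rw [Finset.sum_const, smul_eq_mul]
      _ ≤ ∑ x ∈ gs H F c b w, (bs H F c b (m x)).card := Finset.sum_le_sum fun x hx => by
          have := hmove x hx
          omega
      _ = ∑ u ∈ (gs H F c b w).image m, (bs H F c b u).card := by
          rw [Finset.sum_image hinj]
      _ ≤ _ := by
          refine Finset.sum_le_sum_of_subset ?_
          intro u hu
          obtain ⟨x, hx, rfl⟩ := Finset.mem_image.1 hu
          exact Finset.mem_filter.2 ⟨Finset.mem_univ _, hbm x _ (hm x (sat w hw x hx))⟩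
  have g1 := card_W_le (H := H) (c := c) (b := b) (F := F) w
  have g2 := card_W_le (H := H) (c := c) (b := b) (F := F) w'
  have d1 := hdeg w (free w hw).2
  have d2 := hdeg w' (free w' hw').2
  have q1 := card_bs_le hF.1 hdeg (free w hw).2
  rw [ht] at hcount g1 g2 hs
  exact wide_arith (c := c) (t := t) (β := (bs H F c b w).card) (σ := (gs H F c b w).card)
    (by omega) (by omega) hbig (by omega) hcount

theorem wide_step (hF : Adm H c b F) (hb : ∀ v, b v ≤ 1)
    (hdeg : ∀ v, b v = 1 → (cn H {v}).card + 1 ≤ c)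
    (hs : 2 * F.card + 2 ≤ (univ.filter (fun v => b v = 1)).card) {t : ℕ}
    (ht : (univ.filter (fun v => b v = 1)).card = 2 * c + t)
    (hbig : 12 ≤ t) :
    ∃ F', Adm H c b F' ∧ F'.card = F.card + 1 := by
  classical
  by_contra hno
  set T : Finset (Finset (Sym2 V) × V × V) := univ.filter (fun q => Adm H c b q.1 ∧
    q.1.card = F.card ∧ q.2.1 ≠ q.2.2 ∧ dF q.1 q.2.1 < b q.2.1 ∧ dF q.1 q.2.2 < b q.2.2) with hT
  have hTn : T.Nonempty := by
    by_contra hcon
    have huniq : ∀ u u', dF F u < b u → dF F u' < b u' → u = u' := by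
      intro u u' h1 h2
      by_contra hne
      exact hcon ⟨(F, u, u'), Finset.mem_filter.2 ⟨Finset.mem_univ _, hF, rfl, hne, h1, h2⟩⟩
    have h3 : ∑ v, b v ≤ ∑ v, (dF F v + if dF F v < b v then 1 else 0) :=
      Finset.sum_le_sum fun v _ => by
        have := hb v
        split_ifs <;> omega
    rw [Finset.sum_add_distrib, sum_dF (fun e he => (hF.1.1 e he).1), ← Finset.card_filter] at h3
    have h4 : (univ.filter (fun v => dF F v < b v)).card ≤ 1 := by
      rw [Finset.card_le_one]
      intro a ha b' hb'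
      exact huniq a b' (Finset.mem_filter.1 ha).2 (Finset.mem_filter.1 hb').2
    have h5 : (univ.filter (fun v => b v = 1)).card ≤ ∑ v, b v := by
      rw [Finset.card_filter]
      refine Finset.sum_le_sum fun v _ => ?_
      split_ifs with h
      · omega
      · omega
    omega
  obtain ⟨q, hq, hmin⟩ := Finset.exists_min_image T
    (fun q => (bs H q.1 c b q.2.1).card + (bs H q.1 c b q.2.2).card) hTn
  obtain ⟨-, q1, q2, q3, q4, q5⟩ := Finset.mem_filter.1 hq
  have hmin' : ∀ F' u u', Adm H c b F' → F'.card = q.1.card → u ≠ u' → dF F' u < b u →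
      dF F' u' < b u' → (bs H q.1 c b q.2.1).card + (bs H q.1 c b q.2.2).card
        ≤ (bs H F' c b u).card + (bs H F' c b u').card := by
    intro F' u u' h1 h2 h3 h4 h5
    exact hmin (F', u, u') (Finset.mem_filter.2 ⟨Finset.mem_univ _, h1, h2.trans q2, h3, h4, h5⟩)
  have hno' : ¬ ∃ F', Adm H c b F' ∧ F'.card = q.1.card + 1 := by
    rw [q2]
    exact hno
  rcases le_total (bs H q.1 c b q.2.2).card (bs H q.1 c b q.2.1).card with h | h
  · exact wide_main q1 hb hdeg hno' q3 q4 q5 h hmin' (by rw [q2]; exact hs) ht hbig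
  · refine wide_main q1 hb hdeg hno' q3.symm q5 q4 h ?_ (by rw [q2]; exact hs) ht hbig
    intro F' u u' h1 h2 h3 h4 h5
    have := hmin' F' u u' h1 h2 h3 h4 h5
    omega

theorem wide_gen (h0 : Good H c ∅) (hb : ∀ v, b v ≤ 1)
    (hdeg : ∀ v, b v = 1 → (cn H {v}).card + 1 ≤ c) {t : ℕ}
    (ht : (univ.filter (fun v => b v = 1)).card = 2 * c + t)
    (hbig : 12 ≤ t)
    (m : ℕ) (hm : 2 * m ≤ 2 * c + t) : ∃ F, Adm H c b F ∧ F.card = m := by
  induction m with
  | zero => exact ⟨∅, ⟨h0, fun v => by simp [dF]⟩, Finset.card_empty⟩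
  | succ m ih =>
    obtain ⟨F, hF, hFc⟩ := ih (by omega)
    obtain ⟨F', hF', hc'⟩ := wide_step hF hb hdeg (by omega) ht hbig
    exact ⟨F', hF', by omega⟩

end

end Pool.Agent.RE26.Dr
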