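import Pool.Agent.DenseRg.Fin

/-!
# MP_df1a54_co, wide range: bad pairs of a matching

`Dat H F c u z P Q`: adding `u z` to `H + F` (without the `F`-edges at `u`, `z`) creates a complete
pair on `c + 2` vertices, `(P + z, Q + u)`.  The total number of bad pairs is small.
-/

open Finset

set_option linter.unusedSectionVars false

namespace Pool.Agent.RE26.Dr

variable {V : Type} [Fintype V] [DecidableEq V]

/-- `(P + z, Q + u)` is complete up to the pair `z u`, with only edges of `H` at `z` and `u` -/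
def Dat (H : SimpleGraph V) (F : Finset (Sym2 V)) (c : ℕ) (u z : V) (P Q : Finset V) : Prop :=
  c ≤ P.card + Q.card ∧ (∀ p ∈ P, ∀ q ∈ Q, Ad H F p q) ∧ (∀ p ∈ P, H.Adj u p) ∧
    ∀ q ∈ Q, H.Adj z q

theorem Dat.symm {H : SimpleGraph V} {F : Finset (Sym2 V)} {c : ℕ} {u z : V} {P Q : Finset V}
    (h : Dat H F c u z P Q) : Dat H F c z u Q P :=
  ⟨by have := h.1; omega, fun q hq p hp => (h.2.1 p hp q hq).symm, h.2.2.2, h.2.2.1⟩

/-- the pair `u z` is bad -/
def Bd2 (H : SimpleGraph V) (F : Finset (Sym2 V)) (c : ℕ) (u z : V) : Prop :=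
  ∃ P Q, Dat H F c u z P Q

theorem good' {H : SimpleGraph V} {c : ℕ} {F : Finset (Sym2 V)} (hF : Good H c F)
    (A B : Finset V) (hA : A.Nonempty) (hB : B.Nonempty) (h : ∀ a ∈ A, ∀ b ∈ B, Ad H F a b) :
    A.card + B.card ≤ c + 1 :=
  hF.2 A B hA hB (Finset.disjoint_left.2 fun a ha hb => (h a ha a hb).ne hF rfl) h

/-- a safe addition -/
theorem add_good2 {H : SimpleGraph V} {c : ℕ} {F F1 : Finset (Sym2 V)} (hF : Good H c F)
    (hsub : F1 ⊆ F) {w x : V} (hwx : x ≠ w) (hna : ¬ H.Adj w x) (hbad : ¬ Bd2 H F c w x)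
    (hw : ∀ z, s(w, z) ∉ F1) (hx : ∀ z, s(x, z) ∉ F1) : Good H c (insert s(w, x) F1) := by
  classical
  have core : ∀ A B : Finset V, Disjoint A B →
      (∀ a ∈ A, ∀ b ∈ B, H.Adj a b ∨ s(a, b) ∈ insert s(w, x) F1) → x ∈ A → w ∈ B →
      A.card + B.card ≤ c + 1 := by
    intro A B hdis hAB hxA hwB
    by_contra hlt
    push Not at hlt
    have hPc := Finset.card_erase_add_one hxA
    have hQc := Finset.card_erase_add_one hwB
    refine hbad ⟨A.erase x, B.erase w, by omega, ?_, ?_, ?_⟩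
    · intro p hp q hq
      obtain ⟨hpx, hpA⟩ := Finset.mem_erase.1 hp
      obtain ⟨hqw, hqB⟩ := Finset.mem_erase.1 hq
      rcases hAB p hpA q hqB with h | h
      · exact Or.inl h
      · rcases Finset.mem_insert.1 h with h | h
        · exfalso
          rcases Sym2.eq_iff.1 h with ⟨h1, -⟩ | ⟨h1, -⟩
          · rw [h1] at hpA
            exact Finset.disjoint_left.1 hdis hpA hwB
          · exact hpx h1
        · exact Or.inr (hsub h)
    · intro p hp
      obtain ⟨hpx, hpA⟩ := Finset.mem_erase.1 hp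
      rcases hAB p hpA w hwB with h | h
      · exact h.symm
      · rcases Finset.mem_insert.1 h with h | h
        · exfalso
          rcases Sym2.eq_iff.1 h with ⟨-, h1⟩ | ⟨h1, -⟩
          · exact hwx h1.symm
          · exact hpx h1
        · exact absurd (by rw [show s(w, p) = s(p, w) from Sym2.eq_swap]; exact h) (hw p)
    · intro q hq
      obtain ⟨hqw, hqB⟩ := Finset.mem_erase.1 hq
      rcases hAB x hxA q hqB with h | h
      · exact h
      · rcases Finset.mem_insert.1 h with h | h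
        · exfalso
          rcases Sym2.eq_iff.1 h with ⟨h1, -⟩ | ⟨-, h1⟩
          · exact hwx h1
          · exact hqw h1
        · exact absurd h (hx q)
  refine ⟨?_, ?_⟩
  · intro e he
    rcases Finset.mem_insert.1 he with rfl | he
    · refine ⟨fun h => hwx (Sym2.mk_isDiag_iff.1 h).symm, ?_⟩
      rw [SimpleGraph.mem_edgeSet]
      exact hna
    · exact hF.1 e (hsub he)
  · intro A B hA hB hdis hAB
    by_cases h1 : x ∈ A ∧ w ∈ B
    · exact core A B hdis hAB h1.1 h1.2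
    by_cases h2 : x ∈ B ∧ w ∈ A
    · have := core B A hdis.symm (fun b hb a ha => by
        rcases hAB a ha b hb with h | h
        · exact Or.inl h.symm
        · exact Or.inr (by rw [show s(b, a) = s(a, b) from Sym2.eq_swap]; exact h)) h2.1 h2.2
      omega
    refine hF.2 A B hA hB hdis ?_
    intro a ha b hb
    rcases hAB a ha b hb with h | h
    · exact Or.inl h
    · rcases Finset.mem_insert.1 h with h | h
      · exfalso
        rcases Sym2.eq_iff.1 h with ⟨ha', hb'⟩ | ⟨ha', hb'⟩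
        · exact h2 ⟨hb' ▸ hb, ha' ▸ ha⟩
        · exact h1 ⟨ha' ▸ ha, hb' ▸ hb⟩
      · exact Or.inr (hsub h)

theorem sub_cn {H : SimpleGraph V} {u : V} {P : Finset V} (h : ∀ p ∈ P, H.Adj u p) :
    P ⊆ cn H {u} := by
  intro p hp
  refine (mem_cn H {u} p).2 ?_
  intro j hj
  rw [Finset.mem_singleton.1 hj]
  exact h p hp

/-- for fixed `u`, the sets `P` of different bad partners are disjoint -/
theorem uniq {H : SimpleGraph V} {c : ℕ} {F : Finset (Sym2 V)} (hF : Good H c F) {u : V}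
    (hu : (cn H {u}).card + 1 ≤ c) {z1 z2 : V} {P1 Q1 P2 Q2 : Finset V}
    (h1 : Dat H F c u z1 P1 Q1) (h2 : Dat H F c u z2 P2 Q2) (n1 : ¬ H.Adj u z1)
    (n2 : ¬ H.Adj u z2) {p : V} (hp1 : p ∈ P1) (hp2 : p ∈ P2) : z1 = z2 := by
  classical
  by_contra hne
  obtain ⟨s1, c1, a1, b1⟩ := h1
  obtain ⟨s2, c2, a2, b2⟩ := h2
  have huQ : u ∉ Q1 ∪ Q2 := by
    intro h
    rcases Finset.mem_union.1 h with h | h
    · exact n1 (b1 u h).symm
    · exact n2 (b2 u h).symm
  have e3 := good' hF (P1 ∩ P2) (insert u (Q1 ∪ Q2)) ⟨p, Finset.mem_inter.2 ⟨hp1, hp2⟩⟩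
    ⟨u, Finset.mem_insert_self _ _⟩ (by
      intro a ha b hb
      obtain ⟨ha1, ha2⟩ := Finset.mem_inter.1 ha
      rcases Finset.mem_insert.1 hb with rfl | hb
      · exact Or.inl (a1 a ha1).symm
      rcases Finset.mem_union.1 hb with hb | hb
      · exact c1 a ha1 b hb
      · exact c2 a ha2 b hb)
  rw [Finset.card_insert_of_notMem huQ] at e3
  have e1 := Finset.card_union_add_card_inter P1 P2
  have e2 := Finset.card_union_add_card_inter Q1 Q2
  have hPu : ∀ p ∈ P1 ∪ P2, H.Adj u p := by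
    intro p hp
    rcases Finset.mem_union.1 hp with hp | hp
    · exact a1 p hp
    · exact a2 p hp
  by_cases hQ : (Q1 ∩ Q2).Nonempty
  · have m2 : z2 ∉ P1 ∪ P2 := fun h => n2 (hPu z2 h)
    have m1 : z1 ∉ insert z2 (P1 ∪ P2) := by
      intro h
      rcases Finset.mem_insert.1 h with h | h
      · exact hne h
      · exact n1 (hPu z1 h)
    have e4 := good' hF (insert z1 (insert z2 (P1 ∪ P2))) (Q1 ∩ Q2)
      ⟨z1, Finset.mem_insert_self _ _⟩ hQ (by
        intro a ha b hb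
        obtain ⟨hb1, hb2⟩ := Finset.mem_inter.1 hb
        rcases Finset.mem_insert.1 ha with rfl | ha
        · exact Or.inl (b1 b hb1)
        rcases Finset.mem_insert.1 ha with rfl | ha
        · exact Or.inl (b2 b hb2)
        rcases Finset.mem_union.1 ha with ha | ha
        · exact c1 a ha b hb1
        · exact c2 a ha b hb2)
    rw [Finset.card_insert_of_notMem m1, Finset.card_insert_of_notMem m2] at e4
    omega
  · rw [Finset.not_nonempty_iff_eq_empty] at hQ
    rw [hQ, Finset.card_empty] at e2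
    have h2 := Finset.card_le_card (sub_cn hPu)
    omega

theorem sum_P_le {H : SimpleGraph V} {c : ℕ} {F : Finset (Sym2 V)} (hF : Good H c F) {u : V}
    (hu : (cn H {u}).card + 1 ≤ c) (T : Finset V) (P Q : V → Finset V)
    (hT : ∀ z ∈ T, ¬ H.Adj u z ∧ Dat H F c u z (P z) (Q z)) :
    ∑ z ∈ T, (P z).card ≤ (cn H {u}).card := by
  classical
  rw [← Finset.card_biUnion]
  · refine Finset.card_le_card ?_
    intro p hp
    obtain ⟨z, hz, hp⟩ := Finset.mem_biUnion.1 hp
    exact sub_cn (hT z hz).2.2.2.1 hp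
  · intro z1 h1 z2 h2 hne
    refine Finset.disjoint_left.2 ?_
    intro p hp1 hp2
    exact hne (uniq hF hu (hT z1 h1).2 (hT z2 h2).2 (hT z1 h1).1 (hT z2 h2).1 hp1 hp2)

open Classical in
/-- the bad partners of `u` among the vertices with `b = 1` -/
noncomputable def bs (H : SimpleGraph V) (F : Finset (Sym2 V)) (c : ℕ) (b : V → ℕ) (u : V) :
    Finset V :=
  univ.filter (fun z => b z = 1 ∧ z ≠ u ∧ ¬ H.Adj u z ∧ Bd2 H F c u z)

open Classical in
/-- the good partners of `u` among the vertices with `b = 1` -/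
noncomputable def gs (H : SimpleGraph V) (F : Finset (Sym2 V)) (c : ℕ) (b : V → ℕ) (u : V) :
    Finset V :=
  univ.filter (fun z => b z = 1 ∧ z ≠ u ∧ ¬ H.Adj u z ∧ ¬ Bd2 H F c u z)

theorem mem_bs {H : SimpleGraph V} {F : Finset (Sym2 V)} {c : ℕ} {b : V → ℕ} {u z : V} :
    z ∈ bs H F c b u ↔ b z = 1 ∧ z ≠ u ∧ ¬ H.Adj u z ∧ Bd2 H F c u z := by
  classical
  unfold bs
  simp

theorem mem_gs {H : SimpleGraph V} {F : Finset (Sym2 V)} {c : ℕ} {b : V → ℕ} {u z : V} :
    z ∈ gs H F c b u ↔ b z = 1 ∧ z ≠ u ∧ ¬ H.Adj u z ∧ ¬ Bd2 H F c u z := by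
  classical
  unfold gs
  simp

theorem bs_symm {H : SimpleGraph V} {F : Finset (Sym2 V)} {c : ℕ} {b : V → ℕ} {u z : V}
    (hu : b u = 1) (h : z ∈ bs H F c b u) : u ∈ bs H F c b z := by
  obtain ⟨-, h2, h3, P, Q, h4⟩ := mem_bs.1 h
  exact mem_bs.2 ⟨hu, h2.symm, fun hh => h3 hh.symm, Q, P, h4.symm⟩

section

variable {H : SimpleGraph V} {c : ℕ} {b : V → ℕ} {F : Finset (Sym2 V)}

theorem card_bs_le (hF : Good H c F) (hdeg : ∀ v, b v = 1 → (cn H {v}).card + 1 ≤ c) {u : V}
    (hu : b u = 1) : (bs H F c b u).card ≤ (cn H {u}).card := by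
  classical
  have hex : ∀ z, ∃ P Q : Finset V, z ∈ bs H F c b u → Dat H F c u z P Q := by
    intro z
    by_cases hz : z ∈ bs H F c b u
    · obtain ⟨-, -, -, P, Q, h⟩ := mem_bs.1 hz
      exact ⟨P, Q, fun _ => h⟩
    · exact ⟨∅, ∅, fun h => absurd h hz⟩
  choose P Q hPQ using hex
  have h1 := sum_P_le hF (hdeg u hu) (bs H F c b u) P Q
    (fun z hz => ⟨(mem_bs.1 hz).2.2.1, hPQ z hz⟩)
  refine le_trans ?_ h1
  calc (bs H F c b u).card = ∑ _z ∈ bs H F c b u, 1 := by simp
    _ ≤ _ := Finset.sum_le_sum fun z hz => by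
      have h2 := (hPQ z hz).1
      have h3 := Finset.card_le_card (sub_cn (hPQ z hz).2.2.2)
      have h4 := hdeg z (mem_bs.1 hz).1
      omega

theorem sum_bs (hF : Good H c F) (hdeg : ∀ v, b v = 1 → (cn H {v}).card + 1 ≤ c) :
    c * ∑ u ∈ univ.filter (fun v => b v = 1), (bs H F c b u).card
      ≤ 2 * ((c - 1) * (univ.filter (fun v => b v = 1)).card) := by
  classical
  set W := univ.filter (fun v => b v = 1) with hW
  have hWm : ∀ v, v ∈ W ↔ b v = 1 := by intro v; rw [hW]; simp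
  have hex : ∀ u z, ∃ P Q : Finset V, z ∈ bs H F c b u → Dat H F c u z P Q := by
    intro u z
    by_cases hz : z ∈ bs H F c b u
    · obtain ⟨-, -, -, P, Q, h⟩ := mem_bs.1 hz
      exact ⟨P, Q, fun _ => h⟩
    · exact ⟨∅, ∅, fun h => absurd h hz⟩
  choose P Q hPQ using hex
  have h1 : ∀ u ∈ W, ∑ z ∈ bs H F c b u, (P u z).card ≤ c - 1 := by
    intro u hu
    have hd := hdeg u ((hWm u).1 hu)
    have := sum_P_le hF hd (bs H F c b u) (P u) (Q u)
      (fun z hz => ⟨(mem_bs.1 hz).2.2.1, hPQ u z hz⟩)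
    omega
  have h2 : ∀ z ∈ W, ∑ u ∈ bs H F c b z, (Q u z).card ≤ c - 1 := by
    intro z hz
    have hd := hdeg z ((hWm z).1 hz)
    have := sum_P_le hF hd (bs H F c b z) (fun u => Q u z) (fun u => P u z)
      (fun u hu => ⟨(mem_bs.1 hu).2.2.1, (hPQ u z (bs_symm ((hWm z).1 hz) hu)).symm⟩)
    omega
  have h3 : ∑ u ∈ W, ∑ z ∈ bs H F c b u, (Q u z).card
      = ∑ z ∈ W, ∑ u ∈ bs H F c b z, (Q u z).card := by
    refine Finset.sum_comm' ?_
    intro u z
    constructor
    · rintro ⟨hu, hz⟩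
      exact ⟨bs_symm ((hWm u).1 hu) hz, (hWm z).2 (mem_bs.1 hz).1⟩
    · rintro ⟨hu, hz⟩
      exact ⟨(hWm u).2 (mem_bs.1 hu).1, bs_symm ((hWm z).1 hz) hu⟩
  calc c * ∑ u ∈ W, (bs H F c b u).card = ∑ u ∈ W, ∑ _z ∈ bs H F c b u, c := by
        rw [Finset.mul_sum]
        refine Finset.sum_congr rfl fun u _ => ?_
        rw [Finset.sum_const, smul_eq_mul, mul_comm]
    _ ≤ ∑ u ∈ W, ∑ z ∈ bs H F c b u, ((P u z).card + (Q u z).card) :=
        Finset.sum_le_sum fun u _ => Finset.sum_le_sum fun z hz => (hPQ u z hz).1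
    _ = ∑ u ∈ W, ∑ z ∈ bs H F c b u, (P u z).card
        + ∑ u ∈ W, ∑ z ∈ bs H F c b u, (Q u z).card := by
        rw [← Finset.sum_add_distrib]
        refine Finset.sum_congr rfl fun u _ => ?_
        rw [Finset.sum_add_distrib]
    _ ≤ W.card * (c - 1) + W.card * (c - 1) := by
        rw [h3]
        refine Nat.add_le_add ?_ ?_
        · refine (Finset.sum_le_sum h1).trans ?_
          rw [Finset.sum_const, smul_eq_mul]
        · refine (Finset.sum_le_sum h2).trans ?_
          rw [Finset.sum_const, smul_eq_mul]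
    _ = 2 * ((c - 1) * W.card) := by ring

/-- how the number of bad partners changes when the edge `w x` is added -/
theorem bs_swap {F2 : Finset (Sym2 V)} (hF2 : Good H c F2) {w x : V}
    (hsub : F2 ⊆ insert s(w, x) F) {u : V} (hu : (cn H {u}).card + 1 ≤ c) (e1 e2 : ℕ)
    (he1 : H.Adj u w → 1 ≤ e1) (he2 : H.Adj u x → 1 ≤ e2) :
    (bs H F2 c b u).card ≤ (bs H F c b u).card + e1 + e2 := by
  classical
  have hE : ∀ v e, (H.Adj u v → 1 ≤ e) → ((bs H F2 c b u).filter
      (fun z => ∃ P Q, Dat H F2 c u z P Q ∧ v ∈ P)).card ≤ e := by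
    intro v e hve
    by_cases hv : H.Adj u v
    · refine le_trans ?_ (hve hv)
      rw [Finset.card_le_one]
      intro z1 h1 z2 h2
      obtain ⟨k1, P1, Q1, d1, m1⟩ := Finset.mem_filter.1 h1
      obtain ⟨k2, P2, Q2, d2, m2⟩ := Finset.mem_filter.1 h2
      exact uniq hF2 hu d1 d2 (mem_bs.1 k1).2.2.1 (mem_bs.1 k2).2.2.1 m1 m2
    · refine le_trans (le_of_eq ?_) (Nat.zero_le e)
      rw [Finset.card_eq_zero, Finset.filter_eq_empty_iff]
      rintro z - ⟨P, Q, d, m⟩
      exact hv (d.2.2.1 v m)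
  have hs : bs H F2 c b u ⊆ bs H F c b u ∪
      ((bs H F2 c b u).filter (fun z => ∃ P Q, Dat H F2 c u z P Q ∧ w ∈ P) ∪
        (bs H F2 c b u).filter (fun z => ∃ P Q, Dat H F2 c u z P Q ∧ x ∈ P)) := by
    intro z hz
    obtain ⟨k1, k2, k3, P, Q, d⟩ := mem_bs.1 hz
    by_cases hw : w ∈ P
    · exact Finset.mem_union_right _ (Finset.mem_union_left _
        (Finset.mem_filter.2 ⟨hz, P, Q, d, hw⟩))
    by_cases hx : x ∈ P
    · exact Finset.mem_union_right _ (Finset.mem_union_right _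
        (Finset.mem_filter.2 ⟨hz, P, Q, d, hx⟩))
    refine Finset.mem_union_left _ (mem_bs.2 ⟨k1, k2, k3, P, Q, d.1, ?_, d.2.2⟩)
    intro p hp q hq
    rcases d.2.1 p hp q hq with h | h
    · exact Or.inl h
    · rcases Finset.mem_insert.1 (hsub h) with h | h
      · exfalso
        rcases Sym2.eq_iff.1 h with ⟨h', -⟩ | ⟨h', -⟩
        · exact hw (h' ▸ hp)
        · exact hx (h' ▸ hp)
      · exact Or.inr h
  have h1 := (Finset.card_le_card hs).trans (Finset.card_union_le _ _)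
  have h2 := Finset.card_union_le
    ((bs H F2 c b u).filter (fun z => ∃ P Q, Dat H F2 c u z P Q ∧ w ∈ P))
    ((bs H F2 c b u).filter (fun z => ∃ P Q, Dat H F2 c u z P Q ∧ x ∈ P))
  have h3 := hE w e1 he1
  have h4 := hE x e2 he2
  omega

theorem card_W_le (u : V) : (univ.filter (fun v => b v = 1)).card
    ≤ (gs H F c b u).card + (bs H F c b u).card + (cn H {u}).card + 1 := by
  classical
  have h1 : univ.filter (fun v => b v = 1) ⊆
      gs H F c b u ∪ insert u (cn H {u} ∪ bs H F c b u) := by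
    intro x hx
    have hbx : b x = 1 := (Finset.mem_filter.1 hx).2
    rw [Finset.mem_union, Finset.mem_insert, Finset.mem_union, mem_gs, mem_bs]
    by_cases h1 : x = u
    · exact Or.inr (Or.inl h1)
    by_cases h2 : H.Adj u x
    · refine Or.inr (Or.inr (Or.inl ((mem_cn H {u} x).2 ?_)))
      intro j hj
      rw [Finset.mem_singleton.1 hj]
      exact h2
    by_cases h3 : Bd2 H F c u x
    · exact Or.inr (Or.inr (Or.inr ⟨hbx, h1, h2, h3⟩))
    · exact Or.inl ⟨hbx, h1, h2, h3⟩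
  have h2 := Finset.card_le_card h1
  have h3 := Finset.card_union_le (gs H F c b u) (insert u (cn H {u} ∪ bs H F c b u))
  have h4 := Finset.card_insert_le u (cn H {u} ∪ bs H F c b u)
  have h5 := Finset.card_union_le (cn H {u}) (bs H F c b u)
  omega

end

end Pool.Agent.RE26.Dr
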